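import Pool.Agent.K4H47.AL.Spec

/-!
# Affine invariance of the packing conditions
-/

set_option autoImplicit false

namespace Pool.Agent.K4H47.AL

open MeasureTheory
open scoped ENNReal
open Pool.Agent.H349R2.Tet (V lat dt Ov pack_lat_image pack_interior_image pack_Ov_image
  pack_dt_image pack_volume_image)
open Pool.Agent.H581R2
open Pool.Agent.TH219.DL
open Pool.Agent.K4H47.MM

theorem Rv_image (A : Set V) (L : V ≃ₗ[ℝ] V) (p y : V) :
    Rv ((fun x => L x + p) '' A) (L y + (p + p)) ↔ Rv A y := by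
  unfold Rv
  rw [pack_interior_image]
  constructor
  · rintro ⟨_, ⟨x, hx, rfl⟩, ⟨z, hz, hzx⟩⟩
    refine ⟨x, hx, ?_⟩
    have h1 : L z + p = L y + (p + p) - (L x + p) := hzx
    have h2 : L z = L (y - x) := by
      rw [map_sub]
      have h3 : L z = L y + (p + p) - (L x + p) - p := by rw [← h1]; abel
      rw [h3]; abel
    rw [← L.injective h2]
    exact hz
  · rintro ⟨x, hx, hxu⟩
    refine ⟨L x + p, ⟨x, hx, rfl⟩, ⟨y - x, hxu, ?_⟩⟩
    simp only [map_sub]
    abel

theorem vol_image (A : Set V) (L : V ≃ₗ[ℝ] V) (p : V) :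
    (volume ((fun x => L x + p) '' A)).toReal =
      |LinearMap.det L.toLinearMap| * (volume A).toReal := by
  rw [pack_volume_image, ENNReal.toReal_mul, ENNReal.toReal_ofReal (abs_nonneg _)]

/-- [AF] affine invariance -/
theorem af' : S_AF := by
  intro K L p r
  have hdet : LinearMap.det L.toLinearMap ≠ 0 := (LinearEquiv.isUnit_det' L).ne_zero
  have hd : 0 < |LinearMap.det L.toLinearMap| := abs_pos.2 hdet
  constructor
  · rintro ⟨b, hb, hov, hr⟩
    refine ⟨fun i => L (b i), ?_, ?_, ?_⟩
    · rw [pack_dt_image]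
      exact mul_ne_zero hdet hb
    · intro u hu hu0 h
      obtain ⟨v, rfl⟩ := L.surjective u
      refine hov v ((pack_lat_image L b v).1 hu) ?_ ((pack_Ov_image K L p v).1 h)
      rintro rfl
      exact hu0 (map_zero L)
    · rw [pack_dt_image, vol_image, abs_mul]
      nlinarith [mul_lt_mul_of_pos_left hr hd]
  · rintro ⟨v, b, hb, hov, hrv, hr⟩
    refine ⟨L v + (p + p), fun i => L (b i), ?_, ?_, ?_, ?_⟩
    · rw [pack_dt_image]
      exact mul_ne_zero hdet hb
    · intro u hu hu0 h
      obtain ⟨v, rfl⟩ := L.surjective u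
      refine hov v ((pack_lat_image L b v).1 hu) ?_ ((pack_Ov_image K L p v).1 h)
      rintro rfl
      exact hu0 (map_zero L)
    · intro u hu h
      obtain ⟨w, rfl⟩ := L.surjective u
      have e : L v + (p + p) + L w = L (v + w) + (p + p) := by rw [map_add]; abel
      rw [e, Rv_image] at h
      exact hrv w ((pack_lat_image L b w).1 hu) h
    · rw [pack_dt_image, vol_image, abs_mul]
      nlinarith [mul_lt_mul_of_pos_left hr hd]

end Pool.Agent.K4H47.AL
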