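import Pool.Agent.K4H47.AL.Spec

set_option autoImplicit false

namespace Pool.Agent.K4H47.AL

open MeasureTheory
open scoped ENNReal
open Pool.Agent.H349R2.Tet (V lat dt Ov)
open Pool.Agent.H581R2
open Pool.Agent.TH219.DL
open Pool.Agent.K4H47.MM

namespace ALg

theorem cont (q : MvPolynomial Unit ℚ) :
    Continuous fun s : ℝ => MvPolynomial.aeval (fun _ : Unit => s) q := by
  have h : (fun s : ℝ => MvPolynomial.aeval (fun _ : Unit => s) q) =
      fun s : ℝ => MvPolynomial.eval (fun _ : Unit => s) (MvPolynomial.map (algebraMap ℚ ℝ) q) := by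
    funext s
    rw [MvPolynomial.aeval_def, MvPolynomial.eval₂_eq_eval_map]
  rw [h]
  exact (MvPolynomial.continuous_eval _).comp (continuous_pi fun _ => continuous_id)

theorem ne_zero {t : ℝ} (ht : ¬ IsAlgebraic ℚ t) {q : MvPolynomial Unit ℚ} (hq : q ≠ 0) :
    MvPolynomial.aeval (fun _ : Unit => t) q ≠ 0 := by
  have h : AlgebraicIndependent ℚ (fun _ : Unit => t) :=
    algebraicIndependent_unique_type_iff.2 ht
  intro h0
  exact hq (h (by rw [h0, map_zero]))

theorem key (Q : Finset (MvPolynomial Unit ℚ)) {t : ℝ} (ht : ¬ IsAlgebraic ℚ t) :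
    ∃ ε : ℝ, 0 < ε ∧ ∀ s : ℝ, |s - t| < ε → ∀ q ∈ Q,
      SignType.sign (MvPolynomial.aeval (fun _ : Unit => t) q) =
        SignType.sign (MvPolynomial.aeval (fun _ : Unit => s) q) := by
  have h : ∀ᶠ s in nhds t, ∀ q ∈ Q,
      SignType.sign (MvPolynomial.aeval (fun _ : Unit => t) q) =
        SignType.sign (MvPolynomial.aeval (fun _ : Unit => s) q) := by
    rw [Filter.eventually_all_finset]
    intro q _
    by_cases hq : q = 0
    · subst hq
      simp
    rcases lt_or_gt_of_ne (ne_zero ht hq) with h1 | h1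
    · filter_upwards [(cont q).continuousAt.eventually (gt_mem_nhds h1)] with s hs
      rw [sign_neg h1, sign_neg hs]
    · filter_upwards [(cont q).continuousAt.eventually (lt_mem_nhds h1)] with s hs
      rw [sign_pos h1, sign_pos hs]
  obtain ⟨ε, hε, h2⟩ := Metric.eventually_nhds_iff.1 h
  exact ⟨ε, hε, fun s hs => h2 (by rwa [Real.dist_eq])⟩

theorem const {S : Set ℝ} (hS : SAP (fun z : Unit → ℝ => z () ∈ S)) {t : ℝ}
    (ht : ¬ IsAlgebraic ℚ t) : ∃ ε : ℝ, 0 < ε ∧ ∀ s : ℝ, |s - t| < ε → (s ∈ S ↔ t ∈ S) := by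
  obtain ⟨Q, hQ⟩ := SA.iff hS
  obtain ⟨ε, hε, h⟩ := key Q ht
  exact ⟨ε, hε, fun s hs => (hQ (fun _ => t) (fun _ => s) (h s hs)).symm⟩

end ALg

open ALg

/-- [AL] elements of countable semialgebraic sets, and endpoints, are algebraic -/
theorem alg : S_AL := by
  refine ⟨fun S hS hc t ht => ?_, fun S x hS h1 h2 hx => ?_⟩
  · by_contra hn
    obtain ⟨ε, hε, h⟩ := const hS hn
    have h0 : volume (Set.Ioo (t - ε) (t + ε)) = 0 :=
      (hc.mono fun s hs => (h s (by
        rw [abs_lt]; constructor <;> linarith [hs.1, hs.2])).2 ht).measure_zero _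
    rw [Real.volume_Ioo, ENNReal.ofReal_eq_zero] at h0
    linarith
  · by_contra hn
    obtain ⟨ε, hε, h⟩ := const hS hn
    have hx0 : x ≠ 0 := by
      rintro rfl
      exact hn isAlgebraic_zero
    have hx1 : 0 < x := lt_of_le_of_ne hx hx0.symm
    have h3 : max 0 (x - ε / 2) ∈ S :=
      h1 _ (le_max_left _ _) (max_lt hx1 (by linarith))
    have h4 : x + ε / 2 ∉ S := h2 _ (by linarith)
    have h5 : |max 0 (x - ε / 2) - x| < ε := by
      have h6 : max 0 (x - ε / 2) < x := max_lt hx1 (by linarith)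
      have h7 : x - ε / 2 ≤ max 0 (x - ε / 2) := le_max_right _ _
      rw [abs_lt]; constructor <;> linarith
    have h8 : |x + ε / 2 - x| < ε := by
      rw [abs_lt]; constructor <;> linarith
    exact h4 ((h _ h8).2 ((h _ h5).1 h3))

end Pool.Agent.K4H47.AL
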