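import Pool.Agent.K4H47.AL.Spec

/-!
# The densities in real terms
-/

set_option autoImplicit false

namespace Pool.Agent.K4H47.AL

open MeasureTheory
open scoped ENNReal
open Pool.Agent.H349R2.Tet (V lat dt Ov dt_ne_zero_iff)
open Pool.Agent.H581R2
open Pool.Agent.TH219.DL
open Pool.Agent.K4H47.MM

theorem dg_aux {r m d : ℝ} (hr : 0 ≤ r) (hd : 0 < d) :
    ENNReal.ofReal r < ENNReal.ofReal (m / d) ↔ r * d < m := by
  rw [ENNReal.ofReal_lt_ofReal_iff_of_nonneg hr, lt_div_iff₀ hd]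

theorem dg : S_DG := by
  intro K hK r hr
  constructor
  · unfold dL PL
    simp only [lt_iSup_iff]
    constructor
    · rintro ⟨b, ⟨hb, hp⟩, h⟩
      rw [den_L hK.1 hb, dg_aux hr (abs_dt_pos hb)] at h
      exact ⟨b, (dt_ne_zero_iff b).2 hb, (packL_iff hb).1 hp, h⟩
    · rintro ⟨b, hb, hp, h⟩
      have hb' := (dt_ne_zero_iff b).1 hb
      refine ⟨b, ⟨hb', (packL_iff hb').2 hp⟩, ?_⟩
      rw [den_L hK.1 hb', dg_aux hr (abs_dt_pos hb')]
      exact h
  · unfold dLs PS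
    simp only [lt_iSup_iff]
    constructor
    · rintro ⟨v, b, ⟨hb, hp⟩, h⟩
      rw [den_Ls hK hb hp, dg_aux hr (abs_dt_pos hb)] at h
      have h1 := packLs_iff.1 hp
      exact ⟨v, b, (dt_ne_zero_iff b).2 hb, h1.1, h1.2, h⟩
    · rintro ⟨v, b, hb, hp1, hp2, h⟩
      have hb' := (dt_ne_zero_iff b).1 hb
      have hp : IsPack K (famLs v b) := packLs_iff.2 ⟨hp1, hp2⟩
      refine ⟨v, b, ⟨hb', hp⟩, ?_⟩
      rw [den_Ls hK hb' hp, dg_aux hr (abs_dt_pos hb')]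
      exact h

end Pool.Agent.K4H47.AL
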