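import Pool.Agent.K4H47.AL.Spec

/-!
# A convex body is contained in a polytope of almost the same volume
-/

set_option autoImplicit false

namespace Pool.Agent.K4H47.AL

open MeasureTheory
open scoped ENNReal
open Pool.Agent.H349R2.Tet (V lat dt Ov)
open Pool.Agent.H581R2
open Pool.Agent.TH219.DL
open Pool.Agent.K4H47.MM

/-- a cube is the hull of its vertices -/
theorem cube_hull (x : V) {δ : ℝ} (hδ : 0 ≤ δ) :
    Metric.closedBall x δ =
      convexHull ℝ (Set.pi Set.univ fun i => ({x i - δ, x i + δ} : Set ℝ)) := by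
  rw [convexHull_pi, closedBall_pi x hδ]
  refine Set.pi_congr rfl fun i _ => ?_
  rw [convexHull_pair, segment_eq_Icc (by linarith), Real.closedBall_eq_Icc]

/-- [DN] circumscribed polytopes -/
theorem dn (K : Set V) (hK : Body K) (ε : ℝ) (hε : 0 < ε) :
    ∃ (n : ℕ) (v : Fin n → V), K ⊆ hull v ∧ (interior (hull v)).Nonempty ∧
      (volume (hull v)).toReal ≤ (1 + ε) * (volume K).toReal := by
  obtain ⟨hc, hconv, c, hcK⟩ := hK
  obtain ⟨d, hd0, hd1, hdε⟩ : ∃ d : ℝ, 0 < d ∧ d ≤ 1 ∧ 7 * d ≤ ε :=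
    ⟨min 1 (ε / 7), lt_min one_pos (by positivity), min_le_left _ _, by
      have := min_le_right (1 : ℝ) (ε / 7); linarith⟩
  set K' : Set V := AffineMap.homothety c (1 + d) '' K with hK'
  have hsub : K ⊆ interior K' :=
    hconv.subset_interior_image_homothety_of_one_lt hcK (1 + d) (by linarith)
  have hconv' : Convex ℝ (interior K') := (hconv.affine_image _).interior
  obtain ⟨δ, hδ, hδK⟩ := hc.exists_cthickening_subset_open isOpen_interior hsub
  obtain ⟨t, htK, htf, hcov⟩ := hc.finite_cover_balls hδ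
  set F : Set V := ⋃ x ∈ t, Set.pi Set.univ fun i => ({x i - δ, x i + δ} : Set ℝ) with hF
  have hFf : F.Finite := htf.biUnion fun x _ => Set.Finite.pi fun i => Set.toFinite _
  obtain ⟨n, v, -, hv⟩ := hFf.fin_param
  have hball : ∀ x ∈ t, Metric.closedBall x δ ⊆ hull v := by
    intro x hx
    rw [cube_hull x hδ.le, hull, hv]
    exact convexHull_mono (Set.subset_biUnion_of_mem (u := fun x : V =>
      Set.pi Set.univ fun i => ({x i - δ, x i + δ} : Set ℝ)) hx)
  have hKh : K ⊆ hull v := by
    intro y hy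
    obtain ⟨x, hx, hyx⟩ := Set.mem_iUnion₂.1 (hcov hy)
    exact hball x hx (Metric.ball_subset_closedBall hyx)
  have hhK : hull v ⊆ interior K' := by
    rw [hull, hv]
    refine convexHull_min ?_ hconv'
    intro y hy
    obtain ⟨x, hx, hyx⟩ := Set.mem_iUnion₂.1 hy
    refine hδK (Metric.closedBall_subset_cthickening (htK hx) δ ?_)
    rw [cube_hull x hδ.le]
    exact subset_convexHull ℝ _ hyx
  refine ⟨n, v, hKh, ⟨c, interior_mono hKh hcK⟩, ?_⟩
  have hvol : volume K' = ENNReal.ofReal ((1 + d) ^ 3) * volume K := by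
    rw [hK', Measure.addHaar_image_homothety, Module.finrank_fin_fun, abs_of_nonneg (by positivity)]
  have hfin : volume K ≠ ⊤ := hc.measure_lt_top.ne
  have h1 : (volume (hull v)).toReal ≤ (volume K').toReal := by
    refine ENNReal.toReal_mono ?_ (measure_mono (hhK.trans interior_subset))
    rw [hvol]
    exact ENNReal.mul_ne_top ENNReal.ofReal_ne_top hfin
  rw [hvol, ENNReal.toReal_mul, ENNReal.toReal_ofReal (by positivity)] at h1
  refine h1.trans (mul_le_mul_of_nonneg_right ?_ ENNReal.toReal_nonneg)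
  nlinarith [mul_nonneg hd0.le (sub_nonneg.2 hd1), mul_nonneg (mul_nonneg hd0.le hd0.le) (sub_nonneg.2 hd1)]

end Pool.Agent.K4H47.AL
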