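import Pool.Agent.K4H47.AL.Spec

/-!
# Lattice packings of normalised bodies: finitely many conditions
-/

set_option autoImplicit false

namespace Pool.Agent.K4H47.AL

open MeasureTheory
open scoped ENNReal
open Pool.Agent.H349R2.Tet (V lat dt Ov)
open Pool.Agent.H581R2
open Pool.Agent.TH219.DL
open Pool.Agent.K4H47.MM

theorem hull_sub_ball {M : ℕ} {w : Fin (M + 4) → V} (hw : Nm w) :
    hull w ⊆ Metric.closedBall (0 : V) 1 := by
  refine convexHull_min ?_ (convex_closedBall 0 1)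
  rintro _ ⟨i, rfl⟩
  rw [mem_closedBall_zero_iff, pi_norm_le_iff_of_nonneg zero_le_one]
  intro j
  rw [Real.norm_eq_abs]
  exact hw.2.2.2.2 i j

theorem ball_sub_hull {M : ℕ} {w : Fin (M + 4) → V} (hw : Nm w) :
    Metric.ball (fun _ => 1 / 4 : V) (1 / 12) ⊆ hull w := by
  intro x hx
  rw [mem_ball_iff_norm] at hx
  have h1 : ∀ j, |x j - 1 / 4| < 1 / 12 := by
    intro j
    have h2 := (norm_le_pi_norm (x - fun _ => 1 / 4 : V) j).trans_lt hx
    rwa [Real.norm_eq_abs] at h2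
  have h0 := abs_lt.1 (h1 0)
  have h1' := abs_lt.1 (h1 1)
  have h2 := abs_lt.1 (h1 2)
  obtain ⟨e0, e1, e2, e3, -⟩ := hw
  have hm : ∀ i : Fin (M + 4), w i ∈ hull w := fun i => subset_convexHull ℝ _ ⟨i, rfl⟩
  have h3 : ∑ i : Fin 4, (![1 - x 0 - x 1 - x 2, x 0, x 1, x 2] i) • (![w 0, w 1, w 2, w 3] i) ∈
      hull w := by
    refine (convex_convexHull ℝ _).sum_mem ?_ ?_ ?_
    · intro i _
      fin_cases i <;> simp <;> linarith
    · rw [Fin.sum_univ_four]
      simp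
      ring
    · intro i _
      fin_cases i
      · exact hm 0
      · exact hm 1
      · exact hm 2
      · exact hm 3
  convert h3 using 1
  rw [Fin.sum_univ_four]
  funext j
  fin_cases j <;> simp [e0, e1, e2, e3]

theorem ball_sub_int {M : ℕ} {w : Fin (M + 4) → V} (hw : Nm w) :
    Metric.ball (fun _ => 1 / 4 : V) (1 / 12) ⊆ interior (hull w) :=
  interior_maximal (ball_sub_hull hw) Metric.isOpen_ball

theorem norm_of_not_Ov {M : ℕ} {w : Fin (M + 4) → V} (hw : Nm w) {u : V} (h : ¬ Ov (hull w) u) :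
    1 / 6 ≤ ‖u‖ := by
  by_contra hc
  push Not at hc
  apply h
  have h2 : ‖(1 / 2 : ℝ) • u‖ < 1 / 12 := by
    rw [norm_smul, Real.norm_eq_abs, abs_of_pos (by norm_num)]
    linarith
  refine ⟨(fun _ => 1 / 4 : V) + (1 / 2 : ℝ) • u, ball_sub_int hw ?_, ball_sub_int hw ?_⟩
  · rw [mem_ball_iff_norm, add_sub_cancel_left]
    exact h2
  · rw [mem_ball_iff_norm]
    have e : (fun _ => 1 / 4 : V) + (1 / 2 : ℝ) • u - u - (fun _ => 1 / 4 : V) =
        -((1 / 2 : ℝ) • u) := by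
      funext j
      simp only [Pi.add_apply, Pi.sub_apply, Pi.neg_apply, Pi.smul_apply, smul_eq_mul]
      ring
    rw [e, norm_neg]
    exact h2

theorem norm_of_Ov {M : ℕ} {w : Fin (M + 4) → V} (hw : Nm w) {u : V} (h : Ov (hull w) u) :
    ‖u‖ ≤ 2 := by
  obtain ⟨x, hx, hy⟩ := h
  have h1 := hull_sub_ball hw (interior_subset hx)
  have h2 := hull_sub_ball hw (interior_subset hy)
  rw [mem_closedBall_zero_iff] at h1 h2
  have e : u = x - (x - u) := by abel
  rw [e]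
  exact (norm_sub_le _ _).trans (by linarith)

theorem sum_ne_zero {b : Fin 3 → V} (hb : dt b ≠ 0) {n : Fin 3 → ℤ} (hn : n ≠ 0) :
    ∑ i, (n i : ℝ) • b i ≠ 0 := by
  have h1 := (Pool.Agent.H349R2.Tet.dt_ne_zero_iff b).1 hb
  rw [Fintype.linearIndependent_iff] at h1
  intro h
  apply hn
  funext i
  exact_mod_cast h1 (fun i => (n i : ℝ)) h i

/-- three times the unit vectors -/
def b3 : Fin 3 → V := fun i => (3 : ℝ) • Pi.single i 1

theorem dt_b3 : dt b3 = 27 := by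
  have h : Matrix.of b3 = (3 : ℝ) • (1 : Matrix (Fin 3) (Fin 3) ℝ) := by
    ext i j
    simp only [b3, Matrix.of_apply, Pi.smul_apply, Matrix.smul_apply, Matrix.one_apply, Pi.single_apply]
    by_cases h : i = j
    · rw [if_pos h, if_pos h.symm]
    · rw [if_neg h, if_neg (fun e => h e.symm)]
  unfold dt
  rw [h, Matrix.det_smul, Matrix.det_one]
  norm_num

theorem b3_sum (n : Fin 3 → ℤ) (j : Fin 3) : (∑ i, (n i : ℝ) • b3 i) j = 3 * n j := by
  rw [Finset.sum_apply, Finset.sum_eq_single j]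
  · simp [b3]
    ring
  · intro i _ hij
    simp [b3, Pi.single_apply, hij.symm]
  · intro h
    exact absurd (Finset.mem_univ _) h

theorem b3_norm {n : Fin 3 → ℤ} (hn : n ≠ 0) : 3 ≤ ‖∑ i, (n i : ℝ) • b3 i‖ := by
  obtain ⟨j, hj⟩ : ∃ j, n j ≠ 0 := by
    by_contra h
    push Not at h
    exact hn (funext h)
  refine le_trans ?_ (norm_le_pi_norm _ j)
  rw [b3_sum, Real.norm_eq_abs, abs_mul, abs_of_pos (by norm_num : (0 : ℝ) < 3)]
  have h1 : (1 : ℤ) ≤ |n j| := Int.one_le_abs hj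
  have h2 : (1 : ℝ) ≤ |(n j : ℝ)| := by exact_mod_cast h1
  linarith

/-- the lattice part of the reduction: bounded bases -/
theorem red (h1 : S_RB) : ∃ C : ℕ, 3 ≤ C ∧ ∀ (M : ℕ) (w : Fin (M + 4) → V), Nm w →
    ∀ b : Fin 3 → V, dt b ≠ 0 → (∀ u ∈ lat b, u ≠ 0 → ¬ Ov (hull w) u) → |dt b| ≤ 216 →
    ∃ c : Fin 3 → V, lat c = lat b ∧ |dt c| = |dt b| ∧ (∀ i j, |c i j| ≤ C) ∧ (∀ i, ‖c i‖ ≤ C) ∧
      1 ≤ C * |dt c| := by
  obtain ⟨C, hC⟩ := h1 (1 / 6) 216 (by norm_num)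
  refine ⟨C + 3, by omega, fun M w hw b hb hp hD => ?_⟩
  obtain ⟨c, h2, h3, h4, h5, h6⟩ := hC b hb (fun u hu hu0 => norm_of_not_Ov hw (hp u hu hu0)) hD
  have h7 : ((C + 3 : ℕ) : ℝ) = C + 3 := by push_cast; ring
  have h8 : ∀ i, ‖c i‖ ≤ ((C + 3 : ℕ) : ℝ) := fun i => by rw [h7]; linarith [h5 i]
  refine ⟨c, h3, h4, fun i j => ?_, h8, ?_⟩
  · exact (norm_le_pi_norm (c i) j).trans (h8 i)
  · rw [h7]
    have : 0 ≤ |dt c| := abs_nonneg _
    linarith

theorem fl (h1 : S_RB) (h2 : S_IX) : S_FL := by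
  obtain ⟨C, hC3, hC⟩ := red h1
  obtain ⟨C', hC'⟩ := h2 C 2
  have hC3r : (3 : ℝ) ≤ C := by exact_mod_cast hC3
  intro M
  refine ⟨C, C', fun w hw r hr => ⟨?_, ?_⟩⟩
  · rintro ⟨b, hb, hp, hv⟩
    by_cases hD : |dt b| ≤ 216
    · obtain ⟨c, h3, h4, h5, -, h6⟩ := hC M w hw b hb hp hD
      have hc : dt c ≠ 0 := by
        rw [← abs_pos, h4]
        exact abs_pos.2 hb
      refine ⟨c, h5, h6, fun n hn _ => ?_, by rw [h4]; exact hv⟩
      apply hp _ _ (sum_ne_zero hc hn)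
      rw [← h3]
      exact ⟨n, rfl⟩
    · push Not at hD
      refine ⟨b3, fun i j => ?_, ?_, fun n hn _ ho => ?_, ?_⟩
      · refine le_trans ?_ hC3r
        simp only [b3, Pi.smul_apply, smul_eq_mul, abs_mul, Pi.single_apply]
        split_ifs <;> norm_num
      · rw [dt_b3, abs_of_pos (by norm_num)]
        linarith
      · have h3 := b3_norm hn
        have h4 := norm_of_Ov hw ho
        linarith
      · refine lt_of_le_of_lt ?_ hv
        apply mul_le_mul_of_nonneg_left _ hr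
        rw [dt_b3, abs_of_pos (by norm_num)]
        linarith
  · rintro ⟨b, hb1, hb2, hp, hv⟩
    have hb : dt b ≠ 0 := by
      intro h
      rw [h, abs_zero, mul_zero] at hb2
      linarith
    have hbn : ∀ i, ‖b i‖ ≤ C := by
      intro i
      rw [pi_norm_le_iff_of_nonneg (by linarith)]
      intro j
      rw [Real.norm_eq_abs]
      exact hb1 i j
    refine ⟨b, hb, ?_, hv⟩
    rintro u ⟨n, rfl⟩ hu0 ho
    have hn : n ≠ 0 := by
      rintro rfl
      apply hu0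
      simp
    exact hp n hn (hC' b hbn hb2 n (norm_of_Ov hw ho)) ho

end Pool.Agent.K4H47.AL
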