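import Pool.Agent.K4H47.AL.Spec

/-! # Double lattice packings of normalised bodies: finitely many conditions -/

set_option autoImplicit false

namespace Pool.Agent.K4H47.AL

open MeasureTheory
open scoped ENNReal
open Pool.Agent.H349R2.Tet (V lat dt Ov)
open Pool.Agent.H581R2
open Pool.Agent.TH219.DL
open Pool.Agent.K4H47.MM

namespace FSa

/-- the point `(1/4, 1/4, 1/4)` -/
noncomputable def x0 : V := fun _ => 1 / 4

theorem ball_sub {M : ℕ} {w : Fin (M + 4) → V} (hw : Nm w) :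
    Metric.ball x0 (1 / 12) ⊆ interior (hull w) := by
  apply interior_maximal ?_ Metric.isOpen_ball
  intro x hx
  obtain ⟨h0, h1, h2, h3, -⟩ := hw
  rw [mem_ball_iff_norm] at hx
  have hj : ∀ j, |x j - 1 / 4| < 1 / 12 := by
    intro j
    have h := norm_le_pi_norm (x - x0) j
    rw [Pi.sub_apply, Real.norm_eq_abs] at h
    exact h.trans_lt hx
  have a0 := abs_lt.1 (hj 0)
  have a1 := abs_lt.1 (hj 1)
  have a2 := abs_lt.1 (hj 2)
  have hm : ∀ i, w i ∈ hull w := fun i => subset_convexHull ℝ _ ⟨i, rfl⟩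
  have hc : Convex ℝ (hull w) := convex_convexHull ℝ _
  have h := hc.sum_mem (t := Finset.univ) (w := ![1 - x 0 - x 1 - x 2, x 0, x 1, x 2])
    (z := ![w 0, w 1, w 2, w 3]) (by
      intro i _
      fin_cases i
      · show 0 ≤ 1 - x 0 - x 1 - x 2; linarith [a0.2, a1.2, a2.2]
      · show 0 ≤ x 0; linarith [a0.1]
      · show 0 ≤ x 1; linarith [a1.1]
      · show 0 ≤ x 2; linarith [a2.1]) (by
      rw [Fin.sum_univ_four]
      show 1 - x 0 - x 1 - x 2 + x 0 + x 1 + x 2 = 1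
      ring) (by
      intro i _
      fin_cases i <;> exact hm _)
  convert h using 1
  rw [Fin.sum_univ_four]
  show x = (1 - x 0 - x 1 - x 2) • w 0 + x 0 • w 1 + x 1 • w 2 + x 2 • w 3
  rw [h0, h1, h2, h3]
  funext j
  fin_cases j <;> simp

theorem hull_sub {M : ℕ} {w : Fin (M + 4) → V} (hw : Nm w) {x : V} (hx : x ∈ interior (hull w)) :
    ‖x‖ < 1 := by
  have h1 : hull w ⊆ Metric.closedBall 0 1 := by
    apply convexHull_min _ (convex_closedBall _ _)
    rintro _ ⟨i, rfl⟩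
    rw [mem_closedBall_zero_iff, pi_norm_le_iff_of_nonneg zero_le_one]
    intro j
    rw [Real.norm_eq_abs]
    exact hw.2.2.2.2 i j
  have h2 := interior_mono h1 hx
  rw [interior_closedBall _ one_ne_zero] at h2
  exact mem_ball_zero_iff.1 h2

theorem ov_norm {M : ℕ} {w : Fin (M + 4) → V} (hw : Nm w) {u : V} (h : Ov (hull w) u) :
    ‖u‖ < 2 := by
  obtain ⟨x, hx, hy⟩ := h
  have h1 := hull_sub hw hx
  have h2 := hull_sub hw hy
  have h3 : u = x - (x - u) := by abel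
  calc ‖u‖ = ‖x - (x - u)‖ := by rw [← h3]
    _ ≤ ‖x‖ + ‖x - u‖ := norm_sub_le _ _
    _ < 2 := by linarith

theorem rv_norm {M : ℕ} {w : Fin (M + 4) → V} (hw : Nm w) {u : V} (h : Rv (hull w) u) :
    ‖u‖ < 2 := by
  obtain ⟨x, hx, hy⟩ := h
  have h1 := hull_sub hw hx
  have h2 := hull_sub hw hy
  have h3 : u = x + (u - x) := by abel
  calc ‖u‖ = ‖x + (u - x)‖ := by rw [← h3]
    _ ≤ ‖x‖ + ‖u - x‖ := norm_add_le _ _
    _ < 2 := by linarith

theorem sum_mem {b : Fin 3 → V} (n : Fin 3 → ℤ) : ∑ i, (n i : ℝ) • b i ∈ lat b := ⟨n, rfl⟩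

/-- coordinates with respect to a basis -/
theorem coords {c : Fin 3 → V} (hc : dt c ≠ 0) (v : V) : ∃ t : Fin 3 → ℝ, v = ∑ i, t i • c i := by
  refine ⟨Matrix.vecMul v (Matrix.of c)⁻¹, ?_⟩
  have hu : IsUnit (Matrix.of c).det := isUnit_iff_ne_zero.2 hc
  have h1 : Matrix.vecMul (Matrix.vecMul v (Matrix.of c)⁻¹) (Matrix.of c) = v := by
    rw [Matrix.vecMul_vecMul, Matrix.nonsing_inv_mul _ hu, Matrix.vecMul_one]
  conv_lhs => rw [← h1]
  funext j
  rw [Matrix.vecMul, dotProduct, Finset.sum_apply]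
  rfl

/-- reduction modulo the lattice -/
theorem reduce {c : Fin 3 → V} (hc : dt c ≠ 0) {C : ℕ} (hC : ∀ i, ‖c i‖ ≤ C) (v : V) :
    ∃ v' : V, (∃ u ∈ lat c, v' = v + u) ∧ ∀ j, |v' j| ≤ 3 * C := by
  obtain ⟨t, ht⟩ := coords hc v
  refine ⟨∑ i, Int.fract (t i) • c i, ⟨∑ i, ((-⌊t i⌋ : ℤ) : ℝ) • c i, sum_mem _, ?_⟩, fun j => ?_⟩
  · rw [ht, ← Finset.sum_add_distrib]
    refine Finset.sum_congr rfl fun i _ => ?_
    rw [← add_smul]
    congr 1
    unfold Int.fract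
    push_cast
    ring
  · have h1 : ‖∑ i, Int.fract (t i) • c i‖ ≤ 3 * C := by
      calc ‖∑ i, Int.fract (t i) • c i‖ ≤ ∑ i : Fin 3, ‖Int.fract (t i) • c i‖ := norm_sum_le _ _
        _ ≤ ∑ _i : Fin 3, (C : ℝ) := by
            refine Finset.sum_le_sum fun i _ => ?_
            rw [norm_smul, Real.norm_eq_abs, abs_of_nonneg (Int.fract_nonneg _)]
            calc Int.fract (t i) * ‖c i‖ ≤ 1 * ‖c i‖ :=
                  mul_le_mul_of_nonneg_right (Int.fract_lt_one _).le (norm_nonneg _)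
              _ ≤ C := by rw [one_mul]; exact hC i
        _ = 3 * C := by simp
    exact (norm_le_pi_norm (∑ i, Int.fract (t i) • c i) j).trans h1

/-- the basis `(4, 0, 0)`, `(0, 2, 0)`, `(0, 0, 2)` -/
noncomputable def bb : Fin 3 → V := ![Pi.single 0 4, Pi.single 1 2, Pi.single 2 2]

theorem dt_bb : dt bb = 16 := by
  unfold dt bb
  rw [Matrix.det_fin_three]
  simp
  norm_num

theorem bb_apply (n : Fin 3 → ℤ) : ∑ i, (n i : ℝ) • bb i = ![4 * (n 0 : ℝ), 2 * n 1, 2 * n 2] := by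
  rw [Fin.sum_univ_three]
  unfold bb
  funext j
  fin_cases j <;> simp [mul_comm]

theorem int_abs {z : ℤ} (h : z ≠ 0) : (1 : ℝ) ≤ |(z : ℝ)| := by
  exact_mod_cast Int.one_le_abs h

theorem bb_norm {n : Fin 3 → ℤ} (hn : n ≠ 0) : 2 ≤ ‖∑ i, (n i : ℝ) • bb i‖ := by
  rw [bb_apply]
  obtain ⟨i, hi⟩ := Function.ne_iff.1 hn
  have h1 := int_abs hi
  refine le_trans ?_ (norm_le_pi_norm _ i)
  fin_cases i
  · show 2 ≤ ‖4 * (n 0 : ℝ)‖
    rw [norm_mul, Real.norm_eq_abs, Real.norm_eq_abs, abs_of_pos (by norm_num : (0:ℝ) < 4)]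
    have : (1 : ℝ) ≤ |(n 0 : ℝ)| := h1
    linarith
  · show 2 ≤ ‖2 * (n 1 : ℝ)‖
    rw [norm_mul, Real.norm_eq_abs, Real.norm_eq_abs, abs_of_pos (by norm_num : (0:ℝ) < 2)]
    have : (1 : ℝ) ≤ |(n 1 : ℝ)| := h1
    linarith
  · show 2 ≤ ‖2 * (n 2 : ℝ)‖
    rw [norm_mul, Real.norm_eq_abs, Real.norm_eq_abs, abs_of_pos (by norm_num : (0:ℝ) < 2)]
    have : (1 : ℝ) ≤ |(n 2 : ℝ)| := h1
    linarith

/-- the translation `(2, 0, 0)` -/
noncomputable def vv : V := Pi.single 0 2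

theorem vv_norm (n : Fin 3 → ℤ) : 2 ≤ ‖vv + ∑ i, (n i : ℝ) • bb i‖ := by
  refine le_trans ?_ (norm_le_pi_norm _ 0)
  rw [bb_apply]
  show 2 ≤ ‖(2 : ℝ) + 4 * (n 0 : ℝ)‖
  have h1 : ((2 : ℝ) + 4 * (n 0 : ℝ)) = 2 * ((1 + 2 * n 0 : ℤ) : ℝ) := by push_cast; ring
  rw [h1, norm_mul, Real.norm_eq_abs, Real.norm_eq_abs, abs_of_pos (by norm_num : (0:ℝ) < 2)]
  have h2 := int_abs (z := 1 + 2 * n 0) (by omega)
  linarith

end FSa

open FSa

/-- [FS] -/
theorem fs (h1 : S_RB) (h2 : S_IX) : S_FS := by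
  intro M
  obtain ⟨C₀, hC₀⟩ := h1 (1 / 12) 16 (by norm_num)
  obtain ⟨C, hC⟩ : ∃ C : ℕ, C = 3 * C₀ + 4 := ⟨_, rfl⟩
  obtain ⟨C', hC'⟩ := h2 C (2 + C)
  have hCr : (C : ℝ) = 3 * C₀ + 4 := by rw [hC]; push_cast; ring
  have hC0 : (0 : ℝ) ≤ C₀ := Nat.cast_nonneg _
  refine ⟨C, C', fun w hw r hr => ⟨?_, ?_⟩⟩
  · rintro ⟨v, b, hb, ho, hv, hd⟩
    by_cases hD : |dt b| ≤ 16
    · obtain ⟨c, c1, c2, c3, c4, c5⟩ := hC₀ b hb
        (fun u hu hu0 => short (by norm_num) (ball_sub hw) (ho u hu hu0)) hD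
      obtain ⟨v', ⟨u0, hu0, hv'⟩, hb'⟩ := reduce c1 c4 v
      rw [c2] at hu0
      refine ⟨v', c, fun j => (hb' j).trans (by linarith), fun i j => ?_, ?_, ?_, ?_, ?_⟩
      · refine (norm_le_pi_norm (c i) j).trans ((c4 i).trans (by linarith))
      · refine c5.trans (mul_le_mul_of_nonneg_right (by linarith) (abs_nonneg _))
      · intro n hn _
        refine ho _ (c2 ▸ sum_mem n) ?_
        intro h0
        have hli := (Pool.Agent.H349R2.Tet.dt_ne_zero_iff c).1 c1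
        rw [Fintype.linearIndependent_iff] at hli
        apply hn
        funext i
        exact_mod_cast hli (fun i => (n i : ℝ)) h0 i
      · intro n _
        rw [hv', add_assoc]
        exact hv _ (lat_add hu0 (c2 ▸ sum_mem n))
      · rw [c3]
        exact hd
    · push Not at hD
      refine ⟨vv, bb, fun j => ?_, fun i j => ?_, ?_, ?_, ?_, ?_⟩
      · have : |vv j| ≤ 2 := by
          unfold vv
          fin_cases j <;> simp
        linarith
      · have : |bb i j| ≤ 4 := by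
          unfold bb
          fin_cases i <;> fin_cases j <;> simp <;> norm_num
        linarith
      · rw [dt_bb]
        norm_num
        linarith
      · intro n hn _ ho'
        exact absurd (ov_norm hw ho') (not_lt.2 (bb_norm hn))
      · intro n _ hr'
        exact absurd (rv_norm hw hr') (not_lt.2 (vv_norm n))
      · rw [dt_bb]
        refine lt_of_le_of_lt (mul_le_mul_of_nonneg_left ?_ hr) hd
        rw [abs_of_pos (by norm_num : (0:ℝ) < 16)]
        exact hD.le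
  · rintro ⟨v, b, hv, hb, hdt, ho, hrv, hd⟩
    have hbn : ∀ i, ‖b i‖ ≤ C := fun i => (pi_norm_le_iff_of_nonneg (Nat.cast_nonneg _)).2 (hb i)
    have hvn : ‖v‖ ≤ C := (pi_norm_le_iff_of_nonneg (Nat.cast_nonneg _)).2 hv
    have hdt0 : dt b ≠ 0 := by
      intro h0
      rw [h0, abs_zero, mul_zero] at hdt
      linarith
    refine ⟨v, b, hdt0, ?_, ?_, hd⟩
    · rintro u ⟨n, rfl⟩ hu0 hov
      have h3 := ov_norm hw hov
      refine ho n ?_ (hC' b hbn hdt n (by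
        have : (0 : ℝ) ≤ C := Nat.cast_nonneg _
        linarith)) hov
      rintro rfl
      apply hu0
      simp
    · rintro u ⟨n, rfl⟩ hov
      have h3 := rv_norm hw hov
      refine hrv n (hC' b hbn hdt n ?_) hov
      have h4 : ∑ i, (n i : ℝ) • b i = (v + ∑ i, (n i : ℝ) • b i) - v := by abel
      calc ‖∑ i, (n i : ℝ) • b i‖ = ‖(v + ∑ i, (n i : ℝ) • b i) - v‖ := by rw [← h4]
        _ ≤ ‖v + ∑ i, (n i : ℝ) • b i‖ + ‖v‖ := norm_sub_le _ _
        _ ≤ 2 + C := by linarith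

end Pool.Agent.K4H47.AL
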