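import Pool.Agent.K4H47.AL.Spec

/-!
# Coordinates of short vectors
-/

set_option autoImplicit false

namespace Pool.Agent.K4H47.AL

open MeasureTheory
open scoped ENNReal
open Pool.Agent.H349R2.Tet (V lat dt Ov)

namespace IX

theorem abs3 {x y z X Y Z : ℝ} (hx : |x| ≤ X) (hy : |y| ≤ Y) (hz : |z| ≤ Z) :
    |x * y * z| ≤ X * Y * Z := by
  rw [abs_mul, abs_mul]
  have h1 := abs_nonneg x
  have h2 := abs_nonneg y
  have h3 := abs_nonneg z
  exact mul_le_mul (mul_le_mul hx hy h2 (h1.trans hx)) hz h3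
    (mul_nonneg (h1.trans hx) (h2.trans hy))

/-- the determinant of the rows `x`, `y`, `z` -/
def D (x y z : V) : ℝ :=
  x 0 * y 1 * z 2 - x 0 * y 2 * z 1 - x 1 * y 0 * z 2 + x 1 * y 2 * z 0 + x 2 * y 0 * z 1 -
    x 2 * y 1 * z 0

theorem dt_eq (c : Fin 3 → V) : dt c = D (c 0) (c 1) (c 2) := by
  unfold dt D
  rw [Matrix.det_fin_three]
  simp only [Matrix.of_apply]

theorem abs_D {x y z : V} {X Y Z : ℝ} (hx : ∀ j, |x j| ≤ X) (hy : ∀ j, |y j| ≤ Y)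
    (hz : ∀ j, |z j| ≤ Z) : |D x y z| ≤ 6 * (X * Y * Z) := by
  have h1 := abs_le.1 (abs3 (hx 0) (hy 1) (hz 2))
  have h2 := abs_le.1 (abs3 (hx 0) (hy 2) (hz 1))
  have h3 := abs_le.1 (abs3 (hx 1) (hy 0) (hz 2))
  have h4 := abs_le.1 (abs3 (hx 1) (hy 2) (hz 0))
  have h5 := abs_le.1 (abs3 (hx 2) (hy 0) (hz 1))
  have h6 := abs_le.1 (abs3 (hx 2) (hy 1) (hz 0))
  unfold D
  rw [abs_le]
  constructor <;> linarith

end IX

theorem ix : S_IX := by
  intro C L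
  refine ⟨⌈6 * (L * C * C) * C⌉₊, fun c hc hd n hn i => ?_⟩
  set u : V := ∑ i, (n i : ℝ) • c i with hu
  have hu1 : ∀ j, u j = n 0 * c 0 j + n 1 * c 1 j + n 2 * c 2 j := by
    intro j
    rw [hu, Fin.sum_univ_three]
    simp only [Pi.add_apply, Pi.smul_apply, smul_eq_mul]
  have hu2 : ∀ j, |u j| ≤ L := fun j => (norm_le_pi_norm u j).trans hn
  have hc2 : ∀ i j, |c i j| ≤ C := fun i j => (norm_le_pi_norm (c i) j).trans (hc i)
  have key : |(n i : ℝ) * dt c| ≤ 6 * (L * C * C) := by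
    rw [IX.dt_eq]
    fin_cases i
    · have h : (n 0 : ℝ) * IX.D (c 0) (c 1) (c 2) = IX.D u (c 1) (c 2) := by
        unfold IX.D
        rw [hu1, hu1, hu1]
        ring
      show |(n 0 : ℝ) * IX.D (c 0) (c 1) (c 2)| ≤ _
      rw [h]
      exact IX.abs_D hu2 (hc2 1) (hc2 2)
    · have h : (n 1 : ℝ) * IX.D (c 0) (c 1) (c 2) = IX.D (c 0) u (c 2) := by
        unfold IX.D
        rw [hu1, hu1, hu1]
        ring
      show |(n 1 : ℝ) * IX.D (c 0) (c 1) (c 2)| ≤ _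
      rw [h]
      refine (IX.abs_D (hc2 0) hu2 (hc2 2)).trans (le_of_eq ?_)
      ring
    · have h : (n 2 : ℝ) * IX.D (c 0) (c 1) (c 2) = IX.D (c 0) (c 1) u := by
        unfold IX.D
        rw [hu1, hu1, hu1]
        ring
      show |(n 2 : ℝ) * IX.D (c 0) (c 1) (c 2)| ≤ _
      rw [h]
      refine (IX.abs_D (hc2 0) (hc2 1) hu2).trans (le_of_eq ?_)
      ring
  rw [abs_mul] at key
  have h1 : |(n i : ℝ)| ≤ 6 * (L * C * C) * C := by
    calc |(n i : ℝ)| = |(n i : ℝ)| * 1 := (mul_one _).symm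
      _ ≤ |(n i : ℝ)| * (C * |dt c|) := by gcongr
      _ = |(n i : ℝ)| * |dt c| * C := by ring
      _ ≤ 6 * (L * C * C) * C := by gcongr
  have h2 : |(n i : ℝ)| ≤ (⌈6 * (L * C * C) * C⌉₊ : ℝ) := h1.trans (Nat.le_ceil _)
  rw [← Int.cast_abs] at h2
  exact_mod_cast h2

end Pool.Agent.K4H47.AL
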