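import Pool.Agent.K4H47.AL.Spec

/-!
# Continuity of the convex hull
-/

set_option autoImplicit false

namespace Pool.Agent.K4H47.AL

open MeasureTheory
open scoped ENNReal
open Pool.Agent.H349R2.Tet (V lat dt Ov)
open Pool.Agent.H581R2
open Pool.Agent.TH219.DL
open Pool.Agent.K4H47.MM

namespace LOaux

lemma hull_compact {n : ℕ} (v : Fin n → V) : IsCompact (hull v) :=
  (Set.finite_range v).isCompact_convexHull ℝ

lemma hull_convex {n : ℕ} (v : Fin n → V) : Convex ℝ (hull v) := convex_convexHull ℝ _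

lemma mem_hull {n : ℕ} (v : Fin n → V) (i : Fin n) : v i ∈ hull v :=
  subset_convexHull ℝ _ (Set.mem_range_self i)

lemma hull_sub {n : ℕ} {v : Fin n → V} {S : Set V} (hS : Convex ℝ S) (h : ∀ i, v i ∈ S) :
    hull v ⊆ S := by
  refine convexHull_min ?_ hS
  rintro _ ⟨i, rfl⟩
  exact h i

/-- the outer homothetic copy -/
lemma outer {n : ℕ} {v v' : Fin n → V} {c : V} {ρ θ : ℝ} (hρ : 0 < ρ) (hθ : 0 < θ)
    (hb : Metric.closedBall c ρ ⊆ hull v) (h : ∀ i, ‖v' i - v i‖ ≤ θ * ρ) :
    hull v' ⊆ AffineMap.homothety c (1 + θ) '' hull v := by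
  refine hull_sub ((hull_convex v).affine_image _) fun i => ?_
  have h1 : (0 : ℝ) < 1 + θ := by linarith
  refine ⟨(1 / (1 + θ)) • v i + (θ / (1 + θ)) • (c + (1 / θ) • (v' i - v i)), ?_, ?_⟩
  · refine hull_convex v (mem_hull v i) (hb ?_) (by positivity) (by positivity) ?_
    · rw [Metric.mem_closedBall, dist_eq_norm, add_sub_cancel_left, norm_smul, Real.norm_eq_abs,
        abs_of_pos (by positivity : (0 : ℝ) < 1 / θ)]
      rw [div_mul_eq_mul_div, one_mul, div_le_iff₀ hθ, mul_comm ρ θ]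
      exact h i
    · rw [← add_div, div_self h1.ne']
  · rw [AffineMap.homothety_apply]
    ext j
    simp only [vsub_eq_sub, vadd_eq_add, Pi.add_apply, Pi.smul_apply, Pi.sub_apply, smul_eq_mul]
    field_simp
    ring

/-- the inner homothetic copy -/
lemma inner' {n : ℕ} {v v' : Fin n → V} {c : V} {ρ θ : ℝ} (hρ : 0 < ρ) (hθ : 0 < θ) (hθ1 : θ < 1)
    (hb : Metric.closedBall c ρ ⊆ hull v) (h : ∀ i, ‖v' i - v i‖ ≤ θ * ρ) :
    AffineMap.homothety c (1 - θ) '' hull v ⊆ hull v' := by
  rintro _ ⟨z, hz, rfl⟩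
  by_contra hx
  obtain ⟨f, u, h1, h2⟩ := geometric_hahn_banach_closed_point (hull_convex v')
    (hull_compact v').isClosed hx
  set x := AffineMap.homothety c (1 - θ) z with hxdef
  obtain ⟨e0, he0, hmax⟩ := (isCompact_closedBall (0 : V) ρ).exists_isMaxOn
    ⟨0, Metric.mem_closedBall_self hρ.le⟩ f.continuous.continuousOn
  have hK : hull v ⊆ {y | f y < f x + θ * f e0} := by
    refine hull_sub ?_ fun i => ?_
    · have := (convex_halfSpace_lt (f := f) (𝕜 := ℝ) f.isLinear (f x + θ * f e0))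
      exact this
    · have e1 : f (v' i) < f x := (h1 _ (mem_hull v' i)).trans h2
      have e2 : (1 / θ) • (v i - v' i) ∈ Metric.closedBall (0 : V) ρ := by
        rw [mem_closedBall_zero_iff, norm_smul, Real.norm_eq_abs,
          abs_of_pos (by positivity : (0 : ℝ) < 1 / θ), div_mul_eq_mul_div, one_mul,
          div_le_iff₀ hθ, mul_comm ρ θ, norm_sub_rev]
        exact h i
      have e3 : f ((1 / θ) • (v i - v' i)) ≤ f e0 := hmax e2
      rw [map_smul, map_sub, smul_eq_mul, div_mul_eq_mul_div, one_mul, div_le_iff₀ hθ] at e3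
      show f (v i) < f x + θ * f e0
      nlinarith
  have e4 : f z < f x + θ * f e0 := hK hz
  have e5 : f (c + e0) < f x + θ * f e0 := by
    refine hK (hb ?_)
    rw [Metric.mem_closedBall, dist_eq_norm, add_sub_cancel_left]
    exact mem_closedBall_zero_iff.1 he0
  have e6 : f x = θ * f c + (1 - θ) * f z := by
    rw [hxdef, AffineMap.homothety_apply, vsub_eq_sub, vadd_eq_add, map_add, map_smul, map_sub,
      smul_eq_mul]
    ring
  rw [map_add] at e5
  have e7 : (1 - θ) * f z < (1 - θ) * (f x + θ * f e0) :=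
    mul_lt_mul_of_pos_left e4 (by linarith)
  have e8 : θ * (f c + f e0) < θ * (f x + θ * f e0) := mul_lt_mul_of_pos_left e5 hθ
  nlinarith

end LOaux

open LOaux in
theorem lo : S_LO := by
  intro n v hint ε hε
  obtain ⟨c, hc⟩ := hint
  obtain ⟨ρ, hρ, hball⟩ := Metric.nhds_basis_closedBall.mem_iff.1 (mem_interior_iff_mem_nhds.1 hc)
  have hcK : c ∈ hull v := interior_subset hc
  set W : ℝ := (volume (hull v)).toReal with hW
  have hfin : volume (hull v) ≠ ∞ := (hull_compact v).measure_lt_top.ne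
  have hW0 : 0 ≤ W := ENNReal.toReal_nonneg
  have hvol : volume (hull v) = ENNReal.ofReal W := (ENNReal.ofReal_toReal hfin).symm
  set θ : ℝ := min (1 / 2) (ε / (8 * W + 8)) with hθdef
  have hθ : 0 < θ := lt_min (by norm_num) (by positivity)
  have hθ1 : θ < 1 := (min_le_left _ _).trans_lt (by norm_num)
  have hθ2 : 8 * θ * W ≤ ε := by
    have h1 : θ ≤ ε / (8 * W + 8) := min_le_right _ _
    rw [le_div_iff₀ (by positivity)] at h1
    nlinarith
  refine ⟨θ * ρ, by positivity, fun v' hv' => ?_⟩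
  have hn : ∀ i, ‖v' i - v i‖ ≤ θ * ρ := by
    intro i
    rw [pi_norm_le_iff_of_nonneg (by positivity)]
    intro j
    rw [Real.norm_eq_abs, Pi.sub_apply]
    exact (hv' i j).le
  have hout := outer hρ hθ hball hn
  have hin := inner' hρ hθ hθ1 hball hn
  set Kp := AffineMap.homothety c (1 + θ) '' hull v with hKp
  set Km := AffineMap.homothety c (1 - θ) '' hull v with hKm
  have hKmK : Km ⊆ hull v := by
    rintro _ ⟨z, hz, rfl⟩
    have : AffineMap.homothety c (1 - θ) z = θ • c + (1 - θ) • z := by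
      rw [AffineMap.homothety_apply]
      ext j
      simp only [vsub_eq_sub, vadd_eq_add, Pi.add_apply, Pi.smul_apply, Pi.sub_apply, smul_eq_mul]
      ring
    rw [this]
    exact hull_convex v hcK hz hθ.le (by linarith) (by ring)
  have hKKp : hull v ⊆ Kp := by
    have h1 : (0 : ℝ) < 1 + θ := by linarith
    intro y hy
    refine ⟨(θ / (1 + θ)) • c + (1 / (1 + θ)) • y, hull_convex v hcK hy (by positivity)
      (by positivity) (by rw [← add_div, add_comm θ 1, div_self h1.ne']), ?_⟩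
    rw [AffineMap.homothety_apply]
    ext j
    simp only [vsub_eq_sub, vadd_eq_add, Pi.add_apply, Pi.smul_apply, Pi.sub_apply, smul_eq_mul]
    field_simp
    ring
  have hsub : symmDiff (hull v') (hull v) ⊆ Kp \ Km := by
    rintro x (⟨hx1, hx2⟩ | ⟨hx1, hx2⟩)
    · exact ⟨hout hx1, fun hx => hx2 (hKmK hx)⟩
    · exact ⟨hKKp hx1, fun hx => hx2 (hin hx)⟩
  have hKmc : IsCompact Km := (hull_compact v).image (AffineMap.homothety c (1 - θ)).continuous_of_finiteDimensional
  refine (measure_mono hsub).trans ?_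
  rw [measure_diff (hKmK.trans hKKp) hKmc.measurableSet.nullMeasurableSet
    hKmc.measure_lt_top.ne, hKp, hKm, Measure.addHaar_image_homothety,
    Measure.addHaar_image_homothety, hvol]
  have hfr : Module.finrank ℝ V = 3 := by
    show Module.finrank ℝ (Fin 3 → ℝ) = 3
    rw [Module.finrank_fin_fun]
  rw [hfr, ← ENNReal.ofReal_mul (abs_nonneg _), ← ENNReal.ofReal_mul (abs_nonneg _),
    ← ENNReal.ofReal_sub _ (mul_nonneg (abs_nonneg _) hW0)]
  refine ENNReal.ofReal_le_ofReal ?_
  rw [abs_of_pos (by positivity : (0 : ℝ) < (1 + θ) ^ 3),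
    abs_of_pos (pow_pos (by linarith : (0 : ℝ) < 1 - θ) 3)]
  have : (1 + θ) ^ 3 * W - (1 - θ) ^ 3 * W = (6 * θ + 2 * θ ^ 3) * W := by ring
  rw [this]
  refine le_trans (mul_le_mul_of_nonneg_right ?_ hW0) hθ2
  nlinarith [mul_pos hθ hθ, pow_pos hθ 3, mul_pos hθ (sub_pos.2 hθ1)]

end Pool.Agent.K4H47.AL
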