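import Pool.Agent.K4H47.AL.ALg

/-!
# Countable semialgebraic sets of real numbers are finite
-/

set_option autoImplicit false

namespace Pool.Agent.K4H47.AL

open MeasureTheory
open Pool.Agent.H581R2

theorem root_fin {q : MvPolynomial Unit ℚ} (hq : q ≠ 0) :
    {s : ℝ | MvPolynomial.aeval (fun _ : Unit => s) q = 0}.Finite := by
  set p : Polynomial ℚ := MvPolynomial.uniqueAlgEquiv ℚ Unit q with hp
  have hp0 : p ≠ 0 := by
    intro h0
    exact hq ((MvPolynomial.uniqueAlgEquiv ℚ Unit).injective (by rw [map_zero]; exact h0))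
  have hq' : q = (MvPolynomial.uniqueAlgEquiv ℚ Unit).symm p :=
    ((MvPolynomial.uniqueAlgEquiv ℚ Unit).symm_apply_apply q).symm
  have heq : ∀ s : ℝ, MvPolynomial.aeval (fun _ : Unit => s) q = Polynomial.aeval s p := by
    intro s
    rw [hq']
    have : ((MvPolynomial.aeval (fun _ : Unit => s)).comp
        ((MvPolynomial.uniqueAlgEquiv ℚ Unit).symm : Polynomial ℚ →ₐ[ℚ] MvPolynomial Unit ℚ)) =
        (Polynomial.aeval s : Polynomial ℚ →ₐ[ℚ] ℝ) := by
      apply Polynomial.algHom_ext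
      simp
    exact DFunLike.congr_fun this p
  refine (Polynomial.rootSet_finite p ℝ).subset fun s hs => ?_
  rw [Polynomial.mem_rootSet]
  exact ⟨hp0, by rw [← heq]; exact hs⟩

theorem key' (Q : Finset (MvPolynomial Unit ℚ)) {t : ℝ}
    (ht : ∀ q ∈ Q, q ≠ 0 → MvPolynomial.aeval (fun _ : Unit => t) q ≠ 0) :
    ∃ ε : ℝ, 0 < ε ∧ ∀ s : ℝ, |s - t| < ε → ∀ q ∈ Q,
      SignType.sign (MvPolynomial.aeval (fun _ : Unit => t) q) =
        SignType.sign (MvPolynomial.aeval (fun _ : Unit => s) q) := by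
  have h : ∀ᶠ s in nhds t, ∀ q ∈ Q,
      SignType.sign (MvPolynomial.aeval (fun _ : Unit => t) q) =
        SignType.sign (MvPolynomial.aeval (fun _ : Unit => s) q) := by
    rw [Filter.eventually_all_finset]
    intro q hqQ
    by_cases hq : q = 0
    · subst hq
      simp
    rcases lt_or_gt_of_ne (ht q hqQ hq) with h1 | h1
    · filter_upwards [(ALg.cont q).continuousAt.eventually (gt_mem_nhds h1)] with s hs
      rw [sign_neg h1, sign_neg hs]
    · filter_upwards [(ALg.cont q).continuousAt.eventually (lt_mem_nhds h1)] with s hs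
      rw [sign_pos h1, sign_pos hs]
  obtain ⟨ε, hε, h2⟩ := Metric.eventually_nhds_iff.1 h
  exact ⟨ε, hε, fun s hs => h2 (by rwa [Real.dist_eq])⟩

/-- countable semialgebraic sets of real numbers are finite -/
theorem count_fin {S : Set ℝ} (hS : SAP (fun z : Unit → ℝ => z () ∈ S)) (hc : S.Countable) :
    S.Finite := by
  obtain ⟨Q, hQ⟩ := SA.iff hS
  have hsub : S ⊆ ⋃ q ∈ (Q.filter fun q => q ≠ 0),
      {s : ℝ | MvPolynomial.aeval (fun _ : Unit => s) q = 0} := by
    intro t ht
    by_contra hcon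
    simp only [Set.mem_iUnion, Finset.mem_filter, Set.mem_setOf_eq, exists_prop, not_exists,
      not_and] at hcon
    obtain ⟨ε, hε, h⟩ := key' Q (t := t) fun q hq h0 => hcon q ⟨hq, h0⟩
    have h1 : ∀ s : ℝ, |s - t| < ε → s ∈ S := fun s hs =>
      (hQ (fun _ => t) (fun _ => s) (h s hs)).1 ht
    have h0 : volume (Set.Ioo (t - ε) (t + ε)) = 0 :=
      (hc.mono fun s hs => h1 s (by
        rw [abs_lt]; constructor <;> linarith [hs.1, hs.2])).measure_zero _
    rw [Real.volume_Ioo, ENNReal.ofReal_eq_zero] at h0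
    linarith
  refine Set.Finite.subset (Set.Finite.biUnion (Finset.finite_toSet _) fun q hq => ?_) hsub
  exact root_fin (Finset.mem_filter.1 (Finset.mem_coe.1 hq)).2

end Pool.Agent.K4H47.AL
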