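import Pool.Agent.K4H47.AL.Asm
import Pool.Agent.K4H47.AL.Fin
import Pool.Agent.K4H47.MM.Count

/-!
# Limits, local minimisers with few vertices, and the conclusions
-/

set_option autoImplicit false

namespace Pool.Agent.K4H47.AL

open MeasureTheory Filter Topology
open scoped ENNReal
open Pool.Agent.H349R2.Tet (V lat dt Ov)
open Pool.Agent.H581R2
open Pool.Agent.TH219.DL
open Pool.Agent.K4H47.MM

/-- the values of `δ` at its local minimisers with the property `Q` -/
def Val (δ : Set V → ℝ≥0∞) (Q : Set V → Prop) : Set ℝ :=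
  {t | ∃ K : Set V, Body K ∧ LocMin δ K ∧ Q K ∧ (δ K).toReal = t}

/-- the conclusions for a density `δ` with set `D K` of densest packings of `K` -/
structure Concl (δ : Set V → ℝ≥0∞) (D : Set V → Set (Set (Bool × V))) : Prop where
  algebraic : ∀ N, IsAlgebraic ℚ (least δ N).toReal
  tendsto : Tendsto (least δ) atTop (𝓝 (mn δ))
  vertices : ∀ N : ℕ, (Val δ fun K => (K.extremePoints ℝ).encard ≤ N).Finite ∧
    ∀ t ∈ Val δ fun K => (K.extremePoints ℝ).encard ≤ N, IsAlgebraic ℚ t
  densest : ∀ m : ℕ, (Val δ fun K => (D K).encard ≤ m).Finite ∧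
    ∀ t ∈ Val δ fun K => (D K).encard ≤ m, IsAlgebraic ℚ t

/-- the approximation by polytopes -/
def S_DN : Prop := ∀ K : Set V, Body K → ∀ ε : ℝ, 0 < ε → ∃ (n : ℕ) (v : Fin n → V),
  K ⊆ hull v ∧ (interior (hull v)).Nonempty ∧
    (volume (hull v)).toReal ≤ (1 + ε) * (volume K).toReal

/-- a density predicate is almost monotone -/
def Mono (P : Set V → ℝ → Prop) : Prop := ∀ K K' : Set V, K ⊆ K' → ∀ c : ℝ, 0 < c →
  (volume K').toReal ≤ c * (volume K).toReal → ∀ r, P K' r → P K (r / c)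

theorem ov_mono {K K' : Set V} (h : K ⊆ K') {u : V} (hu : Ov K u) : Ov K' u := by
  obtain ⟨x, hx, hx'⟩ := hu
  exact ⟨x, interior_mono h hx, interior_mono h hx'⟩

theorem rv_mono {K K' : Set V} (h : K ⊆ K') {u : V} (hu : Rv K u) : Rv K' u := by
  obtain ⟨x, hx, hx'⟩ := hu
  exact ⟨x, interior_mono h hx, interior_mono h hx'⟩

theorem mono_PL : Mono PL := by
  rintro K K' hKK c hc hv r ⟨b, hb, hp, hr⟩
  refine ⟨b, hb, fun u hu h0 h1 => hp u hu h0 (ov_mono hKK h1), ?_⟩
  have : r * |dt b| < c * (volume K).toReal := hr.trans_le hv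
  rw [div_mul_eq_mul_div, div_lt_iff₀ hc]
  linarith

theorem mono_PS : Mono PS := by
  rintro K K' hKK c hc hv r ⟨v, b, hb, hp, hp', hr⟩
  refine ⟨v, b, hb, fun u hu h0 h1 => hp u hu h0 (ov_mono hKK h1),
    fun u hu h1 => hp' u hu (rv_mono hKK h1), ?_⟩
  have : r * |dt b| < 2 * (c * (volume K).toReal) := by linarith
  rw [div_mul_eq_mul_div, div_lt_iff₀ hc]
  linarith

variable {δ : Set V → ℝ≥0∞} {P : Set V → ℝ → Prop}

theorem least_anti : Antitone (least δ) := by
  intro N N' hNN
  refine le_iInf fun v => le_iInf fun hv => ?_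
  rcases Nat.eq_zero_or_pos N with h0 | h0
  · subst h0
    exfalso
    have h7 : Set.range v = ∅ := Set.range_eq_empty v
    unfold hull at hv
    rw [h7, convexHull_empty, interior_empty] at hv
    exact Set.not_nonempty_empty hv
  · let v' : Fin N' → V := fun i => if h : (i : ℕ) < N then v ⟨i, h⟩ else v ⟨0, h0⟩
    have hr : Set.range v' = Set.range v := by
      apply Set.Subset.antisymm
      · rintro _ ⟨i, rfl⟩
        by_cases h : (i : ℕ) < N
        · exact ⟨⟨i, h⟩, by simp [v', h]⟩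
        · exact ⟨⟨0, h0⟩, by simp [v', h]⟩
      · rintro _ ⟨i, rfl⟩
        exact ⟨⟨i, i.2.trans_le hNN⟩, by simp [v']⟩
    have hh : hull v' = hull v := by unfold hull; rw [hr]
    rw [← hh] at hv ⊢
    exact iInf_le_of_le v' (iInf_le _ hv)

theorem least_tendsto (h : Dens δ P) (hm : Mono P) (hD : S_DN) :
    Tendsto (least δ) atTop (𝓝 (mn δ)) := by
  have h1 : mn δ = ⨅ N, least δ N := by
    apply le_antisymm
    · refine le_iInf fun N => le_iInf fun v => le_iInf fun hv => ?_
      exact iInf_le_of_le (hull v) (iInf_le _ (hull_body hv))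
    · refine le_iInf fun K => le_iInf fun hK => ?_
      have key : ∀ ε : ℝ, 0 < ε →
          (⨅ N, least δ N) ≤ ENNReal.ofReal ((1 + ε) * (δ K).toReal) := by
        intro ε hε
        obtain ⟨n, v, hsub, hv, hvol⟩ := hD K hK ε hε
        have h2 : (⨅ N, least δ N) ≤ δ (hull v) :=
          iInf_le_of_le n (iInf_le_of_le v (iInf_le _ hv))
        refine h2.trans ?_
        have hfin := h.lt_top _ (hull_body hv)
        have h0 : 0 ≤ (1 + ε) * (δ K).toReal := by positivity
        rw [ENNReal.le_ofReal_iff_toReal_le hfin.ne h0]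
        by_contra hcon
        push Not at hcon
        have h3 := (real_iff h (hull_body hv) h0).2 hcon
        have h4 := hm K (hull v) hsub (1 + ε) (by positivity) hvol _ h3
        rw [mul_div_cancel_left₀ _ (by positivity)] at h4
        exact lt_irrefl _ ((real_iff h hK ENNReal.toReal_nonneg).1 h4)
      have hfin : (⨅ N, least δ N) ≠ ⊤ := ((key 1 one_pos).trans_lt ENNReal.ofReal_lt_top).ne
      rw [← ENNReal.ofReal_toReal hfin, ← ENNReal.ofReal_toReal (h.lt_top K hK).ne]
      apply ENNReal.ofReal_le_ofReal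
      refine le_of_forall_pos_le_add fun η hη => ?_
      have hd : 0 ≤ (δ K).toReal := ENNReal.toReal_nonneg
      have h5 := ENNReal.toReal_le_of_le_ofReal (by positivity)
        (key (η / ((δ K).toReal + 1)) (by positivity))
      refine h5.trans ?_
      have h6 : η / ((δ K).toReal + 1) * (δ K).toReal ≤ η := by
        rw [div_mul_eq_mul_div, div_le_iff₀ (by positivity)]
        nlinarith
      linarith
  rw [h1]
  exact tendsto_atTop_iInf least_anti

theorem cutMin_of_locMin {K : Set V} (h : LocMin δ K) : CutMin δ K := by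
  obtain ⟨ε, hε, hm⟩ := h
  refine ⟨ε, hε, fun K' hK' hsub hv => hm K' hK' ?_⟩
  rwa [Set.symmDiff_def, Set.sdiff_eq_empty.2 hsub, Set.empty_union]

theorem hull_of_encard {K : Set V} (hK : Body K) {N : ℕ} (hN : (K.extremePoints ℝ).encard ≤ N) :
    ∃ v : Fin (N + 4) → V, K = hull v := by
  have hf : (K.extremePoints ℝ).Finite := by
    rw [← Set.encard_lt_top_iff]
    exact hN.trans_lt (by simp)
  have hh := hull_of_finite hK hf
  have hne : (K.extremePoints ℝ).Nonempty := by
    by_contra hcon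
    rw [Set.not_nonempty_iff_eq_empty] at hcon
    rw [hcon, convexHull_empty] at hh
    obtain ⟨x, hx⟩ := hK.2.2
    rw [hh] at hx
    exact absurd (interior_subset hx) (Set.notMem_empty x)
  obtain ⟨e, he⟩ := hne
  obtain ⟨n, f, hinj, hr⟩ := hf.fin_param
  have hn : n ≤ N := by
    have h1 : (Set.range f).encard = n := by
      rw [← Set.image_univ, hinj.encard_image]
      simp
    rw [hr] at h1
    rw [h1] at hN
    exact_mod_cast hN
  let v : Fin (N + 4) → V := fun i => if h : (i : ℕ) < n then f ⟨i, h⟩ else e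
  refine ⟨v, ?_⟩
  have hrv : Set.range v = K.extremePoints ℝ := by
    rw [← hr]
    apply Set.Subset.antisymm
    · rintro _ ⟨i, rfl⟩
      by_cases h : (i : ℕ) < n
      · exact ⟨⟨i, h⟩, by simp [v, h]⟩
      · rw [hr]
        simpa [v, h] using he
    · rintro _ ⟨i, rfl⟩
      exact ⟨⟨i, by have := i.2; omega⟩, by simp [v]⟩
  rw [hull, hrv]
  exact hh

theorem vertices (h : Dens δ P) (hA : S_AL) (hN : S_NZ) (hL : S_LO) (hC : S_CN) (N : ℕ) :
    (Val δ fun K => (K.extremePoints ℝ).encard ≤ N).Finite ∧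
    ∀ t ∈ Val δ fun K => (K.extremePoints ℝ).encard ≤ N, IsAlgebraic ℚ t := by
  obtain ⟨T, hT, hc, hmem⟩ := alg2 h hN hL hC N
  have hsub : (Val δ fun K => (K.extremePoints ℝ).encard ≤ N) ⊆ T := by
    rintro t ⟨K, hK, hm, hcard, rfl⟩
    obtain ⟨v, hv⟩ := hull_of_encard hK hcard
    have hi : (interior (hull v)).Nonempty := by
      rw [← hv]
      exact hK.2.2
    rw [hv] at hm ⊢
    exact hmem v hi hm
  exact ⟨(count_fin hT hc).subset hsub, fun t ht => hA.1 T hT hc t (hsub ht)⟩

theorem concl (h : Dens δ P) (hA : S_AL) (hN : S_NZ) (hL : S_LO) (hC : S_CN) (hm : Mono P)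
    (hD : S_DN) {D : Set V → Set (Set (Bool × V))} {T : Set V → Set (Bool × V) → V → Prop}
    {n : ℕ} (hS : ∀ K, Body K → CutMin δ K → Struct K (D K) (T K) n) : Concl δ D := by
  refine ⟨alg1 h hA hN, least_tendsto h hm hD, vertices h hA hN hL hC, fun m => ?_⟩
  have hsub : (Val δ fun K => (D K).encard ≤ m) ⊆
      Val δ fun K => (K.extremePoints ℝ).encard ≤ ((n * m : ℕ) : ℕ∞) := by
    rintro t ⟨K, hK, hmin, hcard, rfl⟩
    refine ⟨K, hK, hmin, ?_, rfl⟩
    refine ((hS K hK (cutMin_of_locMin hmin)).card).trans ?_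
    push_cast
    exact mul_le_mul_right hcard _
  have h1 := vertices h hA hN hL hC (n * m)
  exact ⟨h1.1.subset hsub, fun t ht => h1.2 t (hsub ht)⟩

/-! ### the two densities -/

theorem dens_L (hG : S_DG) (hF : S_AF) (hP : S_PL) : Dens dL PL := by
  refine ⟨fun K hK r hr => (hG K hK r hr).1, fun K L p r => (hF K L p r).1, fun M => (hP M).1,
    fun K hK => ?_⟩
  rw [lt_top_iff_ne_top]
  intro htop
  have h1 : ENNReal.ofReal 1 < dL K := by
    rw [htop]
    exact ENNReal.ofReal_lt_top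
  obtain ⟨b, hb, hp, hr⟩ := ((hG K hK 1 zero_le_one).1).1 h1
  have h2 := vol_le_dt hK ((Pool.Agent.H349R2.Tet.dt_ne_zero_iff b).1 hb) hp
  linarith

theorem dens_Ls (hG : S_DG) (hF : S_AF) (hP : S_PL) : Dens dLs PS := by
  refine ⟨fun K hK r hr => (hG K hK r hr).2, fun K L p r => (hF K L p r).2, fun M => (hP M).2,
    fun K hK => ?_⟩
  rw [lt_top_iff_ne_top]
  intro htop
  have h1 : ENNReal.ofReal 2 < dLs K := by
    rw [htop]
    exact ENNReal.ofReal_lt_top
  obtain ⟨v, b, hb, hp, -, hr⟩ := ((hG K hK 2 zero_le_two).2).1 h1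
  have h2 := vol_le_dt hK ((Pool.Agent.H349R2.Tet.dt_ne_zero_iff b).1 hb) hp
  linarith

end Pool.Agent.K4H47.AL
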