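import Pool.Agent.K4H47.AL.Spec
import Pool.Agent.H349R2.Tet.Pack

/-!
# Normalisation of the vertices of a polytope
-/

set_option autoImplicit false

namespace Pool.Agent.K4H47.AL

open MeasureTheory
open scoped ENNReal
open Pool.Agent.H349R2.Tet (V lat dt Ov)
open Pool.Agent.H581R2
open Pool.Agent.TH219.DL
open Pool.Agent.K4H47.MM

namespace NZP

/-- the edges from the first of the four points -/
def ed {n : ℕ} (v : Fin n → V) (s : Fin 4 → Fin n) : Fin 3 → V := fun i => v (s i.succ) - v (s 0)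

theorem dt_update (u : Fin 3 → V) (j : Fin 3) (c : Fin 3 → ℝ) :
    dt (Function.update u j (∑ k, c k • u k)) = c j * dt u :=
  Matrix.det_updateRow_sum (Matrix.of u) j c

theorem exists_four {n : ℕ} (v : Fin n → V) (h : (interior (hull v)).Nonempty) :
    ∃ s : Fin 4 → Fin n, dt (ed v s) ≠ 0 := by
  have h1 : affineSpan ℝ (Set.range v) = ⊤ := by
    unfold hull at h
    exact interior_convexHull_nonempty_iff_affineSpan_eq_top.1 h
  obtain ⟨x, hx⟩ := h
  have hne : (Set.range v).Nonempty := by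
    rw [← convexHull_nonempty_iff (𝕜 := ℝ)]
    exact ⟨x, interior_subset hx⟩
  obtain ⟨_, i0, rfl⟩ := hne
  have h2 : vectorSpan ℝ (Set.range v) = ⊤ := by
    rw [← direction_affineSpan, h1, AffineSubspace.direction_top]
  rw [vectorSpan_range_eq_span_range_vsub_right ℝ v i0] at h2
  obtain ⟨κ, a, ha, hsp, hli⟩ := exists_linearIndependent' ℝ (fun i : Fin n => v i -ᵥ v i0)
  rw [h2] at hsp
  have : Finite κ := Finite.of_injective a ha
  have : Fintype κ := Fintype.ofFinite κ
  have hcard : Fintype.card κ = 3 := by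
    have b := Module.Basis.mk hli hsp.ge
    have h3 := Module.finrank_eq_card_basis b
    rw [← h3]
    simp
  let e : Fin 3 ≃ κ := (Fintype.equivFinOfCardEq hcard).symm
  refine ⟨Fin.cons i0 (fun i => a (e i)), ?_⟩
  rw [Pool.Agent.H349R2.Tet.dt_ne_zero_iff]
  have h4 := hli.comp e e.injective
  exact h4

theorem inj_of {n : ℕ} (v : Fin n → V) (s : Fin 4 → Fin n) (h : dt (ed v s) ≠ 0) :
    Function.Injective s := by
  have hli := (Pool.Agent.H349R2.Tet.dt_ne_zero_iff _).1 h
  have h0 : ∀ i : Fin 3, s 0 ≠ s i.succ := by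
    intro i hi
    apply hli.ne_zero i
    unfold ed
    rw [← hi, sub_self]
  intro a b hab
  rcases Fin.eq_zero_or_eq_succ a with rfl | ⟨i, rfl⟩ <;>
    rcases Fin.eq_zero_or_eq_succ b with rfl | ⟨j, rfl⟩
  · rfl
  · exact absurd hab (h0 j)
  · exact absurd hab.symm (h0 i)
  · have : ed v s i = ed v s j := by
      unfold ed
      rw [hab]
    rw [hli.injective this]

theorem exists_perm {n : ℕ} (t s : Fin 4 → Fin n) (ht : Function.Injective t)
    (hs : Function.Injective s) : ∃ σ : Equiv.Perm (Fin n), ∀ k, σ (t k) = s k := by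
  classical
  let e : {x // x ∈ Set.range t} ≃ {x // x ∈ Set.range s} :=
    (Equiv.ofInjective t ht).symm.trans (Equiv.ofInjective s hs)
  refine ⟨e.extendSubtype, fun k => ?_⟩
  rw [Equiv.extendSubtype_apply_of_mem e (t k) ⟨k, rfl⟩]
  have h1 : (Equiv.ofInjective t ht).symm ⟨t k, k, rfl⟩ = k := by
    rw [Equiv.symm_apply_eq]
    rfl
  show ((Equiv.ofInjective s hs) ((Equiv.ofInjective t ht).symm ⟨t k, k, rfl⟩) : Fin n) = s k
  rw [h1]
  rfl

theorem exists_map (u : Fin 3 → V) (h : dt u ≠ 0) :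
    ∃ L : V ≃ₗ[ℝ] V, (∀ i, L (u i) = Pi.single i 1) ∧ ∀ x j, L x j * dt u =
      dt (Function.update u j x) := by
  have hli := (Pool.Agent.H349R2.Tet.dt_ne_zero_iff _).1 h
  let B := basisOfLinearIndependentOfCardEqFinrank hli (by simp)
  have hB : ∀ i, B i = u i := fun i => by simp [B]
  refine ⟨B.equivFun, fun i => ?_, fun x j => ?_⟩
  · funext k
    rw [← hB i, B.equivFun_self]
    simp [Pi.single_apply, eq_comm]
  · have h1 : x = ∑ k, B.equivFun x k • u k := by
      conv_lhs => rw [← B.sum_equivFun x]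
      simp only [hB]
    conv_rhs => rw [h1]
    rw [dt_update]

end NZP

open NZP in
theorem nz : S_NZ := by
  intro M v hv
  obtain ⟨s0, hs0⟩ := exists_four v hv
  obtain ⟨s, hs⟩ := Finite.exists_max (fun s : Fin 4 → Fin (M + 4) => |dt (ed v s)|)
  have hD : dt (ed v s) ≠ 0 := by
    intro h
    have h1 := hs s0
    rw [h, abs_zero] at h1
    exact hs0 (abs_nonpos_iff.1 h1)
  obtain ⟨L, hL1, hL2⟩ := exists_map _ hD
  have hinj := inj_of v s hD
  obtain ⟨σ, hσ⟩ := exists_perm (fun k : Fin 4 => (⟨(k : ℕ), by omega⟩ : Fin (M + 4))) s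
    (fun a b hab => Fin.ext (by simpa using hab)) hinj
  have e0 : σ 0 = s 0 := hσ 0
  have e1 : σ 1 = s 1 := by
    have h1 := hσ 1
    have h2 : (1 : Fin (M + 4)) = ⟨((1 : Fin 4) : ℕ), by omega⟩ := by
      apply Fin.ext
      show 1 % (M + 4) = 1
      exact Nat.mod_eq_of_lt (by omega)
    rw [h2]
    exact h1
  have e2 : σ 2 = s 2 := by
    have h1 := hσ 2
    have h2 : (2 : Fin (M + 4)) = ⟨((2 : Fin 4) : ℕ), by omega⟩ := by
      apply Fin.ext
      show 2 % (M + 4) = 2
      exact Nat.mod_eq_of_lt (by omega)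
    rw [h2]
    exact h1
  have e3 : σ 3 = s 3 := by
    have h1 := hσ 3
    have h2 : (3 : Fin (M + 4)) = ⟨((3 : Fin 4) : ℕ), by omega⟩ := by
      apply Fin.ext
      show 3 % (M + 4) = 3
      exact Nat.mod_eq_of_lt (by omega)
    rw [h2]
    exact h1
  refine ⟨L, - L (v (s 0)), fun i => L (v (σ i) - v (s 0)), ⟨?_, ?_, ?_, ?_, ?_⟩, ?_⟩
  · show L (v (σ 0) - v (s 0)) = 0
    rw [e0, sub_self, map_zero]
  · show L (v (σ 1) - v (s 0)) = _
    rw [e1]; exact hL1 0
  · show L (v (σ 2) - v (s 0)) = _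
    rw [e2]; exact hL1 1
  · show L (v (σ 3) - v (s 0)) = _
    rw [e3]; exact hL1 2
  · intro i j
    have h1 := hL2 (v (σ i) - v (s 0)) j
    have h2 : dt (Function.update (ed v s) j (v (σ i) - v (s 0))) =
        dt (ed v (Function.update s j.succ (σ i))) := by
      congr 1
      funext k
      have h0 : Function.update s j.succ (σ i) 0 = s 0 :=
        Function.update_of_ne (Fin.succ_ne_zero j).symm _ _
      by_cases hk : k = j
      · subst hk
        simp [ed, h0]
      · have hk' : k.succ ≠ j.succ := fun h => hk (Fin.succ_injective _ h)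
        simp [ed, hk, h0]
    have h3 := hs (Function.update s j.succ (σ i))
    rw [h2] at h1
    have h4 : |L (v (σ i) - v (s 0)) j| * |dt (ed v s)| ≤ 1 * |dt (ed v s)| := by
      rw [← abs_mul, h1, one_mul]
      exact h3
    exact le_of_mul_le_mul_right h4 (abs_pos.2 hD)
  · let f : V →ᵃ[ℝ] V := L.toLinearMap.toAffineMap + AffineMap.const ℝ V (- L (v (s 0)))
    have hf : ∀ x, f x = L x + - L (v (s 0)) := fun x => by simp [f]
    have h1 : (fun x => L x + - L (v (s 0))) '' hull v = f '' hull v := by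
      apply Set.image_congr
      intro x _
      exact (hf x).symm
    rw [h1]
    unfold hull
    rw [AffineMap.image_convexHull]
    congr 1
    ext y
    constructor
    · rintro ⟨i, rfl⟩
      refine ⟨v (σ i), ⟨σ i, rfl⟩, ?_⟩
      rw [hf]
      show L (v (σ i)) + - L (v (s 0)) = L (v (σ i) - v (s 0))
      rw [map_sub, sub_eq_add_neg]
    · rintro ⟨_, ⟨i, rfl⟩, rfl⟩
      refine ⟨σ.symm i, ?_⟩
      rw [hf]
      show L (v (σ (σ.symm i)) - v (s 0)) = L (v i) + - L (v (s 0))
      rw [Equiv.apply_symm_apply, map_sub, sub_eq_add_neg]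

end Pool.Agent.K4H47.AL
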