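import Pool.Agent.K4H47.AL.Spec

/-!
# Overlaps are semialgebraic conditions
-/

set_option autoImplicit false

namespace Pool.Agent.K4H47.AL

open MeasureTheory
open scoped ENNReal
open Pool.Agent.H349R2.Tet (V lat dt Ov)
open Pool.Agent.H581R2
open Pool.Agent.TH219.DL
open Pool.Agent.K4H47.MM

namespace OVp

theorem all {α ι : Type} [Finite α] {p : α → (ι → ℝ) → Prop} (h : ∀ a, SAP (p a)) :
    SAP (fun v => ∀ a, p a v) := by
  classical
  have := Fintype.ofFinite α
  exact SAP.congr (SAP.forall_mem Finset.univ fun a _ => h a) (by simp)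

theorem mem_hull {n : ℕ} (v : Fin n → V) (x : V) :
    x ∈ hull v ↔ ∃ l : Fin n → ℝ,
      (∀ i, 0 ≤ l i) ∧ ∑ i, l i = 1 ∧ ∀ j, ∑ i, l i * v i j = x j := by
  classical
  have h1 : hull v = (Fintype.linearCombination ℝ v) '' stdSimplex ℝ (Fin n) := by
    rw [← convexHull_basis_eq_stdSimplex, LinearMap.image_convexHull, ← Set.range_comp]
    unfold hull
    congr 2
    funext i
    simp [Fintype.linearCombination_apply]
  rw [h1]
  constructor
  · rintro ⟨l, hl, rfl⟩
    exact ⟨l, hl.1, hl.2, fun j => by simp [Fintype.linearCombination_apply, Finset.sum_apply]⟩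
  · rintro ⟨l, h2, h3, h4⟩
    refine ⟨l, ⟨h2, h3⟩, ?_⟩
    funext j
    simp [Fintype.linearCombination_apply, ← h4 j]

theorem mem_int (A : Set V) (x : V) :
    x ∈ interior A ↔ ∃ e : Unit → ℝ,
      0 < e () ∧ ∀ y : Fin 3 → ℝ, (∀ j, |y j - x j| < e ()) → y ∈ A := by
  rw [mem_interior_iff_mem_nhds, Metric.mem_nhds_iff]
  constructor
  · rintro ⟨e, he, h⟩
    refine ⟨fun _ => e, he, fun y hy => h ?_⟩
    rw [Metric.mem_ball, dist_pi_lt_iff he]
    exact hy
  · rintro ⟨e, he, h⟩
    refine ⟨e (), he, fun y hy => h y ?_⟩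
    rw [Metric.mem_ball, dist_pi_lt_iff he] at hy
    exact hy

theorem sap_hull (n : ℕ) : SAP (fun z : (Fin n × Fin 3) ⊕ Fin 3 → ℝ =>
    (fun j => z (Sum.inr j)) ∈ hull (pts fun k => z (Sum.inl k))) := by
  have h : SAP (fun u : ((Fin n × Fin 3) ⊕ Fin 3) ⊕ Fin n → ℝ =>
      (∀ i : Fin n, 0 ≤ u (Sum.inr i)) ∧ ∑ i : Fin n, u (Sum.inr i) = 1 ∧
        ∀ j : Fin 3, ∑ i : Fin n, u (Sum.inr i) * u (Sum.inl (Sum.inl (i, j))) =
          u (Sum.inl (Sum.inr j))) :=
    (all fun i => SAP.le PF.zero (PF.coord _)).and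
      ((SAP.eq (PF.sum _ fun i _ => PF.coord _) PF.one).and
        (all fun j => SAP.eq (PF.sum _ fun i _ => (PF.coord _).mul (PF.coord _)) (PF.coord _)))
  refine (ex h).congr fun z => ?_
  rw [mem_hull]
  rfl

theorem sap_int (n : ℕ) : SAP (fun z : (Fin n × Fin 3) ⊕ Fin 3 → ℝ =>
    (fun j => z (Sum.inr j)) ∈ interior (hull (pts fun k => z (Sum.inl k)))) := by
  have h1 : SAP (fun u : (((Fin n × Fin 3) ⊕ Fin 3) ⊕ Unit) ⊕ Fin 3 → ℝ =>
      (∀ j : Fin 3, |u (Sum.inr j) - u (Sum.inl (Sum.inl (Sum.inr j)))| <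
        u (Sum.inl (Sum.inr ()))) →
        (fun j => u (Sum.inr j)) ∈ hull (pts fun k => u (Sum.inl (Sum.inl (Sum.inl k))))) := by
    refine SAP.imp ?_ ?_
    · refine all fun j => ?_
      exact SAP.congr ((SAP.lt (PF.coord _).neg ((PF.coord _).sub (PF.coord _))).and
        (SAP.lt ((PF.coord _).sub (PF.coord _)) (PF.coord _))) fun u => abs_lt
    · exact (sap_hull n).preimage
        (φ := fun u => Sum.elim (fun k => u (Sum.inl (Sum.inl (Sum.inl k))))
          (fun j => u (Sum.inr j))) (by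
            rintro (k | j)
            · exact PF.coord _
            · exact PF.coord _)
  have h2 : SAP (fun w : ((Fin n × Fin 3) ⊕ Fin 3) ⊕ Unit → ℝ => 0 < w (Sum.inr ()) ∧
      ∀ y : Fin 3 → ℝ, (∀ j : Fin 3, |y j - w (Sum.inl (Sum.inr j))| < w (Sum.inr ())) →
        y ∈ hull (pts fun k => w (Sum.inl (Sum.inl k)))) :=
    (SAP.pos (PF.coord _)).and (fa h1)
  refine (ex h2).congr fun z => ?_
  rw [mem_int]
  rfl

end OVp

open OVp

theorem ov : S_OV := by
  intro n
  constructor
  · have h1 : SAP (fun u : ((Fin n × Fin 3) ⊕ Fin 3) ⊕ Fin 3 → ℝ =>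
        (fun j => u (Sum.inr j)) ∈ interior (hull (pts fun k => u (Sum.inl (Sum.inl k)))) ∧
        (fun j => u (Sum.inr j) - u (Sum.inl (Sum.inr j))) ∈
          interior (hull (pts fun k => u (Sum.inl (Sum.inl k))))) := by
      refine SAP.and ?_ ?_
      · exact (sap_int n).preimage
          (φ := fun u => Sum.elim (fun k => u (Sum.inl (Sum.inl k))) (fun j => u (Sum.inr j))) (by
            rintro (k | j)
            · exact PF.coord _
            · exact PF.coord _)
      · exact (sap_int n).preimage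
          (φ := fun u => Sum.elim (fun k => u (Sum.inl (Sum.inl k)))
            (fun j => u (Sum.inr j) - u (Sum.inl (Sum.inr j)))) (by
            rintro (k | j)
            · exact PF.coord _
            · exact (PF.coord _).sub (PF.coord _))
    exact (ex h1).congr fun z => Iff.rfl
  · have h1 : SAP (fun u : ((Fin n × Fin 3) ⊕ Fin 3) ⊕ Fin 3 → ℝ =>
        (fun j => u (Sum.inr j)) ∈ interior (hull (pts fun k => u (Sum.inl (Sum.inl k)))) ∧
        (fun j => u (Sum.inl (Sum.inr j)) - u (Sum.inr j)) ∈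
          interior (hull (pts fun k => u (Sum.inl (Sum.inl k))))) := by
      refine SAP.and ?_ ?_
      · exact (sap_int n).preimage
          (φ := fun u => Sum.elim (fun k => u (Sum.inl (Sum.inl k))) (fun j => u (Sum.inr j))) (by
            rintro (k | j)
            · exact PF.coord _
            · exact PF.coord _)
      · exact (sap_int n).preimage
          (φ := fun u => Sum.elim (fun k => u (Sum.inl (Sum.inl k)))
            (fun j => u (Sum.inl (Sum.inr j)) - u (Sum.inr j))) (by
            rintro (k | j)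
            · exact PF.coord _
            · exact (PF.coord _).sub (PF.coord _))
    exact (ex h1).congr fun z => Iff.rfl

end Pool.Agent.K4H47.AL
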