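import Pool.Agent.K4H47.AL.Spec

/-!
# Piece PLs: the densities of normalised polytopes are semialgebraic functions (helper75)
-/

set_option autoImplicit false

namespace Pool.Agent.K4H47.AL

open MeasureTheory
open scoped ENNReal
open Pool.Agent.H349R2.Tet (V lat dt Ov)
open Pool.Agent.H581R2
open Pool.Agent.TH219.DL
open Pool.Agent.K4H47.MM

namespace PLx

variable {ι : Type}

theorem sap_all {α : Type} [Finite α] {p : α → (ι → ℝ) → Prop} (h : ∀ a, SAP (p a)) :
    SAP (fun v => ∀ a, p a v) := by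
  classical
  have := Fintype.ofFinite α
  exact SAP.congr (SAP.forall_mem Finset.univ fun a _ => h a) (by simp)

theorem sap_abs_le {f : (ι → ℝ) → ℝ} (hf : PF f) (c : ℕ) : SAP (fun u => |f u| ≤ (c : ℝ)) := by
  refine ((SAP.le (PF.constNat c).neg hf).and (SAP.le hf (PF.constNat c))).congr fun u => ?_
  exact abs_le

theorem pf_dt {b : (ι → ℝ) → Fin 3 → V} (hb : ∀ i j, PF (fun u => b u i j)) :
    PF (fun u => dt (b u)) := by
  have h : (fun u => dt (b u)) = fun u => b u 0 0 * b u 1 1 * b u 2 2 - b u 0 0 * b u 1 2 * b u 2 1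
      - b u 0 1 * b u 1 0 * b u 2 2 + b u 0 1 * b u 1 2 * b u 2 0 + b u 0 2 * b u 1 0 * b u 2 1
      - b u 0 2 * b u 1 1 * b u 2 0 := by
    funext u
    simp [dt, Matrix.det_fin_three]
  rw [h]
  exact ((((((((hb 0 0).mul (hb 1 1)).mul (hb 2 2)).sub (((hb 0 0).mul (hb 1 2)).mul (hb 2 1))).sub
    (((hb 0 1).mul (hb 1 0)).mul (hb 2 2))).add (((hb 0 1).mul (hb 1 2)).mul (hb 2 0))).add
    (((hb 0 2).mul (hb 1 0)).mul (hb 2 1))).sub (((hb 0 2).mul (hb 1 1)).mul (hb 2 0)))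

theorem sap_one_le {d : (ι → ℝ) → ℝ} (hd : PF d) (c : ℕ) : SAP (fun u => 1 ≤ (c : ℝ) * |d u|) := by
  have h1 := (SAP.le PF.zero hd).and (SAP.le PF.one ((PF.constNat c).mul hd))
  have h2 := (SAP.lt hd PF.zero).and (SAP.le PF.one ((PF.constNat c).mul hd.neg))
  refine (h1.or h2).congr fun u => ?_
  rcases le_or_gt 0 (d u) with h | h
  · rw [abs_of_nonneg h]
    constructor
    · intro h3
      exact Or.inl ⟨h, h3⟩
    · rintro (h3 | h3)
      · exact h3.2
      · exact absurd h3.1 (not_lt.2 h)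
  · rw [abs_of_neg h]
    constructor
    · intro h3
      exact Or.inr ⟨h, h3⟩
    · rintro (h3 | h3)
      · exact absurd h3.1 (not_le.2 h)
      · exact h3.2

theorem sap_mul_abs_lt {d r t : (ι → ℝ) → ℝ} (hd : PF d) (hr : PF r) (ht : PF t) :
    SAP (fun u => r u * |d u| < t u) := by
  have h1 := (SAP.le PF.zero hd).and (SAP.lt (hr.mul hd) ht)
  have h2 := (SAP.lt hd PF.zero).and (SAP.lt (hr.mul hd.neg) ht)
  refine (h1.or h2).congr fun u => ?_
  rcases le_or_gt 0 (d u) with h | h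
  · rw [abs_of_nonneg h]
    constructor
    · intro h3
      exact Or.inl ⟨h, h3⟩
    · rintro (h3 | h3)
      · exact h3.2
      · exact absurd h3.1 (not_lt.2 h)
  · rw [abs_of_neg h]
    constructor
    · intro h3
      exact Or.inr ⟨h, h3⟩
    · rintro (h3 | h3)
      · exact absurd h3.1 (not_le.2 h)
      · exact h3.2

theorem sap_ov (ho : S_OV) {m : ℕ} {W : (ι → ℝ) → Fin m → V} (hW : ∀ i j, PF (fun u => W u i j))
    {v : (ι → ℝ) → V} (hv : ∀ j, PF (fun u => v u j)) : SAP (fun u => Ov (hull (W u)) (v u)) := by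
  have h := (ho m).1.preimage (ι := ι)
    (φ := fun u => Sum.elim (fun k : Fin m × Fin 3 => W u k.1 k.2) (v u)) (by
      rintro (⟨i, j⟩ | j)
      · exact hW i j
      · exact hv j)
  exact h

theorem sap_rv (ho : S_OV) {m : ℕ} {W : (ι → ℝ) → Fin m → V} (hW : ∀ i j, PF (fun u => W u i j))
    {v : (ι → ℝ) → V} (hv : ∀ j, PF (fun u => v u j)) : SAP (fun u => Rv (hull (W u)) (v u)) := by
  have h := (ho m).2.preimage (ι := ι)
    (φ := fun u => Sum.elim (fun k : Fin m × Fin 3 => W u k.1 k.2) (v u)) (by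
      rintro (⟨i, j⟩ | j)
      · exact hW i j
      · exact hv j)
  exact h

theorem sap_vol (h5 : S_V5) {m : ℕ} {W : (ι → ℝ) → Fin m → V} (hW : ∀ i j, PF (fun u => W u i j))
    {d r : (ι → ℝ) → ℝ} (hd : PF d) (hr : PF r) (c : ℕ) :
    SAP (fun u => r u * |d u| < (c : ℝ) * (volume (hull (W u))).toReal) := by
  have h1 : SAP (fun y : ι ⊕ Unit → ℝ =>
      (volume (hull (W (fun k => y (Sum.inl k))))).toReal = y (Sum.inr ())) := by
    have h := (h5 m).preimage (ι := ι ⊕ Unit)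
      (φ := fun y => Sum.elim (fun k : Fin m × Fin 3 => W (fun k => y (Sum.inl k)) k.1 k.2)
        (fun _ => y (Sum.inr ()))) (by
        rintro (⟨i, j⟩ | _)
        · exact (hW i j).comp (fun k => PF.coord _)
        · exact PF.coord _)
    exact h
  have h2 : SAP (fun y : ι ⊕ Unit → ℝ => r (fun k => y (Sum.inl k)) * |d (fun k => y (Sum.inl k))| <
      (c : ℝ) * y (Sum.inr ())) :=
    sap_mul_abs_lt (hd.comp fun k => PF.coord _) (hr.comp fun k => PF.coord _)
      ((PF.constNat c).mul (PF.coord _))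
  refine (ex (h1.and h2)).congr fun u => ?_
  simp only [Sum.elim_inl, Sum.elim_inr]
  constructor
  · intro h
    exact ⟨fun _ => _, rfl, h⟩
  · rintro ⟨x, h3, h4⟩
    rw [← h3] at h4
    exact h4

theorem sap_box {p : (Fin 3 → ℤ) → (ι → ℝ) → Prop} (h : ∀ n, SAP (p n)) (C' : ℕ)
    (q : (Fin 3 → ℤ) → Prop) :
    SAP (fun u => ∀ n : Fin 3 → ℤ, q n → (∀ i, |n i| ≤ (C' : ℤ)) → p n u) := by
  classical
  refine (SAP.forall_mem ((Fintype.piFinset fun _ : Fin 3 => Finset.Icc (-(C' : ℤ)) C').filter q)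
    fun n _ => h n).congr fun u => ?_
  simp only [Finset.mem_filter, Fintype.mem_piFinset, Finset.mem_Icc, abs_le]
  constructor
  · intro h n hn
    exact h n hn.2 hn.1
  · intro h n h1 h2
    exact h n ⟨h2, h1⟩

theorem pf_comb {b : (ι → ℝ) → Fin 3 → V} (hb : ∀ i j, PF (fun u => b u i j)) (n : Fin 3 → ℤ)
    (j : Fin 3) : PF (fun u => (∑ i, (n i : ℝ) • b u i) j) := by
  have h : (fun u => (∑ i, (n i : ℝ) • b u i) j) = fun u => ∑ i, (((n i : ℚ) : ℝ)) * b u i j := by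
    funext u
    rw [Finset.sum_apply]
    simp
  rw [h]
  exact PF.sum _ fun i _ => (PF.const _).mul (hb i j)

theorem sap_pack (ho : S_OV) {m : ℕ} {W : (ι → ℝ) → Fin m → V} (hW : ∀ i j, PF (fun u => W u i j))
    {b : (ι → ℝ) → Fin 3 → V} (hb : ∀ i j, PF (fun u => b u i j)) (C C' : ℕ)
    {Q : (ι → ℝ) → Prop} (hQ : SAP Q) :
    SAP (fun u => (∀ i j, |b u i j| ≤ (C : ℝ)) ∧ 1 ≤ (C : ℝ) * |dt (b u)| ∧
      (∀ n : Fin 3 → ℤ, n ≠ 0 → (∀ i, |n i| ≤ (C' : ℤ)) →
        ¬ Ov (hull (W u)) (∑ i, (n i : ℝ) • b u i)) ∧ Q u) := by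
  refine (sap_all fun i => sap_all fun j => sap_abs_le (hb i j) C).and
    ((sap_one_le (pf_dt hb) C).and (SAP.and ?_ hQ))
  exact sap_box (fun n => (sap_ov ho hW (pf_comb hb n)).not) C' _

theorem sap_vec {W : (ι → ℝ) → V} (hW : ∀ j, PF (fun u => W u j)) {e : V} (he : ∀ j, ∃ q : ℚ, e j = q) :
    SAP (fun u => W u = e) := by
  have h : SAP (fun u => ∀ j, W u j = e j) := by
    refine sap_all fun j => ?_
    obtain ⟨q, hq⟩ := he j
    rw [hq]
    exact SAP.eq (hW j) (PF.const q)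
  exact h.congr fun u => funext_iff

theorem single_rat (i j : Fin 3) : ∃ q : ℚ, (Pi.single i (1 : ℝ) : V) j = q := by
  by_cases h : j = i
  · subst h
    exact ⟨1, by simp⟩
  · exact ⟨0, by simp [Pi.single_eq_of_ne h]⟩

theorem sap_nm {M : ℕ} {W : (ι → ℝ) → Fin (M + 4) → V} (hW : ∀ i j, PF (fun u => W u i j)) :
    SAP (fun u => Nm (W u)) := by
  unfold Nm
  refine (sap_vec (hW 0) fun j => ⟨0, by simp⟩).and ((sap_vec (hW 1) (single_rat 0)).and
    ((sap_vec (hW 2) (single_rat 1)).and ((sap_vec (hW 3) (single_rat 2)).and ?_)))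
  refine sap_all fun i => sap_all fun j => (sap_abs_le (hW i j) 1).congr fun u => ?_
  rw [Nat.cast_one]

end PLx

open PLx in
theorem pls (h5 : S_V5) (ho : S_OV) (hf : S_FL) (hg : S_FS) : S_PL := by
  intro M
  have hN : SAP (fun z : (Fin (M + 4) × Fin 3) ⊕ Unit → ℝ => Nm (pts fun k => z (Sum.inl k))) :=
    sap_nm (fun i j => PF.coord _)
  have hr0 : SAP (fun z : (Fin (M + 4) × Fin 3) ⊕ Unit → ℝ => 0 ≤ z (Sum.inr ())) :=
    SAP.le PF.zero (PF.coord _)
  constructor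
  · obtain ⟨C, C', h⟩ := hf M
    have hQ : SAP (fun u : ((Fin (M + 4) × Fin 3) ⊕ Unit) ⊕ (Fin 3 × Fin 3) → ℝ =>
        u (Sum.inl (Sum.inr ())) * |dt (pts fun k => u (Sum.inr k))| <
          (volume (hull (pts fun k => u (Sum.inl (Sum.inl k))))).toReal) := by
      refine (sap_vol h5 (W := fun u : ((Fin (M + 4) × Fin 3) ⊕ Unit) ⊕ (Fin 3 × Fin 3) → ℝ =>
        pts fun k => u (Sum.inl (Sum.inl k))) (fun i j => PF.coord _)
        (pf_dt (b := fun u => pts fun k => u (Sum.inr k)) fun i j => PF.coord _)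
        (PF.coord (Sum.inl (Sum.inr ()))) 1).congr fun u => ?_
      rw [Nat.cast_one, one_mul]
    have h2 := ex (sap_pack ho (W := fun u : ((Fin (M + 4) × Fin 3) ⊕ Unit) ⊕ (Fin 3 × Fin 3) → ℝ =>
        pts fun k => u (Sum.inl (Sum.inl k))) (fun i j => PF.coord _)
        (b := fun u => pts fun k => u (Sum.inr k)) (fun i j => PF.coord _) C C' hQ)
    refine (hN.and (hr0.and h2)).congr fun z => ?_
    refine and_congr_right fun hN => and_congr_right fun hr => (h _ hN _ hr).trans ?_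
    constructor
    · rintro ⟨b, hb⟩
      exact ⟨fun k => b k.1 k.2, hb⟩
    · rintro ⟨x, hx⟩
      exact ⟨pts x, hx⟩
  · obtain ⟨C, C', h⟩ := hg M
    have hQ : SAP (fun u : ((Fin (M + 4) × Fin 3) ⊕ Unit) ⊕ (Fin 3 ⊕ (Fin 3 × Fin 3)) → ℝ =>
        (∀ n : Fin 3 → ℤ, (∀ i, |n i| ≤ (C' : ℤ)) → ¬ Rv (hull (pts fun k => u (Sum.inl (Sum.inl k))))
          ((fun j => u (Sum.inr (Sum.inl j))) + ∑ i, (n i : ℝ) • (pts fun k => u (Sum.inr (Sum.inr k))) i)) ∧
        u (Sum.inl (Sum.inr ())) * |dt (pts fun k => u (Sum.inr (Sum.inr k)))| <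
          2 * (volume (hull (pts fun k => u (Sum.inl (Sum.inl k))))).toReal) := by
      refine SAP.and ?_ ?_
      · refine (sap_box (p := fun n u => ¬ Rv (hull (pts fun k => u (Sum.inl (Sum.inl k))))
          ((fun j => u (Sum.inr (Sum.inl j))) + ∑ i, (n i : ℝ) • (pts fun k => u (Sum.inr (Sum.inr k))) i))
          (fun n => ?_) C' (fun _ => True)).congr fun u => ?_
        · refine (sap_rv ho (W := fun u : ((Fin (M + 4) × Fin 3) ⊕ Unit) ⊕ (Fin 3 ⊕ (Fin 3 × Fin 3)) → ℝ =>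
            pts fun k => u (Sum.inl (Sum.inl k))) (fun i j => PF.coord _)
            (v := fun u => (fun j => u (Sum.inr (Sum.inl j))) +
              ∑ i, (n i : ℝ) • (pts fun k => u (Sum.inr (Sum.inr k))) i) fun j => ?_).not
          exact (PF.coord (Sum.inr (Sum.inl j))).add
            (pf_comb (b := fun u => pts fun k => u (Sum.inr (Sum.inr k))) (fun i j => PF.coord _) n j)
        · constructor
          · intro h n _ hn
            exact h n hn
          · intro h n hn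
            exact h n trivial hn
      · refine (sap_vol h5 (W := fun u : ((Fin (M + 4) × Fin 3) ⊕ Unit) ⊕ (Fin 3 ⊕ (Fin 3 × Fin 3)) → ℝ =>
          pts fun k => u (Sum.inl (Sum.inl k))) (fun i j => PF.coord _)
          (pf_dt (b := fun u => pts fun k => u (Sum.inr (Sum.inr k))) fun i j => PF.coord _)
          (PF.coord (Sum.inl (Sum.inr ()))) 2).congr fun u => ?_
        rw [Nat.cast_ofNat]
    have h1 := sap_pack ho (W := fun u : ((Fin (M + 4) × Fin 3) ⊕ Unit) ⊕ (Fin 3 ⊕ (Fin 3 × Fin 3)) → ℝ =>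
        pts fun k => u (Sum.inl (Sum.inl k))) (fun i j => PF.coord _)
        (b := fun u => pts fun k => u (Sum.inr (Sum.inr k))) (fun i j => PF.coord _) C C' hQ
    have h0 : SAP (fun u : ((Fin (M + 4) × Fin 3) ⊕ Unit) ⊕ (Fin 3 ⊕ (Fin 3 × Fin 3)) → ℝ =>
        ∀ j : Fin 3, |u (Sum.inr (Sum.inl j))| ≤ (C : ℝ)) :=
      sap_all fun j => sap_abs_le (PF.coord _) C
    have h2 := ex (h0.and h1)
    refine (hN.and (hr0.and h2)).congr fun z => ?_
    refine and_congr_right fun hN => and_congr_right fun hr => (h _ hN _ hr).trans ?_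
    constructor
    · rintro ⟨v, b, hb⟩
      exact ⟨Sum.elim v (fun k => b k.1 k.2), hb⟩
    · rintro ⟨x, hx⟩
      exact ⟨fun j => x (Sum.inl j), pts fun k => x (Sum.inr k), hx⟩

end Pool.Agent.K4H47.AL
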