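import Pool.Agent.K4H47.AL.Spec

/-!
# Lattices with bounded determinant and without short vectors have bounded bases
-/

set_option autoImplicit false

namespace Pool.Agent.K4H47.AL

open MeasureTheory Filter Topology
open scoped ENNReal
open Pool.Agent.H349R2.Tet (V lat dt Ov)
open Pool.Agent.K4H47.MM

theorem rb : S_RB := by
  intro r D hr
  by_contra hcon
  push Not at hcon
  -- hcon : ∀ C, ∃ b, dt b ≠ 0 ∧ ... ∧ ∀ c, ...
  choose β h0 h1 h2 h3 using hcon
  have hβ : ∀ n, LinearIndependent ℝ (β n) := fun n =>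
    (Pool.Agent.H349R2.Tet.dt_ne_zero_iff _).1 (h0 n)
  obtain ⟨b, c, hb, hc, hlat, -⟩ := select (U := Filter.hyperfilter ℕ) hr hβ h1 h2
  have hdt : Tendsto (fun n => dt (c n)) (Filter.hyperfilter ℕ : Filter ℕ) (𝓝 (dt b)) := by
    have : Continuous (fun b : Fin 3 → V => dt b) := by
      unfold Pool.Agent.H349R2.Tet.dt
      exact Continuous.matrix_det (by exact continuous_id)
    exact (this.tendsto b).comp hc
  have hdt0 : dt b ≠ 0 := (Pool.Agent.H349R2.Tet.dt_ne_zero_iff b).2 hb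
  have hpos : 0 < |dt b| := abs_pos.2 hdt0
  have e1 : ∀ᶠ n in (Filter.hyperfilter ℕ : Filter ℕ), |dt b| / 2 < |dt (c n)| :=
    hdt.abs.eventually_const_lt (by linarith)
  have e2 : ∀ᶠ n in (Filter.hyperfilter ℕ : Filter ℕ), ‖c n‖ < ‖b‖ + 1 :=
    hc.norm.eventually_lt_const (by linarith)
  obtain ⟨N, hN⟩ := exists_nat_ge (max (‖b‖ + 1) (2 / |dt b|))
  have e3 : ∀ᶠ n in (Filter.hyperfilter ℕ : Filter ℕ), N ≤ n := by
    have : ∀ᶠ n in (atTop : Filter ℕ), N ≤ n := eventually_ge_atTop N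
    exact Nat.hyperfilter_le_atTop this
  obtain ⟨n, hn1, hn2, hn3, hn4⟩ := (e1.and (e2.and (e3.and hlat))).exists
  have hcn : dt (c n) ≠ 0 := by
    intro h
    rw [h, abs_zero] at hn1
    linarith
  have hNn : (N : ℝ) ≤ n := by exact_mod_cast hn3
  have h4 : ∀ i, ‖c n i‖ ≤ (n : ℝ) := fun i => by
    have h5 := norm_le_pi_norm (c n) i
    have h6 := (le_max_left (‖b‖ + 1) (2 / |dt b|)).trans hN
    linarith
  have h7 := h3 n (c n) hcn hn4 (dt_eq_of_lat ((Pool.Agent.H349R2.Tet.dt_ne_zero_iff _).1 hcn) (hβ n) hn4) h4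
  have h8 := (le_max_right (‖b‖ + 1) (2 / |dt b|)).trans (hN.trans hNn)
  have h9 : 1 ≤ (n : ℝ) * |dt (c n)| := by
    have h10 : 2 ≤ (n : ℝ) * |dt b| := by
      rwa [div_le_iff₀ hpos] at h8
    have h11 : 0 ≤ (n : ℝ) := Nat.cast_nonneg n
    nlinarith
  linarith

end Pool.Agent.K4H47.AL
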