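import Pool.Agent.K4H47.AL.Spec
import Pool.Agent.H349R2.Tet.Vol

/-!
# The volume of a tetrahedron
-/

set_option autoImplicit false

namespace Pool.Agent.K4H47.AL

open MeasureTheory
open scoped ENNReal
open Pool.Agent.H349R2.Tet (V lat dt Ov)

/-- the standard simplex -/
def v2S : Set V := {y : V | 0 ≤ y 0 ∧ 0 ≤ y 1 ∧ 0 ≤ y 2 ∧ y 0 + y 1 + y 2 ≤ 1}

theorem v2S_convex : Convex ℝ v2S := by
  rintro x ⟨h0, h1, h2, h3⟩ y ⟨g0, g1, g2, g3⟩ s t hs ht hst
  have e : ∀ i, (s • x + t • y) i = s * x i + t * y i := fun i => by simp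
  refine ⟨?_, ?_, ?_, ?_⟩
  · rw [e]; positivity
  · rw [e]; positivity
  · rw [e]; positivity
  · rw [e, e, e]
    nlinarith [mul_le_mul_of_nonneg_left h3 hs, mul_le_mul_of_nonneg_left g3 ht]

/-- the linear map with the values `a i.succ - a 0` at the unit vectors -/
noncomputable def v2L (a : Fin 4 → V) : V →ₗ[ℝ] V :=
  Matrix.toLin' (Matrix.of fun i => a i.succ - a 0).transpose

theorem v2L_apply (a : Fin 4 → V) (y : V) : v2L a y = ∑ i : Fin 3, y i • (a i.succ - a 0) := by
  unfold v2L
  rw [Matrix.toLin'_apply]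
  ext j
  simp only [Matrix.mulVec, dotProduct, Matrix.transpose_apply, Matrix.of_apply, Finset.sum_apply,
    Pi.smul_apply, smul_eq_mul]
  exact Finset.sum_congr rfl fun i _ => mul_comm _ _

theorem v2_hull (a : Fin 4 → V) : hull a = (fun x => x + a 0) '' (v2L a '' v2S) := by
  apply Set.Subset.antisymm
  · refine convexHull_min ?_ ?_
    · rintro _ ⟨i, rfl⟩
      refine ⟨a i - a 0, ?_, by simp⟩
      refine Fin.cases ?_ (fun j => ?_) i
      · exact ⟨0, by simp [v2S], by simp⟩
      · refine ⟨Pi.single j 1, ?_, ?_⟩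
        · fin_cases j <;> simp [v2S]
        · rw [v2L_apply]
          simp [Pi.single_apply]
    · have h1 : Convex ℝ (v2L a '' v2S) := v2S_convex.linear_image _
      have h2 := h1.translate (a 0)
      convert h2 using 2
      funext x
      exact add_comm _ _
  · rintro _ ⟨_, ⟨y, ⟨h0, h1, h2, h3⟩, rfl⟩, rfl⟩
    have hm : ∀ i, a i ∈ hull a := fun i => subset_convexHull ℝ _ ⟨i, rfl⟩
    have hc : Convex ℝ (hull a) := convex_convexHull ℝ _
    have h4 := hc.sum_mem (t := Finset.univ) (w := ![1 - y 0 - y 1 - y 2, y 0, y 1, y 2])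
      (z := a) (by
        intro i _
        fin_cases i
        · simp; linarith
        · simpa using h0
        · simpa using h1
        · simpa using h2) (by simp [Fin.sum_univ_four]; ring) (fun i _ => hm i)
    convert h4 using 1
    rw [v2L_apply]
    simp only [Fin.sum_univ_three, Fin.sum_univ_four, Matrix.cons_val_zero, Matrix.cons_val_one,
      Matrix.cons_val]
    have e1 : (0 : Fin 3).succ = (1 : Fin 4) := rfl
    have e2 : (1 : Fin 3).succ = (2 : Fin 4) := rfl
    have e3 : (2 : Fin 3).succ = (3 : Fin 4) := rfl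
    rw [e1, e2, e3]
    module

/-- the volume of a tetrahedron -/
theorem v2 : S_V2 := by
  intro a
  have h1 : LinearMap.det (v2L a) = dt (fun i => a i.succ - a 0) := by
    unfold v2L dt
    rw [LinearMap.det_toLin', Matrix.det_transpose]
  have h2 : volume v2S = ENNReal.ofReal (1 / 6) := by
    have h3 := Pool.Agent.H349R2.Tet.vol_le 1 (by norm_num)
    rw [show ((1 : ℝ) ^ 3 / 6) = 1 / 6 by norm_num] at h3
    exact h3
  rw [v2_hull, Set.image_add_right, measure_preimage_add_right, Measure.addHaar_image_linearMap, h1,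
    h2, ENNReal.toReal_mul, ENNReal.toReal_ofReal (abs_nonneg _), ENNReal.toReal_ofReal (by norm_num)]
  ring

end Pool.Agent.K4H47.AL
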