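import Pool.Agent.K4H47.AL.Spec

/-!
# The volume of the part of a tetrahedron in a half space (helper91)
-/

set_option autoImplicit false

namespace Pool.Agent.K4H47.AL

open MeasureTheory
open scoped ENNReal
open Pool.Agent.H349R2.Tet (V lat dt Ov)
open Pool.Agent.H581R2
open Pool.Agent.TH219.DL
open Pool.Agent.K4H47.MM

namespace V3x

theorem af_comb (c : Fin 4 → ℝ) (x y : V) (s t : ℝ) (h : s + t = 1) :
    af c (s • x + t • y) = s * af c x + t * af c y := by
  unfold af
  simp only [Pi.add_apply, Pi.smul_apply, smul_eq_mul]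
  have : t = 1 - s := by linarith
  subst this
  ring

theorem convex_nonneg (c : Fin 4 → ℝ) : Convex ℝ {x : V | 0 ≤ af c x} := by
  intro x hx y hy s t hs ht h
  simp only [Set.mem_ofPred_eq] at hx hy ⊢
  rw [af_comb c x y s t h]
  positivity

theorem convex_nonpos (c : Fin 4 → ℝ) : Convex ℝ {x : V | af c x ≤ 0} := by
  intro x hx y hy s t hs ht h
  simp only [Set.mem_ofPred_eq] at hx hy ⊢
  rw [af_comb c x y s t h]
  nlinarith [mul_nonneg hs (neg_nonneg.2 hx), mul_nonneg ht (neg_nonneg.2 hy)]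

theorem null_plane (c : Fin 4 → ℝ) (y : V) (hy : af c y ≠ 0) : volume {x : V | af c x = 0} = 0 := by
  let s : AffineSubspace ℝ V :=
    { carrier := {x : V | af c x = 0}
      smul_vsub_vadd_mem' := by
        intro r p₁ p₂ p₃ h1 h2 h3
        simp only [Set.mem_ofPred_eq] at h1 h2 h3 ⊢
        simp only [af, vsub_eq_sub, vadd_eq_add, Pi.add_apply, Pi.smul_apply, Pi.sub_apply,
          smul_eq_mul] at h1 h2 h3 ⊢
        linear_combination r * h1 - r * h2 + h3 }
  have hs : s ≠ ⊤ := by
    intro h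
    apply hy
    have : y ∈ s := by rw [h]; exact AffineSubspace.mem_top ℝ V y
    exact this
  exact Measure.addHaar_affineSubspace volume s hs

theorem hull_sub_nonneg {n : ℕ} (c : Fin 4 → ℝ) (a : Fin n → V) (h : ∀ i, 0 ≤ af c (a i)) :
    hull a ⊆ {x : V | 0 ≤ af c x} := by
  apply convexHull_min _ (convex_nonneg c)
  rintro _ ⟨i, rfl⟩
  exact h i

theorem hull_sub_nonpos {n : ℕ} (c : Fin 4 → ℝ) (a : Fin n → V) (h : ∀ i, af c (a i) ≤ 0) :
    hull a ⊆ {x : V | af c x ≤ 0} := by
  apply convexHull_min _ (convex_nonpos c)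
  rintro _ ⟨i, rfl⟩
  exact h i

theorem vol_hull_ne_top {n : ℕ} (a : Fin n → V) (R : Set V) : volume (hull a ∩ R) ≠ ∞ := by
  have h1 : IsCompact (hull a) := (Set.finite_range a).isCompact_convexHull ℝ
  exact ne_top_of_le_ne_top h1.measure_lt_top.ne (measure_mono Set.inter_subset_left)

/-- the volume of the part of the tetrahedron -/
noncomputable def F (c : Fin 4 → ℝ) (Rw : Set V) (a : Fin 4 → V) : ℝ :=
  (volume (hull a ∩ (Rw ∩ {x | 0 ≤ af c x}))).toReal

theorem F_nonneg (c : Fin 4 → ℝ) (Rw : Set V) (a : Fin 4 → V) (h : ∀ i, 0 ≤ af c (a i)) :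
    F c Rw a = (volume (hull a ∩ Rw)).toReal := by
  unfold F
  congr 2
  ext x
  constructor
  · rintro ⟨h1, h2, _⟩
    exact ⟨h1, h2⟩
  · rintro ⟨h1, h2⟩
    exact ⟨h1, h2, hull_sub_nonneg c a h h1⟩

theorem F_nonpos (c : Fin 4 → ℝ) (Rw : Set V) (a : Fin 4 → V) (h : ∀ i, af c (a i) ≤ 0)
    (h' : ∃ i, af c (a i) < 0) : F c Rw a = 0 := by
  obtain ⟨i, hi⟩ := h'
  unfold F
  have h0 : volume (hull a ∩ (Rw ∩ {x | 0 ≤ af c x})) = 0 := by
    apply measure_mono_null _ (null_plane c (a i) hi.ne)
    rintro x ⟨h1, _, h3⟩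
    exact le_antisymm (hull_sub_nonpos c a h h1) h3
  rw [h0, ENNReal.toReal_zero]

theorem F_split (h1 : S_V1) (c : Fin 4 → ℝ) (Rw : Set V) (a : Fin 4 → V) (i j : Fin 4)
    (hi : 0 < af c (a i)) (hj : af c (a j) < 0) (e : V)
    (he : ∀ l, (af c (a i) - af c (a j)) * e l = af c (a i) * a j l - af c (a j) * a i l) :
    F c Rw a = F c Rw (Function.update a i e) + F c Rw (Function.update a j e) := by
  have hij : i ≠ j := by
    rintro rfl
    linarith
  set p := af c (a i) with hp
  set q := af c (a j) with hq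
  have hd : 0 < p - q := by linarith
  have h2 := h1 a i j e (p / (p - q)) (Rw ∩ {x | 0 ≤ af c x}) hij (by positivity)
    (by rw [div_le_one hd]; linarith) (by
      funext l
      simp only [Pi.add_apply, Pi.smul_apply, smul_eq_mul]
      have := he l
      field_simp
      linarith)
  unfold F
  rw [h2, ENNReal.toReal_add (vol_hull_ne_top _ _) (vol_hull_ne_top _ _)]

theorem af_e (c : Fin 4 → ℝ) (x y e : V) (hi : 0 < af c x) (hj : af c y < 0)
    (he : ∀ l, (af c x - af c y) * e l = af c x * y l - af c y * x l) : af c e = 0 := by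
  have hd : af c x - af c y ≠ 0 := by
    have : 0 < af c x - af c y := by linarith
    exact this.ne'
  have h0 := he 0
  have h1 := he 1
  have h2 := he 2
  apply mul_left_cancel₀ hd
  rw [mul_zero]
  have h3 : (af c x - af c y) * af c e = (af c x - af c y) * c 0 + c 1 * ((af c x - af c y) * e 0) +
      c 2 * ((af c x - af c y) * e 1) + c 3 * ((af c x - af c y) * e 2) := by
    unfold af; ring
  rw [h3, h0, h1, h2]
  unfold af
  ring

theorem core (h1 : S_V1) (S : Finset (Fin 4)) (a : Fin 4 → V) (c : Fin 4 → ℝ) (Rw : Set V) (t : ℝ) :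
    ((∀ i ∈ Sᶜ, af c (a i) = 0) ∧ F c Rw a = t) ↔
      (∀ i ∈ Sᶜ, af c (a i) = 0) ∧
      (((∀ i ∈ (Finset.univ : Finset (Fin 4)), 0 ≤ af c (a i)) ∧ (volume (hull a ∩ Rw)).toReal = t) ∨
        (((∀ i ∈ (Finset.univ : Finset (Fin 4)), af c (a i) ≤ 0) ∧
          ∃ i ∈ (Finset.univ : Finset (Fin 4)), af c (a i) < 0) ∧ 0 = t) ∨
        ∃ i ∈ S, ∃ j ∈ S, (0 < af c (a i) ∧ af c (a j) < 0) ∧ ∃ x : Fin 3 ⊕ Bool → ℝ,
          (∀ l ∈ (Finset.univ : Finset (Fin 3)), (af c (a i) - af c (a j)) * x (Sum.inl l) =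
            af c (a i) * a j l - af c (a j) * a i l) ∧
          (((∀ k ∈ (S.erase i)ᶜ, af c (Function.update a i (fun l => x (Sum.inl l)) k) = 0) ∧
            F c Rw (Function.update a i (fun l => x (Sum.inl l))) = x (Sum.inr false)) ∧
          ((∀ k ∈ (S.erase j)ᶜ, af c (Function.update a j (fun l => x (Sum.inl l)) k) = 0) ∧
            F c Rw (Function.update a j (fun l => x (Sum.inl l))) = x (Sum.inr true))) ∧
          x (Sum.inr false) + x (Sum.inr true) = t) := by
  constructor
  · rintro ⟨hS, ht⟩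
    refine ⟨hS, ?_⟩
    by_cases hpos : ∀ i, 0 ≤ af c (a i)
    · left
      exact ⟨fun i _ => hpos i, by rw [← F_nonneg c Rw a hpos, ht]⟩
    · push Not at hpos
      obtain ⟨j, hj⟩ := hpos
      by_cases hneg : ∀ i, af c (a i) ≤ 0
      · right; left
        refine ⟨⟨fun i _ => hneg i, j, Finset.mem_univ _, hj⟩, ?_⟩
        rw [← ht, F_nonpos c Rw a hneg ⟨j, hj⟩]
      · push Not at hneg
        obtain ⟨i, hi⟩ := hneg
        right; right
        have hiS : i ∈ S := by
          by_contra h
          exact hi.ne' (hS i (Finset.mem_compl.2 h))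
        have hjS : j ∈ S := by
          by_contra h
          exact hj.ne (hS j (Finset.mem_compl.2 h))
        have hd : af c (a i) - af c (a j) ≠ 0 := by
          have : 0 < af c (a i) - af c (a j) := by linarith
          exact this.ne'
        set e : V := fun l => (af c (a i) * a j l - af c (a j) * a i l) / (af c (a i) - af c (a j)) with he
        have hel : ∀ l, (af c (a i) - af c (a j)) * e l = af c (a i) * a j l - af c (a j) * a i l := by
          intro l
          rw [he]
          field_simp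
        have hae := af_e c (a i) (a j) e hi hj hel
        refine ⟨i, hiS, j, hjS, ⟨hi, hj⟩, Sum.elim e (fun b => if b = false then
          F c Rw (Function.update a i e) else F c Rw (Function.update a j e)), ?_, ⟨⟨?_, ?_⟩, ?_, ?_⟩, ?_⟩
        · intro l _
          exact hel l
        · intro k hk
          simp only [Sum.elim_inl]
          by_cases hki : k = i
          · subst hki
            rw [Function.update_self]
            exact hae
          · rw [Function.update_of_ne hki]
            apply hS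
            rw [Finset.mem_compl] at hk ⊢
            exact fun h => hk (Finset.mem_erase.2 ⟨hki, h⟩)
        · simp
        · intro k hk
          simp only [Sum.elim_inl]
          by_cases hki : k = j
          · subst hki
            rw [Function.update_self]
            exact hae
          · rw [Function.update_of_ne hki]
            apply hS
            rw [Finset.mem_compl] at hk ⊢
            exact fun h => hk (Finset.mem_erase.2 ⟨hki, h⟩)
        · simp
        · simp only [Sum.elim_inr, if_true, Bool.true_eq_false, if_false]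
          rw [← ht, F_split h1 c Rw a i j hi hj e hel]
  · rintro ⟨hS, h⟩
    refine ⟨hS, ?_⟩
    rcases h with ⟨hpos, ht⟩ | ⟨⟨hneg, i, _, hi⟩, ht⟩ | ⟨i, hiS, j, hjS, ⟨hi, hj⟩, x, hx, ⟨⟨_, h2⟩, _, h3⟩, ht⟩
    · rw [F_nonneg c Rw a (fun i => hpos i (Finset.mem_univ _)), ht]
    · rw [F_nonpos c Rw a (fun i => hneg i (Finset.mem_univ _)) ⟨i, hi⟩, ht]
    · rw [F_split h1 c Rw a i j hi hj (fun l => x (Sum.inl l)) (fun l => hx l (Finset.mem_univ _)),
        h2, h3, ht]

variable {κ : Type}

/-- the variables -/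
abbrev Vr (κ : Type) : Type := ((Fin 4 × Fin 3) ⊕ (κ ⊕ Fin 4)) ⊕ Unit

/-- the tetrahedron -/
def aa (z : Vr κ → ℝ) : Fin 4 → V := pts fun k => z (Sum.inl (Sum.inl k))

/-- the parameter of the region -/
def ww (z : Vr κ → ℝ) : κ → ℝ := fun k => z (Sum.inl (Sum.inr (Sum.inl k)))

/-- the affine form -/
def cc (z : Vr κ → ℝ) : Fin 4 → ℝ := fun k => z (Sum.inl (Sum.inr (Sum.inr k)))

/-- the condition for the induction -/
def P (R : (κ → ℝ) → Set V) (S : Finset (Fin 4)) (z : Vr κ → ℝ) : Prop :=
  (∀ i ∈ Sᶜ, af (cc z) (aa z i) = 0) ∧ F (cc z) (R (ww z)) (aa z) = z (Sum.inr ())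

theorem pf_af {ι : Type} (f : (ι → ℝ) → (Fin 4 → ℝ)) (g : (ι → ℝ) → V)
    (hf : ∀ k, PF fun z => f z k) (hg : ∀ k, PF fun z => g z k) : PF fun z => af (f z) (g z) := by
  unfold af
  exact (((hf 0).add ((hf 1).mul (hg 0))).add ((hf 2).mul (hg 1))).add ((hf 3).mul (hg 2))

/-- the substitution for the smaller tetrahedron -/
def sub (i : Fin 4) (b : Bool) (y : Vr κ ⊕ (Fin 3 ⊕ Bool) → ℝ) : Vr κ → ℝ
  | Sum.inl (Sum.inl (k, l)) => if k = i then y (Sum.inr (Sum.inl l)) else y (Sum.inl (Sum.inl (Sum.inl (k, l))))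
  | Sum.inl (Sum.inr m) => y (Sum.inl (Sum.inl (Sum.inr m)))
  | Sum.inr _ => y (Sum.inr (Sum.inr b))

theorem sub_pf (i : Fin 4) (b : Bool) (k : Vr κ) : PF fun y => sub i b y k := by
  rcases k with (⟨k, l⟩ | m) | u
  · simp only [sub]
    split_ifs
    · exact PF.coord _
    · exact PF.coord _
  · exact PF.coord _
  · exact PF.coord _

theorem sap_P [Finite κ] (h1 : S_V1) (R : (κ → ℝ) → Set V) (hR : Good κ R) :
    ∀ S : Finset (Fin 4), SAP (P R S) := by
  intro S
  induction S using Finset.strongInduction with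
  | H S ih =>
    have haf : ∀ i : Fin 4, PF fun z : Vr κ → ℝ => af (cc z) (aa z i) := fun i =>
      pf_af _ _ (fun k => PF.coord _) (fun k => PF.coord _)
    have hcong : ∀ z : Vr κ → ℝ, P R S z ↔ _ := fun z =>
      core h1 S (aa z) (cc z) (R (ww z)) (z (Sum.inr ()))
    refine SAP.congr ?_ hcong
    refine SAP.and (SAP.forall_mem _ fun i _ => SAP.eq_zero (haf i)) ?_
    refine SAP.or (SAP.and (SAP.forall_mem _ fun i _ => SAP.le PF.zero (haf i)) ?_) ?_
    · -- the volume without the half space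
      exact SAP.preimage (p := fun z : ((Fin 4 × Fin 3) ⊕ κ) ⊕ Unit → ℝ =>
        (volume (hull (pts fun k => z (Sum.inl (Sum.inl k))) ∩ R fun k => z (Sum.inl (Sum.inr k)))).toReal
          = z (Sum.inr ())) hR
        (φ := fun (z : Vr κ → ℝ) (k : ((Fin 4 × Fin 3) ⊕ κ) ⊕ Unit) => match k with
          | Sum.inl (Sum.inl k) => z (Sum.inl (Sum.inl k))
          | Sum.inl (Sum.inr k) => z (Sum.inl (Sum.inr (Sum.inl k)))
          | Sum.inr u => z (Sum.inr u)) (by
            rintro ((k | k) | u)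
            · exact PF.coord _
            · exact PF.coord _
            · exact PF.coord _)
    refine SAP.or (SAP.and (SAP.and (SAP.forall_mem _ fun i _ => SAP.le (haf i) PF.zero)
      (SAP.exists_mem _ fun i _ => SAP.lt (haf i) PF.zero)) (SAP.eq PF.zero (PF.coord _))) ?_
    refine SAP.exists_mem _ fun i hi => SAP.exists_mem _ fun j hj => ?_
    refine SAP.and (SAP.and (SAP.lt PF.zero (haf i)) (SAP.lt (haf j) PF.zero)) ?_
    have haf' : ∀ i : Fin 4, PF fun y : Vr κ ⊕ (Fin 3 ⊕ Bool) → ℝ =>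
        af (cc fun k => y (Sum.inl k)) (aa (fun k => y (Sum.inl k)) i) := fun i =>
      pf_af _ _ (fun k => PF.coord _) (fun k => PF.coord _)
    have hi' := (ih (S.erase i) (Finset.erase_ssubset hi)).preimage (φ := sub i false) (sub_pf i false)
    have hj' := (ih (S.erase j) (Finset.erase_ssubset hj)).preimage (φ := sub j true) (sub_pf j true)
    have hupd : ∀ (i : Fin 4) (b : Bool) (y : Vr κ ⊕ (Fin 3 ⊕ Bool) → ℝ),
        aa (sub i b y) = Function.update (aa fun k => y (Sum.inl k)) i (fun l => y (Sum.inr (Sum.inl l))) := by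
      intro i b y
      funext k l
      by_cases hk : k = i
      · subst hk
        rw [Function.update_self]
        simp [aa, pts, sub]
      · rw [Function.update_of_ne hk]
        simp [aa, pts, sub, hk]
    have hlast := ((SAP.forall_mem (Finset.univ : Finset (Fin 3)) (p := fun l (y : Vr κ ⊕ (Fin 3 ⊕ Bool) → ℝ) =>
      (af (cc fun k => y (Sum.inl k)) (aa (fun k => y (Sum.inl k)) i) -
        af (cc fun k => y (Sum.inl k)) (aa (fun k => y (Sum.inl k)) j)) * y (Sum.inr (Sum.inl l)) =
      af (cc fun k => y (Sum.inl k)) (aa (fun k => y (Sum.inl k)) i) * aa (fun k => y (Sum.inl k)) j l -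
        af (cc fun k => y (Sum.inl k)) (aa (fun k => y (Sum.inl k)) j) * aa (fun k => y (Sum.inl k)) i l)
      fun l _ => SAP.eq (((haf' i).sub (haf' j)).mul (PF.coord _))
        (((haf' i).mul (PF.coord _)).sub ((haf' j).mul (PF.coord _)))).and
      ((hi'.and hj').and (SAP.eq ((PF.coord (Sum.inr (Sum.inr false))).add
        (PF.coord (Sum.inr (Sum.inr true)))) (PF.coord (Sum.inl (Sum.inr ()))))))
    refine SAP.congr (ex hlast) fun z => ?_
    apply exists_congr
    intro x
    simp only [P, hupd]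
    rfl

end V3x

theorem v3 (h1 : S_V1) (_h2 : S_V2) : S_V3 := by
  intro κ _ R hR
  refine SAP.congr (V3x.sap_P h1 R hR Finset.univ) fun z => ?_
  unfold V3x.P V3x.F
  simp only [Finset.compl_univ, Finset.notMem_empty, false_imp_iff, implies_true, true_and]
  rfl

end Pool.Agent.K4H47.AL
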