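import Pool.Agent.K4H47.AL.Spec

/-!
# Removing a tetrahedron
-/

set_option autoImplicit false

namespace Pool.Agent.K4H47.AL

open MeasureTheory
open scoped ENNReal
open Pool.Agent.H349R2.Tet (V lat dt Ov)
open Pool.Agent.H581R2
open Pool.Agent.TH219.DL
open Pool.Agent.K4H47.MM

namespace V4

/-- the determinant of four points -/
noncomputable def dl (p : Fin 4 → V) : ℝ := dt (fun i => p i.succ - p 0)

/-- `D` times the determinant with one point replaced -/
noncomputable def g (b : Fin 4 → V) (k : Fin 4) (x : V) : ℝ := dl b * dl (Function.update b k x)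

/-- the coefficients of `g` -/
noncomputable def cf (b : Fin 4 → V) (k : Fin 4) : Fin 4 → ℝ :=
  ![g b k 0, g b k (Pi.single 0 1) - g b k 0, g b k (Pi.single 1 1) - g b k 0,
    g b k (Pi.single 2 1) - g b k 0]

lemma dl_eq (p : Fin 4 → V) : dl p =
    (p 1 0 - p 0 0) * (p 2 1 - p 0 1) * (p 3 2 - p 0 2)
    - (p 1 0 - p 0 0) * (p 2 2 - p 0 2) * (p 3 1 - p 0 1)
    - (p 1 1 - p 0 1) * (p 2 0 - p 0 0) * (p 3 2 - p 0 2)
    + (p 1 1 - p 0 1) * (p 2 2 - p 0 2) * (p 3 0 - p 0 0)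
    + (p 1 2 - p 0 2) * (p 2 0 - p 0 0) * (p 3 1 - p 0 1)
    - (p 1 2 - p 0 2) * (p 2 1 - p 0 1) * (p 3 0 - p 0 0) := by
  unfold dl dt
  rw [Matrix.det_fin_three]
  rfl

lemma dl_upd0 (b : Fin 4 → V) (x : V) : dl (Function.update b 0 x) =
    (b 1 0 - x 0) * (b 2 1 - x 1) * (b 3 2 - x 2)
    - (b 1 0 - x 0) * (b 2 2 - x 2) * (b 3 1 - x 1)
    - (b 1 1 - x 1) * (b 2 0 - x 0) * (b 3 2 - x 2)
    + (b 1 1 - x 1) * (b 2 2 - x 2) * (b 3 0 - x 0)
    + (b 1 2 - x 2) * (b 2 0 - x 0) * (b 3 1 - x 1)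
    - (b 1 2 - x 2) * (b 2 1 - x 1) * (b 3 0 - x 0) := by
  rw [dl_eq]
  simp [Function.update]

lemma dl_upd1 (b : Fin 4 → V) (x : V) : dl (Function.update b 1 x) =
    (x 0 - b 0 0) * (b 2 1 - b 0 1) * (b 3 2 - b 0 2)
    - (x 0 - b 0 0) * (b 2 2 - b 0 2) * (b 3 1 - b 0 1)
    - (x 1 - b 0 1) * (b 2 0 - b 0 0) * (b 3 2 - b 0 2)
    + (x 1 - b 0 1) * (b 2 2 - b 0 2) * (b 3 0 - b 0 0)
    + (x 2 - b 0 2) * (b 2 0 - b 0 0) * (b 3 1 - b 0 1)
    - (x 2 - b 0 2) * (b 2 1 - b 0 1) * (b 3 0 - b 0 0) := by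
  rw [dl_eq]
  simp [Function.update]

lemma dl_upd2 (b : Fin 4 → V) (x : V) : dl (Function.update b 2 x) =
    (b 1 0 - b 0 0) * (x 1 - b 0 1) * (b 3 2 - b 0 2)
    - (b 1 0 - b 0 0) * (x 2 - b 0 2) * (b 3 1 - b 0 1)
    - (b 1 1 - b 0 1) * (x 0 - b 0 0) * (b 3 2 - b 0 2)
    + (b 1 1 - b 0 1) * (x 2 - b 0 2) * (b 3 0 - b 0 0)
    + (b 1 2 - b 0 2) * (x 0 - b 0 0) * (b 3 1 - b 0 1)
    - (b 1 2 - b 0 2) * (x 1 - b 0 1) * (b 3 0 - b 0 0) := by
  rw [dl_eq]
  simp [Function.update]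

lemma dl_upd3 (b : Fin 4 → V) (x : V) : dl (Function.update b 3 x) =
    (b 1 0 - b 0 0) * (b 2 1 - b 0 1) * (x 2 - b 0 2)
    - (b 1 0 - b 0 0) * (b 2 2 - b 0 2) * (x 1 - b 0 1)
    - (b 1 1 - b 0 1) * (b 2 0 - b 0 0) * (x 2 - b 0 2)
    + (b 1 1 - b 0 1) * (b 2 2 - b 0 2) * (x 0 - b 0 0)
    + (b 1 2 - b 0 2) * (b 2 0 - b 0 0) * (x 1 - b 0 1)
    - (b 1 2 - b 0 2) * (b 2 1 - b 0 1) * (x 0 - b 0 0) := by
  rw [dl_eq]
  simp [Function.update]

lemma af_cf (b : Fin 4 → V) (k : Fin 4) (x : V) : af (cf b k) x = g b k x := by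
  have h : ∀ D : ℝ, D * dl (Function.update b k 0) +
      (D * dl (Function.update b k (Pi.single 0 1)) - D * dl (Function.update b k 0)) * x 0 +
      (D * dl (Function.update b k (Pi.single 1 1)) - D * dl (Function.update b k 0)) * x 1 +
      (D * dl (Function.update b k (Pi.single 2 1)) - D * dl (Function.update b k 0)) * x 2 =
      D * dl (Function.update b k x) := by
    intro D
    fin_cases k
    · simp only [Fin.zero_eta, Fin.isValue, dl_upd0, Pi.zero_apply, Pi.single_eq_same,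
        Pi.single_eq_of_ne (show (1 : Fin 3) ≠ 0 by decide),
        Pi.single_eq_of_ne (show (2 : Fin 3) ≠ 0 by decide),
        Pi.single_eq_of_ne (show (0 : Fin 3) ≠ 1 by decide),
        Pi.single_eq_of_ne (show (2 : Fin 3) ≠ 1 by decide),
        Pi.single_eq_of_ne (show (0 : Fin 3) ≠ 2 by decide),
        Pi.single_eq_of_ne (show (1 : Fin 3) ≠ 2 by decide)]
      ring
    · simp only [Fin.mk_one, Fin.isValue, dl_upd1, Pi.zero_apply, Pi.single_eq_same,
        Pi.single_eq_of_ne (show (1 : Fin 3) ≠ 0 by decide),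
        Pi.single_eq_of_ne (show (2 : Fin 3) ≠ 0 by decide),
        Pi.single_eq_of_ne (show (0 : Fin 3) ≠ 1 by decide),
        Pi.single_eq_of_ne (show (2 : Fin 3) ≠ 1 by decide),
        Pi.single_eq_of_ne (show (0 : Fin 3) ≠ 2 by decide),
        Pi.single_eq_of_ne (show (1 : Fin 3) ≠ 2 by decide)]
      ring
    · simp only [Fin.reduceFinMk, Fin.isValue, dl_upd2, Pi.zero_apply, Pi.single_eq_same,
        Pi.single_eq_of_ne (show (1 : Fin 3) ≠ 0 by decide),
        Pi.single_eq_of_ne (show (2 : Fin 3) ≠ 0 by decide),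
        Pi.single_eq_of_ne (show (0 : Fin 3) ≠ 1 by decide),
        Pi.single_eq_of_ne (show (2 : Fin 3) ≠ 1 by decide),
        Pi.single_eq_of_ne (show (0 : Fin 3) ≠ 2 by decide),
        Pi.single_eq_of_ne (show (1 : Fin 3) ≠ 2 by decide)]
      ring
    · simp only [Fin.reduceFinMk, Fin.isValue, dl_upd3, Pi.zero_apply, Pi.single_eq_same,
        Pi.single_eq_of_ne (show (1 : Fin 3) ≠ 0 by decide),
        Pi.single_eq_of_ne (show (2 : Fin 3) ≠ 0 by decide),
        Pi.single_eq_of_ne (show (0 : Fin 3) ≠ 1 by decide),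
        Pi.single_eq_of_ne (show (2 : Fin 3) ≠ 1 by decide),
        Pi.single_eq_of_ne (show (0 : Fin 3) ≠ 2 by decide),
        Pi.single_eq_of_ne (show (1 : Fin 3) ≠ 2 by decide)]
      ring
  exact h (dl b)

/-- the half spaces are convex -/
lemma convex_half (c : Fin 4 → ℝ) : Convex ℝ {x : V | 0 ≤ af c x} := by
  intro x hx y hy s t hs ht hst
  have h : af c (s • x + t • y) = s * af c x + t * af c y := by
    have h1 : t = 1 - s := by linarith
    subst h1
    simp only [af, Pi.add_apply, Pi.smul_apply, smul_eq_mul]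
    ring
  show 0 ≤ af c (s • x + t • y)
  rw [h]
  have hx' : 0 ≤ af c x := hx
  have hy' : 0 ≤ af c y := hy
  positivity

lemma g_vertex (b : Fin 4 → V) (k i : Fin 4) : 0 ≤ g b k (b i) := by
  unfold g
  by_cases h : i = k
  · subst h
    rw [Function.update_eq_self]
    exact mul_self_nonneg _
  · have : dl (Function.update b k (b i)) = 0 := by
      fin_cases k <;> fin_cases i <;>
        first
        | exact absurd rfl h
        | (simp only [Fin.zero_eta, Fin.mk_one, Fin.reduceFinMk, Fin.isValue, dl_upd0, dl_upd1,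
            dl_upd2, dl_upd3]; ring)
    rw [this, mul_zero]

/-- a tetrahedron is an intersection of four half spaces -/
lemma hull_eq (b : Fin 4 → V) (hb : dl b ≠ 0) :
    hull b = {x | ∀ k, 0 ≤ af (cf b k) x} := by
  apply Set.Subset.antisymm
  · have hc : Convex ℝ {x : V | ∀ k, 0 ≤ af (cf b k) x} := by
      have : {x : V | ∀ k, 0 ≤ af (cf b k) x} = ⋂ k, {x : V | 0 ≤ af (cf b k) x} := by
        ext x; simp
      rw [this]
      exact convex_iInter fun k => convex_half _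
    refine convexHull_min ?_ hc
    rintro _ ⟨i, rfl⟩ k
    rw [af_cf]
    exact g_vertex b k i
  · intro x hx
    have hw : ∀ k, 0 ≤ dl (Function.update b k x) / dl b := by
      intro k
      have h1 := hx k
      rw [af_cf] at h1
      have h2 : dl (Function.update b k x) / dl b = g b k x / (dl b * dl b) := by
        unfold g
        field_simp
      rw [h2]
      exact div_nonneg h1 (mul_self_nonneg _)
    have hsum : ∑ k, dl (Function.update b k x) / dl b = 1 := by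
      rw [← Finset.sum_div, div_eq_one_iff_eq hb, Fin.sum_univ_four, dl_upd0, dl_upd1, dl_upd2,
        dl_upd3, dl_eq]
      ring
    have hx' : x = ∑ k, (dl (Function.update b k x) / dl b) • b k := by
      funext j
      have h3 : dl b * x j = ∑ k, dl (Function.update b k x) * b k j := by
        rw [Fin.sum_univ_four, dl_upd0, dl_upd1, dl_upd2, dl_upd3, dl_eq]
        fin_cases j
        · simp only [Fin.zero_eta, Fin.isValue]; ring
        · simp only [Fin.mk_one, Fin.isValue]; ring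
        · simp only [Fin.reduceFinMk, Fin.isValue]; ring
      have h4 : x j = (∑ k, dl (Function.update b k x) * b k j) / dl b := by
        rw [← h3]; field_simp
      rw [Finset.sum_apply, h4, Finset.sum_div]
      refine Finset.sum_congr rfl fun k _ => ?_
      rw [Pi.smul_apply, smul_eq_mul]
      ring
    rw [hx']
    exact (convex_convexHull ℝ (Set.range b)).sum_mem (fun k _ => hw k) hsum
      fun k _ => subset_convexHull ℝ _ ⟨k, rfl⟩

lemma hull_compact {n : ℕ} (b : Fin n → V) : IsCompact (hull b) :=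
  (Set.finite_range b).isCompact_convexHull ℝ

lemma pf_dl {ι : Type} {p : (ι → ℝ) → Fin 4 → V} (h : ∀ i j, PF (fun v => p v i j)) :
    PF (fun v => dl (p v)) := by
  have h1 : ∀ i j, PF (fun v => p v i j - p v 0 j) := fun i j => (h i j).sub (h 0 j)
  have h2 := ((((((((h1 1 0).mul (h1 2 1)).mul (h1 3 2)).sub
    (((h1 1 0).mul (h1 2 2)).mul (h1 3 1))).sub
    (((h1 1 1).mul (h1 2 0)).mul (h1 3 2))).add
    (((h1 1 1).mul (h1 2 2)).mul (h1 3 0))).add
    (((h1 1 2).mul (h1 2 0)).mul (h1 3 1))).sub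
    (((h1 1 2).mul (h1 2 1)).mul (h1 3 0)))
  obtain ⟨q, hq⟩ := h2
  exact ⟨q, fun v => by
    show dl (p v) = _
    rw [dl_eq]
    exact hq v⟩

lemma pf_cf {ι : Type} {p : (ι → ℝ) → Fin 4 → V} (h : ∀ i j, PF (fun v => p v i j))
    (k i : Fin 4) : PF (fun v => cf (p v) k i) := by
  have hg : ∀ x : V, (∀ j, ∃ r : ℚ, x j = (r : ℝ)) → PF (fun v => g (p v) k x) := by
    intro x hx
    refine (pf_dl h).mul (pf_dl fun i j => ?_)
    by_cases hik : i = k
    · subst hik
      obtain ⟨r, hr⟩ := hx j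
      simp only [Function.update_self, hr]
      exact PF.const r
    · simp only [Function.update_of_ne hik]
      exact h i j
  have h0 := hg 0 (fun j => ⟨0, by simp⟩)
  have hs : ∀ l : Fin 3, PF (fun v => g (p v) k (Pi.single l 1)) := fun l => by
    refine hg _ fun j => ?_
    by_cases hj : j = l
    · subst hj; exact ⟨1, by simp⟩
    · exact ⟨0, by simp [hj]⟩
  fin_cases i
  · exact h0
  · exact (hs 0).sub h0
  · exact (hs 1).sub h0
  · exact (hs 2).sub h0

end V4

open V4 in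
theorem v4 (h2 : S_V2) (h3 : S_V3) : S_V4 := by
  intro κ _ R hR
  have h5 := h3 _ _ (h3 _ _ (h3 _ _ (h3 κ R hR)))
  unfold Good at h5 hR ⊢
  -- the points of the removed tetrahedron
  have hD : ∀ k i, PF (fun z : (((Fin 4 × Fin 3) ⊕ (κ ⊕ (Fin 4 × Fin 3))) ⊕ Unit) ⊕ Fin 2 → ℝ =>
      cf (pts fun k => z (Sum.inl (Sum.inl (Sum.inr (Sum.inr k))))) k i) :=
    fun k i => pf_cf (fun i j => PF.coord _) k i
  have hd : PF (fun z : (((Fin 4 × Fin 3) ⊕ (κ ⊕ (Fin 4 × Fin 3))) ⊕ Unit) ⊕ Fin 2 → ℝ =>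
      dl (pts fun k => z (Sum.inl (Sum.inl (Sum.inr (Sum.inr k)))))) :=
    pf_dl fun i j => PF.coord _
  have e1 := hR.preimage
    (φ := fun z : (((Fin 4 × Fin 3) ⊕ (κ ⊕ (Fin 4 × Fin 3))) ⊕ Unit) ⊕ Fin 2 → ℝ =>
      Sum.elim (Sum.elim (fun k => z (Sum.inl (Sum.inl (Sum.inl k))))
        fun k => z (Sum.inl (Sum.inl (Sum.inr (Sum.inl k))))) fun _ => z (Sum.inr 0)) (by
      rintro ((k | k) | k)
      · exact PF.coord _
      · exact PF.coord _
      · exact PF.coord _)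
  have e2 := h5.preimage
    (φ := fun z : (((Fin 4 × Fin 3) ⊕ (κ ⊕ (Fin 4 × Fin 3))) ⊕ Unit) ⊕ Fin 2 → ℝ =>
      Sum.elim (Sum.elim (fun k => z (Sum.inl (Sum.inl (Sum.inl k))))
        (Sum.elim (Sum.elim (Sum.elim (Sum.elim
          (fun k => z (Sum.inl (Sum.inl (Sum.inr (Sum.inl k)))))
          (cf (pts fun k => z (Sum.inl (Sum.inl (Sum.inr (Sum.inr k))))) 0))
          (cf (pts fun k => z (Sum.inl (Sum.inl (Sum.inr (Sum.inr k))))) 1))
          (cf (pts fun k => z (Sum.inl (Sum.inl (Sum.inr (Sum.inr k))))) 2))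
          (cf (pts fun k => z (Sum.inl (Sum.inl (Sum.inr (Sum.inr k))))) 3)))
        fun _ => z (Sum.inr 1)) (by
      rintro ((k | ((((k | k) | k) | k) | k)) | k)
      · exact PF.coord _
      · exact PF.coord _
      · exact hD _ _
      · exact hD _ _
      · exact hD _ _
      · exact hD _ _
      · exact PF.coord _)
  have e3 := ex (α := ((Fin 4 × Fin 3) ⊕ (κ ⊕ (Fin 4 × Fin 3))) ⊕ Unit) (κ := Fin 2)
    ((e1.and (((SAP.eq_zero hd).and (SAP.eq_zero (PF.coord (Sum.inr 1)))).or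
      ((SAP.eq_zero hd).not.and e2))).and
      (SAP.eq (PF.coord (Sum.inl (Sum.inr ()))) ((PF.coord (Sum.inr 0)).sub (PF.coord (Sum.inr 1)))))
  refine e3.congr fun z => ?_
  simp only [Sum.elim_inl, Sum.elim_inr]
  set T : Set V := hull (pts fun k => z (Sum.inl (Sum.inl k))) with hT
  set R' : Set V := R fun k => z (Sum.inl (Sum.inr (Sum.inl k))) with hR'
  set b : Fin 4 → V := pts fun k => z (Sum.inl (Sum.inr (Sum.inr k))) with hb
  have hfin : ∀ A : Set V, volume (T ∩ A) ≠ ⊤ := fun A =>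
    ((measure_mono Set.inter_subset_left).trans_lt (hull_compact _).measure_lt_top).ne
  have key : (volume (T ∩ (R' \ hull b))).toReal =
      (volume (T ∩ R')).toReal - (volume (T ∩ (R' ∩ hull b))).toReal := by
    have h6 : volume (T ∩ (R' \ hull b)) + volume (T ∩ (R' ∩ hull b)) = volume (T ∩ R') := by
      have h7 := measure_sdiff_add_inter (μ := volume) (T ∩ R')
        (hull_compact b).isClosed.measurableSet
      rwa [Set.inter_sdiff_assoc, Set.inter_assoc T R' (hull b)] at h7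
    rw [← h6, ENNReal.toReal_add (hfin _) (hfin _)]
    ring
  have hz : dl b = 0 → (volume (T ∩ (R' ∩ hull b))).toReal = 0 := by
    intro h0
    have h7 := h2 b
    have h8 : dt (fun i => b i.succ - b 0) = 0 := h0
    rw [h8, abs_zero, zero_div] at h7
    have h9 : volume (hull b) = 0 := by
      rcases (ENNReal.toReal_eq_zero_iff _).1 h7 with h | h
      · exact h
      · exact absurd h (hull_compact b).measure_lt_top.ne
    have h10 : volume (T ∩ (R' ∩ hull b)) = 0 :=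
      measure_mono_null (fun x hx => hx.2.2) h9
    rw [h10]
    rfl
  have hn : dl b ≠ 0 → T ∩ ((((R' ∩ {x | 0 ≤ af (cf b 0) x}) ∩ {x | 0 ≤ af (cf b 1) x}) ∩
      {x | 0 ≤ af (cf b 2) x}) ∩ {x | 0 ≤ af (cf b 3) x}) = T ∩ (R' ∩ hull b) := by
    intro h0
    rw [hull_eq b h0]
    ext x
    simp only [Set.mem_inter_iff, Set.mem_ofPred_eq, Fin.forall_fin_succ, Fin.isValue,
      Fin.succ_zero_eq_one, Fin.succ_one_eq_two, IsEmpty.forall_iff, and_true]
    constructor
    · rintro ⟨h1, ⟨⟨⟨h2, h3⟩, h4⟩, h5⟩, h6⟩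
      exact ⟨h1, h2, h3, h4, h5, h6⟩
    · rintro ⟨h1, h2, h3, h4, h5, h6⟩
      exact ⟨h1, ⟨⟨⟨h2, h3⟩, h4⟩, h5⟩, h6⟩
  constructor
  · intro h
    refine ⟨![(volume (T ∩ R')).toReal, (volume (T ∩ (R' ∩ hull b))).toReal], ⟨rfl, ?_⟩, ?_⟩
    · by_cases h0 : dl b = 0
      · exact Or.inl ⟨h0, hz h0⟩
      · exact Or.inr ⟨h0, congrArg (fun A : Set V => (volume A).toReal) (hn h0)⟩
    · exact h.symm.trans key
  · rintro ⟨x, ⟨h1, h4⟩, h6⟩
    rw [h6]
    refine key.trans ?_
    have h7 : (volume (T ∩ (R' ∩ hull b))).toReal = x 1 := by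
      rcases h4 with ⟨h0, h8⟩ | ⟨h0, h8⟩
      · rw [hz h0]
        exact h8.symm
      · rw [← hn h0]
        exact h8
    have h9 : (volume (T ∩ R')).toReal = x 0 := h1
    rw [h7, h9]

end Pool.Agent.K4H47.AL
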