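import Pool.Agent.K4H47.AL.Spec

set_option autoImplicit false

/-!
[V5] The volume of the hull of `n` points is a semialgebraic function.
-/

namespace Pool.Agent.K4H47.AL

open MeasureTheory
open scoped ENNReal
open Pool.Agent.H349R2.Tet (V lat dt Ov)
open Pool.Agent.H581R2
open Pool.Agent.TH219.DL
open Pool.Agent.K4H47.MM

namespace V5

/-- reindexing -/
theorem good_map {κ κ' : Type} {R : (κ → ℝ) → Set V} (h : Good κ R) (σ : κ → κ') :
    Good κ' (fun w => R fun k => w (σ k)) := by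
  unfold Good at h ⊢
  exact h.preimage (φ := fun (z : ((Fin 4 × Fin 3) ⊕ κ') ⊕ Unit → ℝ) k =>
    z (Sum.map (Sum.map id σ) id k)) fun k => PF.coord _

theorem pf_dt {ι : Type} (b : (ι → ℝ) → Fin 3 → V) (hb : ∀ i j, PF fun v => b v i j) :
    PF fun v => dt (b v) := by
  have h : ∀ v, dt (b v) = b v 0 0 * b v 1 1 * b v 2 2 - b v 0 0 * b v 1 2 * b v 2 1 -
      b v 0 1 * b v 1 0 * b v 2 2 + b v 0 1 * b v 1 2 * b v 2 0 +
      b v 0 2 * b v 1 0 * b v 2 1 - b v 0 2 * b v 1 1 * b v 2 0 := by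
    intro v
    unfold dt
    rw [Matrix.det_fin_three]
    simp only [Matrix.of_apply]
  have h2 : (fun v => dt (b v)) = fun v => b v 0 0 * b v 1 1 * b v 2 2 - b v 0 0 * b v 1 2 * b v 2 1 -
      b v 0 1 * b v 1 0 * b v 2 2 + b v 0 1 * b v 1 2 * b v 2 0 +
      b v 0 2 * b v 1 0 * b v 2 1 - b v 0 2 * b v 1 1 * b v 2 0 := funext h
  rw [h2]
  exact (((((((hb 0 0).mul (hb 1 1)).mul (hb 2 2)).sub (((hb 0 0).mul (hb 1 2)).mul (hb 2 1))).sub
    (((hb 0 1).mul (hb 1 0)).mul (hb 2 2))).add (((hb 0 1).mul (hb 1 2)).mul (hb 2 0))).add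
    (((hb 0 2).mul (hb 1 0)).mul (hb 2 1))).sub (((hb 0 2).mul (hb 1 1)).mul (hb 2 0))

theorem good_univ (h2 : S_V2) : Good (Fin 0) (fun _ => Set.univ) := by
  unfold Good
  have hD : PF fun z : ((Fin 4 × Fin 3) ⊕ Fin 0) ⊕ Unit → ℝ =>
      dt (fun i => pts (fun k => z (Sum.inl (Sum.inl k))) i.succ -
        pts (fun k => z (Sum.inl (Sum.inl k))) 0) := by
    refine pf_dt _ fun i j => ?_
    show PF fun z : ((Fin 4 × Fin 3) ⊕ Fin 0) ⊕ Unit → ℝ =>
      z (Sum.inl (Sum.inl (i.succ, j))) - z (Sum.inl (Sum.inl (0, j)))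
    exact (PF.coord _).sub (PF.coord _)
  have hT : PF fun z : ((Fin 4 × Fin 3) ⊕ Fin 0) ⊕ Unit → ℝ => z (Sum.inr ()) := PF.coord _
  refine SAP.congr ((SAP.le PF.zero hT).and
    (SAP.eq (hD.pow 2) ((hT.pow 2).mul (PF.constNat 36)))) fun z => ?_
  rw [Set.inter_univ, h2]
  set D := dt (fun i => pts (fun k => z (Sum.inl (Sum.inl k))) i.succ -
    pts (fun k => z (Sum.inl (Sum.inl k))) 0) with hDdef
  set t := z (Sum.inr ()) with ht
  push_cast
  constructor
  · intro h
    rw [← h]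
    refine ⟨by positivity, ?_⟩
    rw [div_pow, sq_abs]
    ring
  · rintro ⟨h1, h3⟩
    have h4 : |D| ^ 2 = (6 * t) ^ 2 := by rw [sq_abs, h3]; ring
    have h5 : |D| = 6 * t := (pow_left_inj₀ (abs_nonneg D) (by positivity) two_ne_zero).1 h4
    rw [h5]
    ring

/-- the complement of `q` tetrahedra -/
def U (q : ℕ) (w : Fin q × (Fin 4 × Fin 3) → ℝ) : Set V :=
  {x | ∀ i : Fin q, x ∉ hull (pts fun k => w (i, k))}

theorem good_U (h2 : S_V2) (h4 : S_V4) : ∀ q : ℕ, Good (Fin q × (Fin 4 × Fin 3)) (U q)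
  | 0 => by
    have h := good_map (good_univ h2) (κ' := Fin 0 × (Fin 4 × Fin 3)) (fun i => i.elim0)
    have e : (U 0) = fun _ => Set.univ := by
      funext w
      ext x
      simp [U]
    rw [e]
    exact h
  | q + 1 => by
    have h := h4 _ _ (good_U h2 h4 q)
    have h' := good_map h (κ' := Fin (q + 1) × (Fin 4 × Fin 3))
      (Sum.elim (fun p => (p.1.castSucc, p.2)) fun k => (Fin.last q, k))
    have e : (U (q + 1)) = fun w : Fin (q + 1) × (Fin 4 × Fin 3) → ℝ =>
        U q (fun p => w (p.1.castSucc, p.2)) \ hull (pts fun k => w (Fin.last q, k)) := by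
      funext w
      ext x
      simp only [U, Set.mem_ofPred_eq, Set.mem_sdiff, Fin.forall_fin_succ']
    rw [e]
    exact h'

theorem hull_union {n : ℕ} (v : Fin n → V) : hull v = ⋃ s : Fin 4 → Fin n, hull (v ∘ s) := by
  classical
  apply Set.Subset.antisymm
  · unfold hull
    rw [convexHull_eq_union]
    intro x hx
    simp only [Set.mem_iUnion] at hx
    obtain ⟨t, hts, hti, hxt⟩ := hx
    have hcard : Fintype.card t ≤ 4 := by
      have h1 := hti.card_le_finrank_succ
      refine h1.trans (Nat.succ_le_succ ((Submodule.finrank_le _).trans ?_))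
      simp
    have hne : Nonempty t := by
      by_contra hcon
      rw [not_nonempty_iff, Finset.isEmpty_coe_sort] at hcon
      rw [hcon] at hxt
      simp at hxt
    obtain ⟨g⟩ : Nonempty (t ↪ Fin 4) := by
      refine Function.Embedding.nonempty_of_card_le ?_
      simpa using hcard
    choose f hf using fun y : t => hts y.2
    rw [Set.mem_iUnion]
    refine ⟨fun i => f (Function.invFun g i), ?_⟩
    refine convexHull_mono ?_ hxt
    intro y hy
    obtain ⟨i, hi⟩ := Function.invFun_surjective g.injective ⟨y, hy⟩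
    refine ⟨i, ?_⟩
    show v (f (Function.invFun g i)) = y
    rw [hf, hi]
  · refine Set.iUnion_subset fun s => ?_
    exact convexHull_mono (Set.range_comp_subset_range s v)

theorem hull_compact {n : ℕ} (v : Fin n → V) : IsCompact (hull v) :=
  Set.Finite.isCompact_convexHull (𝕜 := ℝ) (Set.finite_range v)

/-- the volume of a union -/
theorem vol_sum {N : ℕ} (H : Fin N → Set V) (hc : ∀ m, IsCompact (H m)) :
    (volume (⋃ m, H m)).toReal =
      ∑ m, (volume (H m ∩ {x | ∀ l : Fin N, l < m → x ∉ H l})).toReal := by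
  classical
  have hm : ∀ m, MeasurableSet (H m) := fun m => (hc m).measurableSet
  have e1 : (⋃ m, H m) = ⋃ m, (H m ∩ {x | ∀ l : Fin N, l < m → x ∉ H l}) := by
    ext x
    simp only [Set.mem_iUnion, Set.mem_inter_iff, Set.mem_ofPred_eq]
    constructor
    · rintro ⟨m, hx⟩
      have hne : (Finset.univ.filter fun l : Fin N => x ∈ H l).Nonempty := ⟨m, by simpa using hx⟩
      refine ⟨_, (Finset.mem_filter.1 (Finset.min'_mem _ hne)).2, fun l hl hxl => ?_⟩
      have := Finset.min'_le (Finset.univ.filter fun l : Fin N => x ∈ H l) l (by simpa using hxl)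
      exact absurd hl (not_lt.2 this)
    · rintro ⟨m, hx, _⟩
      exact ⟨m, hx⟩
  have hmes : ∀ m, MeasurableSet (H m ∩ {x | ∀ l : Fin N, l < m → x ∉ H l}) := by
    intro m
    refine (hm m).inter ?_
    have : {x | ∀ l : Fin N, l < m → x ∉ H l} = ⋂ l : Fin N, ⋂ _ : l < m, (H l)ᶜ := by
      ext x
      simp
    rw [this]
    exact MeasurableSet.iInter fun l => MeasurableSet.iInter fun _ => (hm l).compl
  rw [e1, measure_iUnion ?_ hmes, tsum_fintype, ENNReal.toReal_sum]
  · intro m _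
    exact ne_top_of_le_ne_top (hc m).measure_lt_top.ne (measure_mono Set.inter_subset_left)
  · intro m m' hmm
    rw [Function.onFun, Set.disjoint_left]
    rintro x ⟨h1, h1'⟩ ⟨h2, h2'⟩
    rcases lt_or_gt_of_ne hmm with h | h
    · exact h2' m h h1
    · exact h1' m' h h2

end V5

open V5 in
/-- [V5] -/
theorem v5 (h2 : S_V2) (h4 : S_V4) : S_V5 := by
  intro n
  classical
  obtain ⟨N, e, he⟩ : ∃ (N : ℕ) (e : Fin N → (Fin 4 → Fin n)), Function.Surjective e := by
    obtain ⟨N, ⟨e0⟩⟩ := Finite.exists_equiv_fin (Fin 4 → Fin n)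
    exact ⟨N, e0.symm, e0.symm.surjective⟩
  -- the terms
  obtain ⟨T, hTd⟩ : ∃ T : Fin N → (Fin n × Fin 3 → ℝ) → ℝ, ∀ m w, T m w =
    (volume (hull (pts fun k : Fin 4 × Fin 3 => w (e m k.1, k.2)) ∩
      U m (fun p => w (e (p.1.castLE m.2.le) p.2.1, p.2.2)))).toReal := ⟨_, fun _ _ => rfl⟩
  have hT : ∀ m, SAP (fun z : (Fin n × Fin 3) ⊕ Unit → ℝ =>
      T m (fun k => z (Sum.inl k)) = z (Sum.inr ())) := by
    intro m
    have h := good_U h2 h4 m
    unfold Good at h
    have h' := h.preimage (φ := fun (z : (Fin n × Fin 3) ⊕ Unit → ℝ) k => z (Sum.elim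
      (Sum.elim (fun k => Sum.inl (e m k.1, k.2))
        fun p => Sum.inl (e (p.1.castLE m.2.le) p.2.1, p.2.2)) (fun _ => Sum.inr ()) k))
      fun k => PF.coord _
    refine h'.congr fun z => ?_
    rw [hTd]
    exact Iff.rfl
  have hsum : ∀ w : Fin n × Fin 3 → ℝ, (volume (hull (pts w))).toReal = ∑ m, T m w := by
    intro w
    have h1 : hull (pts w) = ⋃ m : Fin N, hull (pts w ∘ e m) := by
      rw [hull_union]
      exact (he.iUnion_comp fun s => hull (pts w ∘ s)).symm
    rw [h1, vol_sum _ fun m => hull_compact _]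
    refine Finset.sum_congr rfl fun m _ => ?_
    have h3 : {x : V | ∀ l : Fin N, l < m → x ∉ hull (pts w ∘ e l)} =
        U m (fun p => w (e (p.1.castLE m.2.le) p.2.1, p.2.2)) := by
      ext x
      simp only [U, Set.mem_ofPred_eq]
      constructor
      · intro h i
        exact h (i.castLE m.2.le) i.2
      · intro h l hl
        exact h ⟨l, hl⟩
    rw [hTd, h3]
    rfl
  have key : SAP (fun z : (Fin n × Fin 3) ⊕ Unit → ℝ => ∃ x : Fin N → ℝ,
      (∀ m ∈ Finset.univ, T m (fun k => z (Sum.inl k)) = x m) ∧ ∑ m, x m = z (Sum.inr ())) := by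
    refine SAP.congr (ex (p := fun u : ((Fin n × Fin 3) ⊕ Unit) ⊕ Fin N → ℝ =>
      (∀ m ∈ (Finset.univ : Finset (Fin N)), T m (fun k => u (Sum.inl (Sum.inl k))) =
        u (Sum.inr m)) ∧ ∑ m, u (Sum.inr m) = u (Sum.inl (Sum.inr ()))) ?_) fun z => Iff.rfl
    refine SAP.and (SAP.forall_mem _ fun m _ => ?_) ?_
    · exact (hT m).preimage (φ := fun (u : ((Fin n × Fin 3) ⊕ Unit) ⊕ Fin N → ℝ) k =>
        u (Sum.elim (fun k => Sum.inl (Sum.inl k)) (fun _ => Sum.inr m) k)) fun k => PF.coord _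
    · exact SAP.eq (PF.sum _ fun m _ => PF.coord _) (PF.coord _)
  refine SAP.congr key fun z => ?_
  rw [hsum]
  constructor
  · intro h
    exact ⟨fun m => T m (fun k => z (Sum.inl k)), fun m _ => rfl, h⟩
  · rintro ⟨x, hx, hs⟩
    rw [← hs]
    exact Finset.sum_congr rfl fun m hm => hx m hm

end Pool.Agent.K4H47.AL
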