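import Pool.Agent.K4H47.AL.V1
import Pool.Agent.K4H47.AL.V2
import Pool.Agent.K4H47.AL.V3
import Pool.Agent.K4H47.AL.V4
import Pool.Agent.K4H47.AL.V5
import Pool.Agent.K4H47.AL.OV
import Pool.Agent.K4H47.AL.RB
import Pool.Agent.K4H47.AL.IX
import Pool.Agent.K4H47.AL.FL
import Pool.Agent.K4H47.AL.FS
import Pool.Agent.K4H47.AL.PLs
import Pool.Agent.K4H47.AL.DG
import Pool.Agent.K4H47.AL.AF
import Pool.Agent.K4H47.AL.NZ
import Pool.Agent.K4H47.AL.LO
import Pool.Agent.K4H47.AL.CN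
import Pool.Agent.K4H47.AL.ALg
import Pool.Agent.K4H47.AL.DN
import Pool.Agent.K4H47.AL.Lim

/-!
# All pieces together
-/

set_option autoImplicit false

namespace Pool.Agent.K4H47.AL

open Pool.Agent.H349R2.Tet (V)
open Pool.Agent.TH219.DL
open Pool.Agent.K4H47.MM

theorem hPL : S_PL := pls (v5 v2 (v4 v2 (v3 v1 v2))) ov (fl rb ix) (fs rb ix)

theorem hL : Dens dL PL := dens_L dg af' hPL

theorem hLs : Dens dLs PS := dens_Ls dg af' hPL

theorem concl_L : Concl dL DensL :=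
  concl (T := TouchT) (n := 52) hL alg nz lo cn mono_PL dn fun _ hK => struct_L hK

theorem concl_Ls : Concl dLs DensLs :=
  concl (T := fun K S p => TouchT K S p ∨ TouchR K S p) (n := 79) hLs alg nz lo cn mono_PS dn
    fun _ hK => struct_Ls hK

end Pool.Agent.K4H47.AL
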