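import Pool.Agent.K4H47.AL.Spec

/-!
# Algebraicity: assembly
-/

set_option autoImplicit false

namespace Pool.Agent.K4H47.AL

open MeasureTheory
open scoped ENNReal
open Pool.Agent.H349R2.Tet (V lat dt Ov)
open Pool.Agent.H581R2
open Pool.Agent.TH219.DL
open Pool.Agent.K4H47.MM

/-- the least value of `δ` on the polytopes with at most `N` vertices -/
noncomputable def least (δ : Set V → ℝ≥0∞) (N : ℕ) : ℝ≥0∞ :=
  ⨅ (v : Fin N → V) (_ : (interior (hull v)).Nonempty), δ (hull v)

theorem hull_compact {n : ℕ} (v : Fin n → V) : IsCompact (hull v) := by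
  unfold hull
  exact Set.Finite.isCompact_convexHull (𝕜 := ℝ) (Set.finite_range v)

theorem hull_body {n : ℕ} {v : Fin n → V} (h : (interior (hull v)).Nonempty) : Body (hull v) :=
  ⟨hull_compact v, convex_convexHull ℝ _, h⟩

theorem nm_int {M : ℕ} {w : Fin (M + 4) → V} (h : Nm w) : (interior (hull w)).Nonempty := by
  obtain ⟨h0, h1, h2, h3, -⟩ := h
  have hopen : IsOpen {x : V | 0 < x 0 ∧ 0 < x 1 ∧ 0 < x 2 ∧ x 0 + x 1 + x 2 < 1} := by
    refine (isOpen_lt continuous_const (continuous_apply 0)).inter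
      ((isOpen_lt continuous_const (continuous_apply 1)).inter
      ((isOpen_lt continuous_const (continuous_apply 2)).inter
      (isOpen_lt (((continuous_apply 0).add (continuous_apply 1)).add (continuous_apply 2))
        continuous_const)))
  refine ⟨fun _ => 1 / 4, ?_⟩
  refine interior_maximal (t := {x : V | 0 < x 0 ∧ 0 < x 1 ∧ 0 < x 2 ∧ x 0 + x 1 + x 2 < 1}) ?_
    hopen ⟨by norm_num, by norm_num, by norm_num, by norm_num⟩
  rintro x ⟨x0, x1, x2, x3⟩
  have hm : ∀ i, w i ∈ hull w := fun i => subset_convexHull ℝ _ ⟨i, rfl⟩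
  have key : x = ∑ i : Fin 4, (![1 - x 0 - x 1 - x 2, x 0, x 1, x 2] i) •
      (![w 0, w 1, w 2, w 3] i) := by
    simp only [Fin.sum_univ_four, Matrix.cons_val_zero, Matrix.cons_val_one, Matrix.cons_val,
      h0, h1, h2, h3]
    funext j
    fin_cases j <;> simp
  rw [key]
  refine (convex_convexHull ℝ _).sum_mem ?_ ?_ ?_
  · intro i _
    fin_cases i <;> simp <;> linarith
  · simp [Fin.sum_univ_four]
    ring
  · intro i _
    fin_cases i
    · exact hm 0
    · exact hm 1
    · exact hm 2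
    · exact hm 3

/-- `Nm` is a semialgebraic condition -/
theorem nm_sap {M : ℕ} {α : Type} (φ : Fin (M + 4) × Fin 3 → α) :
    SAP (fun u : α → ℝ => Nm (pts fun k => u (φ k))) := by
  have hc : ∀ (i : Fin (M + 4)) (y : Fin 3 → ℚ),
      SAP (fun u : α → ℝ => ∀ j ∈ (Finset.univ : Finset (Fin 3)), u (φ (i, j)) = (y j : ℝ)) :=
    fun i y => SAP.forall_mem _ fun j _ => SAP.eq (PF.coord _) (PF.const _)
  have hb : SAP (fun u : α → ℝ => ∀ k ∈ (Finset.univ : Finset (Fin (M + 4) × Fin 3)),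
      u (φ k) ≤ ((1 : ℚ) : ℝ) ∧ (((-1 : ℚ) : ℝ)) ≤ u (φ k)) :=
    SAP.forall_mem _ fun j _ => (SAP.le (PF.coord _) (PF.const _)).and
      (SAP.le (PF.const _) (PF.coord _))
  refine ((hc 0 0).and ((hc 1 (Pi.single 0 1)).and ((hc 2 (Pi.single 1 1)).and
    ((hc 3 (Pi.single 2 1)).and hb)))).congr fun u => ?_
  have hs : ∀ (k j : Fin 3), ((Pi.single k (1 : ℚ) : Fin 3 → ℚ) j : ℝ) =
      (Pi.single k (1 : ℝ) : Fin 3 → ℝ) j := by
    intro k j
    by_cases h : j = k
    · subst h; simp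
    · rw [Pi.single_eq_of_ne h, Pi.single_eq_of_ne h]; simp
  constructor
  · rintro ⟨h0, h1, h2, h3, h4⟩
    refine ⟨fun j _ => ?_, fun j _ => ?_, fun j _ => ?_, fun j _ => ?_, fun k _ => ?_⟩
    · have := congrFun h0 j
      simpa [pts] using this
    · rw [hs]; exact congrFun h1 j
    · rw [hs]; exact congrFun h2 j
    · rw [hs]; exact congrFun h3 j
    · have := abs_le.1 (h4 k.1 k.2)
      push_cast
      exact ⟨this.2, this.1⟩
  · rintro ⟨h0, h1, h2, h3, h4⟩
    refine ⟨funext fun j => ?_, funext fun j => ?_, funext fun j => ?_, funext fun j => ?_,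
      fun i j => ?_⟩
    · have := h0 j (Finset.mem_univ _)
      simpa [pts] using this
    · rw [← hs]; exact h1 j (Finset.mem_univ _)
    · rw [← hs]; exact h2 j (Finset.mem_univ _)
    · rw [← hs]; exact h3 j (Finset.mem_univ _)
    · have := h4 (i, j) (Finset.mem_univ _)
      push_cast at this
      exact abs_le.2 ⟨this.2, this.1⟩

/-- what is needed of a density -/
structure Dens (δ : Set V → ℝ≥0∞) (P : Set V → ℝ → Prop) : Prop where
  iff : ∀ K, Body K → ∀ r : ℝ, 0 ≤ r → (ENNReal.ofReal r < δ K ↔ P K r)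
  aff : ∀ (K : Set V) (L : V ≃ₗ[ℝ] V) (p : V) (r : ℝ), P K r → P ((fun x => L x + p) '' K) r
  sap : ∀ M : ℕ, SAP (fun z : (Fin (M + 4) × Fin 3) ⊕ Unit → ℝ => Nm (pts fun k => z (Sum.inl k)) ∧
    0 ≤ z (Sum.inr ()) ∧ P (hull (pts fun k => z (Sum.inl k))) (z (Sum.inr ())))
  lt_top : ∀ K, Body K → δ K < ⊤

variable {δ : Set V → ℝ≥0∞} {P : Set V → ℝ → Prop}

theorem aff_inv (h : Dens δ P) {K K' : Set V} {L : V ≃ₗ[ℝ] V} {p : V}
    (hK : K' = (fun x => L x + p) '' K) {r : ℝ} : P K r ↔ P K' r := by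
  refine ⟨fun h1 => hK ▸ h.aff K L p r h1, fun h1 => ?_⟩
  have h2 := h.aff K' L.symm (-(L.symm p)) r h1
  have h3 : (fun x => L.symm x + -(L.symm p)) '' K' = K := by
    rw [hK, Set.image_image]
    have : (fun x => L.symm (L x + p) + -(L.symm p)) = id := by
      funext x
      simp
    rw [this, Set.image_id]
  rwa [h3] at h2

theorem le_of (h : Dens δ P) {K K' : Set V} (hK : Body K) (hK' : Body K')
    (h1 : ∀ r, 0 ≤ r → P K r → P K' r) : δ K ≤ δ K' := by
  refine ENNReal.le_of_forall_nnreal_lt fun r hr => ?_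
  have h2 : ENNReal.ofReal (r : ℝ) < δ K := by simpa using hr
  have h3 := (h.iff K' hK' r r.2).2 (h1 r r.2 ((h.iff K hK r r.2).1 h2))
  simpa using h3.le

theorem eq_of (h : Dens δ P) {K K' : Set V} (hK : Body K) (hK' : Body K') {L : V ≃ₗ[ℝ] V} {p : V}
    (hKK : K' = (fun x => L x + p) '' K) : δ K = δ K' :=
  le_antisymm (le_of h hK hK' fun _ _ => (aff_inv h hKK).1)
    (le_of h hK' hK fun _ _ => (aff_inv h hKK).2)

/-- in real terms -/
theorem real_iff (h : Dens δ P) {K : Set V} (hK : Body K) {r : ℝ} (hr : 0 ≤ r) :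
    P K r ↔ r < (δ K).toReal := by
  rw [← h.iff K hK r hr, ENNReal.ofReal_lt_iff_lt_toReal hr (h.lt_top K hK).ne]

theorem alg1 (h : Dens δ P) (hA : S_AL) (hN : S_NZ) (N : ℕ) :
    IsAlgebraic ℚ (least δ N).toReal := by
  by_cases hex : ∃ v : Fin N → V, (interior (hull v)).Nonempty
  swap
  · have : least δ N = ⊤ := by
      unfold least
      simp only [iInf_eq_top]
      intro v hv
      exact absurd ⟨v, hv⟩ hex
    rw [this]
    simpa using isAlgebraic_zero
  have hN4 : ∃ M, N = M + 4 := by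
    obtain ⟨v, hv⟩ := hex
    by_contra hcon
    have h4 : N < 4 := by
      by_contra h'
      exact hcon ⟨N - 4, by omega⟩
    have h5 : affineSpan ℝ (Set.range v) = ⊤ := by
      rw [← interior_convexHull_nonempty_iff_affineSpan_eq_top]
      exact hv
    have h6 := finrank_vectorSpan_range_le ℝ v (n := N - 1)
    rcases Nat.eq_zero_or_pos N with h0 | h0
    · subst h0
      have h7 : Set.range v = ∅ := Set.range_eq_empty v
      unfold hull at hv
      rw [h7, convexHull_empty, interior_empty] at hv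
      exact Set.not_nonempty_empty hv
    · have h7 := h6 (by simp; omega)
      have h8 : vectorSpan ℝ (Set.range v) = ⊤ := by
        rw [← direction_affineSpan, h5, AffineSubspace.direction_top]
      rw [h8, finrank_top] at h7
      simp at h7
      omega
  obtain ⟨M, rfl⟩ := hN4
  have hfin : least δ (M + 4) ≠ ⊤ := by
    obtain ⟨v, hv⟩ := hex
    refine ((iInf_le_of_le v (iInf_le _ hv)).trans_lt (h.lt_top _ (hull_body hv))).ne
  refine hA.2 {t | 0 ≤ t ∧ ∀ w : Fin (M + 4) → V, Nm w → P (hull w) t} _ ?_ ?_ ?_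
    ENNReal.toReal_nonneg
  · have h1 := (h.sap M).preimage (φ := fun (u : Unit ⊕ (Fin (M + 4) × Fin 3) → ℝ)
      (k : (Fin (M + 4) × Fin 3) ⊕ Unit) => u k.swap) fun k => PF.coord _
    have h2 := fa ((nm_sap (M := M) (fun k => (Sum.inr k : Unit ⊕ (Fin (M + 4) × Fin 3)))).imp h1)
    refine (h2.and (SAP.le PF.zero (PF.coord ()))).congr fun z => ?_
    constructor
    · rintro ⟨h3, h4⟩
      refine ⟨fun x hx => ⟨hx, h3, h4 _ hx⟩, h3⟩
    · rintro ⟨h3, h4⟩
      refine ⟨h4, fun w hw => ?_⟩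
      have := h3 (fun k => w k.1 k.2) hw
      exact this.2.2
  · intro t ht ht2
    refine ⟨ht, fun w hw => ?_⟩
    have hb := hull_body (nm_int hw)
    refine (real_iff h hb ht).2 (ht2.trans_le ?_)
    exact ENNReal.toReal_mono (h.lt_top _ hb).ne (iInf_le_of_le w (iInf_le _ (nm_int hw)))
  · rintro t ht ⟨h0, h1⟩
    refine absurd ht (not_lt.2 ?_)
    have h2 : ENNReal.ofReal t ≤ least δ (M + 4) := by
      refine le_iInf fun v => le_iInf fun hv => ?_
      obtain ⟨L, p, w, hw, hwe⟩ := hN M v hv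
      exact ((h.iff _ (hull_body hv) t h0).2 ((aff_inv h hwe).2 (h1 w hw))).le
    rwa [ENNReal.ofReal_le_iff_le_toReal hfin] at h2

/-- local minimality is affinely invariant -/
theorem locMin_aff (h : Dens δ P) {K K' : Set V} (hK : Body K) (hK' : Body K') {L : V ≃ₗ[ℝ] V}
    {p : V} (hKK : K' = (fun x => L x + p) '' K) (hm : LocMin δ K) : LocMin δ K' := by
  obtain ⟨ε, hε, hmin⟩ := hm
  -- the affine bijection
  let A : V → V := fun x => L x + p
  let B : V → V := fun x => L.symm x + -(L.symm p)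
  have hAB : ∀ x, A (B x) = x := by
    intro x
    simp [A, B]
  have hBA : ∀ x, B (A x) = x := by
    intro x
    simp [A, B]
  have hBimg : ∀ S : Set V, B '' S = A ⁻¹' S := by
    intro S
    ext x
    constructor
    · rintro ⟨y, hy, rfl⟩
      show A (B y) ∈ S
      rwa [hAB]
    · intro hx
      exact ⟨A x, hx, hBA x⟩
  have hvol : ∀ S : Set V, volume (A ⁻¹' S) =
      ENNReal.ofReal |LinearMap.det ((L.symm : V ≃ₗ[ℝ] V) : V →ₗ[ℝ] V)| * volume S := by
    intro S
    rw [← hBimg]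
    have h1 : B '' S = (fun x => x + -(L.symm p)) '' (((L.symm : V ≃ₗ[ℝ] V) : V →ₗ[ℝ] V) '' S) := by
      rw [Set.image_image]
      rfl
    rw [h1]
    have h2 := Measure.addHaar_image_linearMap (μ := (volume : Measure V))
      ((L.symm : V ≃ₗ[ℝ] V) : V →ₗ[ℝ] V) S
    rw [← h2]
    simp only [Set.image_add_right, neg_neg]
    exact measure_preimage_add_right _ _ _
  set d : ℝ := |LinearMap.det ((L.symm : V ≃ₗ[ℝ] V) : V →ₗ[ℝ] V)| with hd
  have hd0 : 0 < d := abs_pos.2 (LinearEquiv.isUnit_det' L.symm).ne_zero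
  refine ⟨ε / d, by positivity, fun K1 hK1 hv => ?_⟩
  have hcont : Continuous A := by
    have : Continuous (fun x => (L x : V)) := L.toLinearMap.continuous_of_finiteDimensional
    exact this.add continuous_const
  have hcontB : Continuous B := by
    have : Continuous (fun x => (L.symm x : V)) :=
      L.symm.toLinearMap.continuous_of_finiteDimensional
    exact this.add continuous_const
  have hB1 : Body (A ⁻¹' K1) := by
    refine ⟨?_, ?_, ?_⟩
    · rw [← hBimg]
      exact hK1.1.image hcontB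
    · have : A ⁻¹' K1 = (AffineMap.mk' A (L : V →ₗ[ℝ] V) 0 (by intro x; simp [A])) ⁻¹' K1 := rfl
      rw [this]
      exact hK1.2.1.affine_preimage _
    · obtain ⟨x, hx⟩ := hK1.2.2
      refine ⟨B x, ?_⟩
      have h3 : A ⁻¹' (interior K1) ⊆ interior (A ⁻¹' K1) :=
        preimage_interior_subset_interior_preimage hcont
      apply h3
      show A (B x) ∈ interior K1
      rwa [hAB]
  have hK0 : K = A ⁻¹' K' := by
    rw [hKK]
    exact (Set.preimage_image_eq K (Function.LeftInverse.injective (g := B) hBA)).symm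
  have h4 : volume (symmDiff (A ⁻¹' K1) K) ≤ ENNReal.ofReal ε := by
    have h5 : symmDiff (A ⁻¹' K1) K = A ⁻¹' (symmDiff K1 K') := by
      rw [hK0]
      rfl
    rw [h5, hvol]
    calc _ ≤ ENNReal.ofReal d * ENNReal.ofReal (ε / d) := by gcongr
      _ = ENNReal.ofReal (d * (ε / d)) := (ENNReal.ofReal_mul hd0.le).symm
      _ = ENNReal.ofReal ε := by rw [mul_div_cancel₀ _ hd0.ne']
  have h6 := hmin _ hB1 h4
  have h7 : δ K = δ K' := eq_of h hK hK' hKK
  have h8 : δ (A ⁻¹' K1) = δ K1 := by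
    refine eq_of h hB1 hK1 (L := L) (p := p) ?_
    show K1 = A '' (A ⁻¹' K1)
    exact (Set.image_preimage_eq K1 (Function.RightInverse.surjective (g := B) hAB)).symm
  rw [← h7, ← h8]
  exact h6

/-- the values at local minimisers with at most `M + 4` vertices lie in a countable semialgebraic
set -/
theorem alg2 (h : Dens δ P) (hN : S_NZ) (hL : S_LO) (hC : S_CN) (M : ℕ) :
    ∃ T : Set ℝ, SAP (fun z : Unit → ℝ => z () ∈ T) ∧ T.Countable ∧
      ∀ v : Fin (M + 4) → V, (interior (hull v)).Nonempty → LocMin δ (hull v) →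
        (δ (hull v)).toReal ∈ T := by
  let κ : Type := Fin (M + 4) × Fin 3
  let f : (κ → ℝ) → ℝ := fun x => (δ (hull (pts x))).toReal
  let S : Set (κ → ℝ) := {x | Nm (pts x)}
  refine ⟨{t : ℝ | ∃ x ∈ S, f x = t ∧ ∃ ε : ℝ, 0 < ε ∧ ∀ y ∈ S,
      (∀ i, |y i - x i| < ε) → t ≤ f y}, ?_, hC κ S f, fun v hv hm => ?_⟩
  swap
  · obtain ⟨L, p, w, hw, hwe⟩ := hN M v hv
    have hwi := nm_int hw
    have hbw := hull_body hwi
    rw [eq_of h (hull_body hv) hbw hwe]
    obtain ⟨ε, hε, hmin⟩ := locMin_aff h (hull_body hv) hbw hwe hm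
    obtain ⟨η, hη, hlo⟩ := hL (M + 4) w hwi ε hε
    refine ⟨fun k => w k.1 k.2, hw, rfl, η, hη, fun y hy hxy => ?_⟩
    have hby := hull_body (nm_int hy)
    exact ENNReal.toReal_mono (h.lt_top _ hby).ne
      (hmin _ hby (hlo (pts y) fun i j => hxy (i, j)))
  -- the predicates
  have h0 := h.sap M
  have fnn : ∀ x, 0 ≤ f x := fun x => ENNReal.toReal_nonneg
  -- `t ≤ f x`
  have hle : SAP (fun z : κ ⊕ Unit → ℝ => Nm (pts fun k => z (Sum.inl k)) →
      z (Sum.inr ()) ≤ f (fun k => z (Sum.inl k))) := by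
    have h1 := h0.preimage (φ := fun (u : (κ ⊕ Unit) ⊕ Unit → ℝ) (k : κ ⊕ Unit) =>
      Sum.elim (fun a => u (Sum.inl (Sum.inl a))) (fun b => u (Sum.inr b)) k) (by
        intro k
        cases k with
        | inl a => exact PF.coord _
        | inr b => exact PF.coord _)
    have h2 : SAP (fun u : (κ ⊕ Unit) ⊕ Unit → ℝ => (0 ≤ u (Sum.inr ()) ∧
        u (Sum.inr ()) < u (Sum.inl (Sum.inr ()))) ) :=
      (SAP.le PF.zero (PF.coord _)).and (SAP.lt (PF.coord _) (PF.coord _))
    refine ((nm_sap (M := M) (fun k => (Sum.inl k : κ ⊕ Unit))).imp (fa (h2.imp h1))).congr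
      fun z => imp_congr_right fun hz => ?_
    have hbz := hull_body (nm_int hz)
    constructor
    · intro hle x hx
      refine ⟨hz, hx.1, (real_iff h hbz hx.1).2 (lt_of_lt_of_le hx.2 hle)⟩
    · intro hall
      by_contra hcon
      push Not at hcon
      have h3 := hall (fun _ => f (fun k => z (Sum.inl k))) ⟨fnn _, hcon⟩
      exact lt_irrefl _ ((real_iff h hbz (fnn _)).1 h3.2.2)
  -- `f x ≤ t`
  have hge : SAP (fun z : κ ⊕ Unit → ℝ => Nm (pts fun k => z (Sum.inl k)) →
      f (fun k => z (Sum.inl k)) ≤ z (Sum.inr ())) := by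
    refine ((nm_sap (M := M) (fun k => (Sum.inl k : κ ⊕ Unit))).imp
      ((SAP.le PF.zero (PF.coord (Sum.inr ()))).and h0.not)).congr
      fun z => imp_congr_right fun hz => ?_
    have hbz := hull_body (nm_int hz)
    constructor
    · intro hle
      have h3 : (0 : ℝ) ≤ z (Sum.inr ()) := (fnn _).trans hle
      exact ⟨h3, fun hh => absurd ((real_iff h hbz h3).1 hh.2.2) (not_lt.2 hle)⟩
    · rintro ⟨h3, h4⟩
      by_contra hcon
      push Not at hcon
      exact h4 ⟨hz, h3, (real_iff h hbz h3).2 hcon⟩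
  -- the inner universal statement, with variables `((t ⊕ x) ⊕ ε) ⊕ y`
  let J : Type := (Unit ⊕ κ) ⊕ Unit
  have hin : SAP (fun u : J ⊕ κ → ℝ => Nm (pts fun k => u (Sum.inr k)) →
      ((∀ i ∈ (Finset.univ : Finset κ),
        u (Sum.inr i) - u (Sum.inl (Sum.inl (Sum.inr i))) < u (Sum.inl (Sum.inr ())) ∧
        u (Sum.inl (Sum.inl (Sum.inr i))) - u (Sum.inr i) < u (Sum.inl (Sum.inr ()))) →
      u (Sum.inl (Sum.inl (Sum.inl ()))) ≤ f (fun k => u (Sum.inr k)))) := by
    have h1 := hle.preimage (φ := fun (u : J ⊕ κ → ℝ) (k : κ ⊕ Unit) =>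
      Sum.elim (fun a => u (Sum.inr a)) (fun _ => u (Sum.inl (Sum.inl (Sum.inl ())))) k) (by
        intro k
        cases k with
        | inl a => exact PF.coord _
        | inr b => exact PF.coord _)
    have h2 : SAP (fun u : J ⊕ κ → ℝ => ∀ i ∈ (Finset.univ : Finset κ),
        u (Sum.inr i) - u (Sum.inl (Sum.inl (Sum.inr i))) < u (Sum.inl (Sum.inr ())) ∧
        u (Sum.inl (Sum.inl (Sum.inr i))) - u (Sum.inr i) < u (Sum.inl (Sum.inr ()))) :=
      SAP.forall_mem _ fun i _ => (SAP.lt ((PF.coord _).sub (PF.coord _)) (PF.coord _)).and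
        (SAP.lt ((PF.coord _).sub (PF.coord _)) (PF.coord _))
    refine (h2.imp h1).congr fun u => ?_
    constructor
    · intro h3 h4 h5
      exact h3 h5 h4
    · intro h3 h4 h5
      exact h3 h5 h4
  have hall := fa hin
  have heps := ex ((SAP.lt PF.zero (PF.coord (Sum.inr ()))).and hall)
  have heq : SAP (fun u : Unit ⊕ κ → ℝ => (Nm (pts fun k => u (Sum.inr k)) →
      u (Sum.inl ()) ≤ f (fun k => u (Sum.inr k))) ∧ (Nm (pts fun k => u (Sum.inr k)) →
      f (fun k => u (Sum.inr k)) ≤ u (Sum.inl ()))) := by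
    exact (hle.preimage (φ := fun (u : Unit ⊕ κ → ℝ) (k : κ ⊕ Unit) => u k.swap)
      fun k => PF.coord _).and (hge.preimage
      (φ := fun (u : Unit ⊕ κ → ℝ) (k : κ ⊕ Unit) => u k.swap) fun k => PF.coord _)
  refine (ex ((nm_sap (M := M) (fun k => (Sum.inr k : Unit ⊕ κ))).and (heq.and heps))).congr
    fun z => ?_
  constructor
  · rintro ⟨x, hx, hfx, e, he, hy⟩
    refine ⟨x, hx, ⟨fun _ => hfx.ge, fun _ => hfx.le⟩, fun _ => e, he, fun y hyn hyy => ?_⟩
    refine hy y hyn fun i => ?_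
    have := hyy i (Finset.mem_univ _)
    exact abs_lt.2 ⟨by have := this.2; simp only [Sum.elim_inl, Sum.elim_inr] at this; linarith,
      by have := this.1; simp only [Sum.elim_inl, Sum.elim_inr] at this; linarith⟩
  · rintro ⟨x, hx, ⟨h1, h2⟩, e, he, hy⟩
    refine ⟨x, hx, le_antisymm (h2 hx) (h1 hx), e (), he, fun y hyn hyy => ?_⟩
    refine hy y hyn fun i _ => ?_
    have := abs_lt.1 (hyy i)
    simp only [Sum.elim_inl, Sum.elim_inr]
    constructor <;> linarith [this.1, this.2]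

end Pool.Agent.K4H47.AL
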