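import Pool.Agent.K4H47.AL.Spec2

/-!
# Attainment at algebraic polytopes, rate of convergence
-/

set_option autoImplicit false

namespace Pool.Agent.K4H47.AL

open MeasureTheory Filter Topology
open scoped ENNReal
open Pool.Agent.H349R2.Tet (V lat dt Ov)
open Pool.Agent.H581R2
open Pool.Agent.TH219.DL
open Pool.Agent.K4H47.MM

variable {δ : Set V → ℝ≥0∞} {P : Set V → ℝ → Prop}

theorem minset_sap (h : Dens δ P) (M : ℕ) :
    SAP (fun x : Fin (M + 4) × Fin 3 → ℝ => x ∈ MinSet δ M) := by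
  let κ : Type := Fin (M + 4) × Fin 3
  have h0 := h.sap M
  have h1 : SAP (fun u : κ ⊕ (κ ⊕ Unit) → ℝ => Nm (pts fun k => u (Sum.inl k)) ∧
      0 ≤ u (Sum.inr (Sum.inr ())) ∧
      P (hull (pts fun k => u (Sum.inl k))) (u (Sum.inr (Sum.inr ())))) :=
    h0.preimage (φ := fun (u : κ ⊕ (κ ⊕ Unit) → ℝ) (k : κ ⊕ Unit) =>
      Sum.elim (fun a => u (Sum.inl a)) (fun b => u (Sum.inr (Sum.inr b))) k) (by
        intro k
        cases k with
        | inl a => exact PF.coord _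
        | inr b => exact PF.coord _)
  have h2 : SAP (fun u : κ ⊕ (κ ⊕ Unit) → ℝ => Nm (pts fun k => u (Sum.inr (Sum.inl k))) ∧
      0 ≤ u (Sum.inr (Sum.inr ())) ∧
      P (hull (pts fun k => u (Sum.inr (Sum.inl k)))) (u (Sum.inr (Sum.inr ())))) :=
    h0.preimage (φ := fun (u : κ ⊕ (κ ⊕ Unit) → ℝ) (k : κ ⊕ Unit) => u (Sum.inr k)) (by
        intro k
        exact PF.coord _)
  have h3 : SAP (fun u : κ ⊕ (κ ⊕ Unit) → ℝ => Nm (pts fun k => u (Sum.inr (Sum.inl k)))) :=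
    nm_sap (M := M) (fun k => (Sum.inr (Sum.inl k) : κ ⊕ (κ ⊕ Unit)))
  refine ((nm_sap (M := M) (fun k => k)).and (fa (h3.imp (h1.imp h2)))).congr fun x => ?_
  constructor
  · rintro ⟨hx, hall⟩
    refine ⟨hx, fun z hz ht => ?_⟩
    have hxy := hall (fun k => z (Sum.inl k)) hz
    have h4 := (h.iff _ (hull_body (nm_int hx)) _ ht.2.1).2 ht.2.2
    exact ⟨hz, ht.2.1, (h.iff _ (hull_body (nm_int hz)) _ ht.2.1).1 (h4.trans_le hxy)⟩
  · rintro ⟨hx, hall⟩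
    refine ⟨hx, fun y hy => ?_⟩
    refine le_of h (hull_body (nm_int hx)) (hull_body (nm_int hy)) fun r hr hP => ?_
    exact (hall (Sum.elim y fun _ => r) hy ⟨hx, hr, hP⟩).2.2

theorem attained (h : Dens δ P) (hN : S_NZ) (hX : S_LEX) {M : ℕ}
    (hc : IsCompact (MinSet δ M) ∧ (MinSet δ M).Nonempty) :
    ∃ v : Fin (M + 4) → V, (interior (hull v)).Nonempty ∧ (∀ i j, IsAlgebraic ℚ (v i j)) ∧
      δ (hull v) = least δ (M + 4) := by
  obtain ⟨x, hx, hal⟩ := hX _ (MinSet δ M) (minset_sap h M) hc.1 hc.2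
  refine ⟨pts x, nm_int hx.1, fun i j => hal (i, j), le_antisymm ?_ ?_⟩
  · refine le_iInf fun v => le_iInf fun hv => ?_
    obtain ⟨L, p, w, hw, hwe⟩ := hN M v hv
    rw [eq_of h (hull_body hv) (hull_body (nm_int hw)) hwe]
    exact hx.2 (fun k => w k.1 k.2) hw
  · exact iInf_le_of_le (pts x) (iInf_le _ (nm_int hx.1))

theorem hull_le (h : Dens δ P) (hm : Mono P) {K : Set V} (hK : Body K) {n : ℕ} {v : Fin n → V}
    (hsub : K ⊆ hull v) (hv : (interior (hull v)).Nonempty) {c : ℝ} (hc : 0 < c)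
    (hvol : (volume (hull v)).toReal ≤ c * (volume K).toReal) :
    δ (hull v) ≤ ENNReal.ofReal c * δ K := by
  have hfin := h.lt_top _ (hull_body hv)
  have h0 : 0 ≤ c * (δ K).toReal := by positivity
  have h1 : δ (hull v) ≤ ENNReal.ofReal (c * (δ K).toReal) := by
    rw [ENNReal.le_ofReal_iff_toReal_le hfin.ne h0]
    by_contra hcon
    push Not at hcon
    have h3 := (real_iff h (hull_body hv) h0).2 hcon
    have h4 := hm K (hull v) hsub c hc hvol _ h3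
    rw [mul_div_cancel_left₀ _ hc.ne'] at h4
    exact lt_irrefl _ ((real_iff h hK ENNReal.toReal_nonneg).1 h4)
  rwa [ENNReal.ofReal_mul hc.le, ENNReal.ofReal_toReal (h.lt_top K hK).ne] at h1

theorem rate (h : Dens δ P) (hm : Mono P) (hB : S_NB) (hG : S_GR) {k : ℕ} (hk : 0 < k) :
    least δ ((2 * k + 1) ^ 3) ≤ ENNReal.ofReal ((1 + 12 / (k : ℝ)) ^ 3) * mn δ := by
  have hc : (0 : ℝ) < (1 + 12 / (k : ℝ)) ^ 3 := by positivity
  have hc0 : ENNReal.ofReal ((1 + 12 / (k : ℝ)) ^ 3) ≠ 0 := by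
    rw [Ne, ENNReal.ofReal_eq_zero, not_le]
    exact hc
  rw [mul_comm (ENNReal.ofReal ((1 + 12 / (k : ℝ)) ^ 3)),
    ← ENNReal.div_le_iff_le_mul (Or.inl hc0) (Or.inl ENNReal.ofReal_ne_top)]
  refine le_iInf fun K => le_iInf fun hK => ?_
  rw [ENNReal.div_le_iff_le_mul (Or.inl hc0) (Or.inl ENNReal.ofReal_ne_top),
    mul_comm (δ K)]
  obtain ⟨L, p, hNB⟩ := hB K hK
  obtain ⟨v, hsub, hv, hvol⟩ := hG _ hNB k hk
  rw [eq_of h hK hNB.1 rfl]
  exact (iInf_le_of_le v (iInf_le _ hv)).trans (hull_le h hm hNB.1 hsub hv hc hvol)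

end Pool.Agent.K4H47.AL
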