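import Pool.Agent.K4H47.AL.Spec

set_option autoImplicit false

namespace Pool.Agent.K4H47.AL

/-- [CN] a function has countably many local minimum values -/
theorem cn : S_CN := by
  intro κ _ S f
  let T : (κ → ℚ) × ℕ → Set ℝ := fun p =>
    {t : ℝ | ∃ x ∈ S, f x = t ∧ (∀ i, |(p.1 i : ℝ) - x i| < 1 / ((p.2 : ℝ) + 1)) ∧
      ∀ y ∈ S, (∀ i, |y i - x i| < 2 / ((p.2 : ℝ) + 1)) → t ≤ f y}
  have hT : ∀ p, (T p).Subsingleton := by
    have key : ∀ p, ∀ t₁ ∈ T p, ∀ t₂ ∈ T p, t₁ ≤ t₂ := by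
      rintro p t₁ ⟨x₁, hx₁, -, hq₁, hm₁⟩ t₂ ⟨x₂, hx₂, ht₂, hq₂, -⟩
      rw [← ht₂]
      refine hm₁ x₂ hx₂ fun i => ?_
      have h1 := hq₁ i
      have h2 := hq₂ i
      have h3 : x₂ i - x₁ i = ((p.1 i : ℝ) - x₁ i) - ((p.1 i : ℝ) - x₂ i) := by ring
      rw [h3]
      refine (abs_sub _ _).trans_lt ?_
      have h4 : (2 : ℝ) / ((p.2 : ℝ) + 1) = 1 / ((p.2 : ℝ) + 1) + 1 / ((p.2 : ℝ) + 1) := by ring
      rw [h4]
      exact add_lt_add h1 h2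
    intro p t₁ h₁ t₂ h₂
    exact le_antisymm (key p t₁ h₁ t₂ h₂) (key p t₂ h₂ t₁ h₁)
  have hU : (⋃ p, T p).Countable := Set.countable_iUnion fun p => (hT p).countable
  refine hU.mono ?_
  rintro t ⟨x, hx, hf, ε, hε, hm⟩
  obtain ⟨n, hn⟩ := exists_nat_gt (2 / ε)
  have hn1 : (0 : ℝ) < (n : ℝ) + 1 := by positivity
  have h2 : 2 / ((n : ℝ) + 1) < ε := by
    rw [div_lt_iff₀ hn1]
    rw [div_lt_iff₀ hε] at hn
    nlinarith
  have hq : ∀ i, ∃ q : ℚ, |(q : ℝ) - x i| < 1 / ((n : ℝ) + 1) := by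
    intro i
    obtain ⟨q, h3, h4⟩ := exists_rat_btwn (show x i < x i + 1 / ((n : ℝ) + 1) by
      have : (0 : ℝ) < 1 / ((n : ℝ) + 1) := by positivity
      linarith)
    refine ⟨q, ?_⟩
    rw [abs_lt]
    have : (0 : ℝ) < 1 / ((n : ℝ) + 1) := by positivity
    constructor <;> linarith
  choose q hq using hq
  refine Set.mem_iUnion.2 ⟨(q, n), x, hx, hf, hq, fun y hy hyx => ?_⟩
  exact hm y hy fun i => (hyx i).trans h2

end Pool.Agent.K4H47.AL
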