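import Pool.Agent.K4H47.AL.Spec2

/-!
# The set of minimisers among the normalised points is compact and nonempty
-/

set_option autoImplicit false

namespace Pool.Agent.K4H47.AL

open MeasureTheory Filter Topology
open scoped ENNReal
open Pool.Agent.H349R2.Tet (V lat dt Ov)
open Pool.Agent.H581R2
open Pool.Agent.TH219.DL
open Pool.Agent.K4H47.MM

/-- the normalised points, as coordinates -/
def NmSet (M : ℕ) : Set (Fin (M + 4) × Fin 3 → ℝ) := {x | Nm (pts x)}

theorem nmSet_compact (M : ℕ) : IsCompact (NmSet M) := by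
  have hc : ∀ i : Fin (M + 4), Continuous fun x : Fin (M + 4) × Fin 3 → ℝ => pts x i := fun i =>
    continuous_pi fun j => continuous_apply (i, j)
  have hcl : IsClosed (NmSet M) := by
    unfold NmSet Nm
    simp only [Set.ofPred_and, Set.ofPred_forall]
    refine (isClosed_eq (hc 0) continuous_const).inter ((isClosed_eq (hc 1) continuous_const).inter
      ((isClosed_eq (hc 2) continuous_const).inter ((isClosed_eq (hc 3) continuous_const).inter
      (isClosed_iInter fun i => isClosed_iInter fun j => ?_))))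
    exact isClosed_le (((continuous_apply j).comp (hc i)).abs) continuous_const
  refine (isCompact_closedBall (0 : Fin (M + 4) × Fin 3 → ℝ) 1).of_isClosed_subset hcl fun x hx => ?_
  rw [mem_closedBall_zero_iff, pi_norm_le_iff_of_nonneg zero_le_one]
  rintro ⟨i, j⟩
  exact hx.2.2.2.2 i j

theorem nmSet_nonempty (M : ℕ) : (NmSet M).Nonempty := by
  let w : Fin (M + 4) → V := fun i => if (i : ℕ) = 1 then Pi.single 0 1 else
    if (i : ℕ) = 2 then Pi.single 1 1 else if (i : ℕ) = 3 then Pi.single 2 1 else 0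
  refine ⟨fun k => w k.1 k.2, ?_⟩
  show Nm w
  have v1 : ((1 : Fin (M + 4)) : ℕ) = 1 := rfl
  have v2 : ((2 : Fin (M + 4)) : ℕ) = 2 := Nat.mod_eq_of_lt (show 2 < M + 4 by omega)
  have v3 : ((3 : Fin (M + 4)) : ℕ) = 3 := Nat.mod_eq_of_lt (show 3 < M + 4 by omega)
  have hs : ∀ k j : Fin 3, |(Pi.single k (1 : ℝ) : Fin 3 → ℝ) j| ≤ 1 := by
    intro k j
    by_cases h : j = k
    · subst h; simp
    · rw [Pi.single_eq_of_ne h]; simp
  refine ⟨?_, ?_, ?_, ?_, fun i j => ?_⟩
  · simp [w]
  · simp only [w, v1, if_true]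
  · simp only [w, v2]
    norm_num
  · simp only [w, v3]
    norm_num
  · simp only [w]
    split_ifs
    · exact hs _ _
    · exact hs _ _
    · exact hs _ _
    · simp

variable {δ : Set V → ℝ≥0∞} {P : Set V → ℝ → Prop}

/-- lower semicontinuity in terms of balls -/
theorem lsc_ball (h : Dens δ P) (h1 : S_LSC P) {M : ℕ} {x : Fin (M + 4) × Fin 3 → ℝ}
    (hx : Nm (pts x)) {r : ℝ} (hr : 0 ≤ r) (hrx : r < (δ (hull (pts x))).toReal) :
    ∃ η : ℝ, 0 < η ∧ ∀ y : Fin (M + 4) × Fin 3 → ℝ, Nm (pts y) → y ∈ Metric.ball x η →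
      r < (δ (hull (pts y))).toReal := by
  obtain ⟨η, hη, hw⟩ := h1 M (pts x) hx r hr ((real_iff h (hull_body (nm_int hx)) hr).2 hrx)
  refine ⟨η, hη, fun y hy hyx => ?_⟩
  refine (real_iff h (hull_body (nm_int hy)) hr).1 (hw (pts y) hy fun i j => ?_)
  have h2 : dist (y (i, j)) (x (i, j)) ≤ dist y x := dist_le_pi_dist y x (i, j)
  rw [Metric.mem_ball] at hyx
  rw [Real.dist_eq] at h2
  exact h2.trans_lt hyx

theorem cpt (h : Dens δ P) (h1 : S_LSC P) (M : ℕ) :
    IsCompact (MinSet δ M) ∧ (MinSet δ M).Nonempty := by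
  have hfin : ∀ x ∈ NmSet M, δ (hull (pts x)) ≠ ⊤ := fun x hx =>
    (h.lt_top _ (hull_body (nm_int hx))).ne
  constructor
  · refine (nmSet_compact M).of_isClosed_subset ?_ fun x hx => hx.1
    rw [← isOpen_compl_iff, isOpen_iff_mem_nhds]
    intro x hx
    by_cases hxN : x ∈ NmSet M
    · have hy : ∃ y : Fin (M + 4) × Fin 3 → ℝ, Nm (pts y) ∧ δ (hull (pts y)) < δ (hull (pts x)) := by
        by_contra hcon
        push Not at hcon
        exact hx ⟨hxN, hcon⟩
      obtain ⟨y, hy, hlt⟩ := hy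
      obtain ⟨η, hη, hb⟩ := lsc_ball h h1 hxN (r := (δ (hull (pts y))).toReal)
        ENNReal.toReal_nonneg (ENNReal.toReal_strict_mono (hfin x hxN) hlt)
      refine Filter.mem_of_superset (Metric.ball_mem_nhds x hη) fun z hz hzM => ?_
      have h2 := hb z hzM.1 hz
      have h3 := ENNReal.toReal_mono (hfin y hy) (hzM.2 y hy)
      exact absurd h2 (not_lt.2 h3)
    · refine Filter.mem_of_superset ((nmSet_compact M).isClosed.isOpen_compl.mem_nhds hxN)
        fun z hz hzM => hz hzM.1
  · have hlsc : LowerSemicontinuousOn (fun x => (δ (hull (pts x))).toReal) (NmSet M) := by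
      intro x hx r hr
      rcases lt_or_ge r 0 with h0 | h0
      · exact Filter.Eventually.of_forall fun z => h0.trans_le ENNReal.toReal_nonneg
      · obtain ⟨η, hη, hb⟩ := lsc_ball h h1 hx h0 hr
        filter_upwards [self_mem_nhdsWithin, mem_nhdsWithin_of_mem_nhds (Metric.ball_mem_nhds x hη)]
          with z hz hzb
        exact hb z hz hzb
    obtain ⟨x, hx, hmin⟩ := hlsc.exists_isMinOn (nmSet_nonempty M) (nmSet_compact M)
    refine ⟨x, hx, fun y hy => ?_⟩
    have h2 : (δ (hull (pts x))).toReal ≤ (δ (hull (pts y))).toReal := hmin hy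
    exact (ENNReal.toReal_le_toReal (hfin x hx) (hfin y hy)).1 h2

end Pool.Agent.K4H47.AL
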