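import Pool.Agent.K4H47.AL.Spec2

/-!
# Approximation of normalised bodies by hulls of grid points
-/

set_option autoImplicit false

namespace Pool.Agent.K4H47.AL

open MeasureTheory
open scoped ENNReal
open Pool.Agent.H349R2.Tet (V lat dt Ov)
open Pool.Agent.H581R2
open Pool.Agent.TH219.DL
open Pool.Agent.K4H47.MM

/-- the ball around `(1/4, 1/4, 1/4)` in a normalised body -/
theorem GRa.nb_ball {K : Set V} (hK : NB K) {p : V} (hp : ∀ j, |p j - 1 / 4| ≤ 1 / 12) : p ∈ K := by
  obtain ⟨⟨-, hconv, -⟩, e0, e1, e2, e3, -⟩ := hK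
  have h0 := abs_le.1 (hp 0)
  have h1 := abs_le.1 (hp 1)
  have h2 := abs_le.1 (hp 2)
  have h3 : ∑ i : Fin 4, (![1 - p 0 - p 1 - p 2, p 0, p 1, p 2] i) •
      (![(0 : V), Pi.single 0 1, Pi.single 1 1, Pi.single 2 1] i) ∈ K := by
    refine hconv.sum_mem ?_ ?_ ?_
    · intro i _
      fin_cases i <;> simp <;> linarith
    · rw [Fin.sum_univ_four]
      simp
      ring
    · intro i _
      fin_cases i
      · exact e0
      · exact e1
      · exact e2
      · exact e3
  convert h3 using 1
  rw [Fin.sum_univ_four]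
  funext j
  fin_cases j <;> simp

/-- the grid points -/
noncomputable def GRa.gpt (k : ℕ) (g : Fin 3 → Fin (2 * k + 1)) : V := fun j => ((g j : ℝ) - k) / k

/-- [GR] approximation of normalised bodies by hulls of grid points -/
theorem gr : S_GR := by
  classical
  intro K hNB k hk
  have hk0 : (0 : ℝ) < k := by exact_mod_cast hk
  have hball := fun (p : V) (hp : ∀ j, |p j - 1 / 4| ≤ 1 / 12) => GRa.nb_ball hNB hp
  obtain ⟨⟨hc, hconv, c0, hc0⟩, e0, e1, e2, e3, hle⟩ := hNB
  let v : Fin ((2 * k + 1) ^ 3) → V := fun i =>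
    if ∃ x ∈ K, ∀ j, |GRa.gpt k (finFunctionFinEquiv.symm i) j - x j| ≤ 1 / k then
      GRa.gpt k (finFunctionFinEquiv.symm i) else 0
  have hv : ∀ i, ∃ x ∈ K, ∀ j, |v i j - x j| ≤ 1 / k := by
    intro i
    by_cases h : ∃ x ∈ K, ∀ j, |GRa.gpt k (finFunctionFinEquiv.symm i) j - x j| ≤ 1 / k
    · have : v i = GRa.gpt k (finFunctionFinEquiv.symm i) := if_pos h
      rw [this]
      exact h
    · have : v i = 0 := if_neg h
      rw [this]
      refine ⟨0, e0, fun j => ?_⟩
      simp
  have hvg : ∀ (g : Fin 3 → Fin (2 * k + 1)) (x : V), x ∈ K → (∀ j, |GRa.gpt k g j - x j| ≤ 1 / k) →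
      GRa.gpt k g ∈ hull v := by
    intro g x hx hg
    have h1 : v (finFunctionFinEquiv g) = GRa.gpt k g := by
      have h2 : ∃ x ∈ K, ∀ j, |GRa.gpt k (finFunctionFinEquiv.symm (finFunctionFinEquiv g)) j - x j| ≤
          1 / k := by
        rw [Equiv.symm_apply_apply]
        exact ⟨x, hx, hg⟩
      show (if ∃ x ∈ K, ∀ j, |GRa.gpt k (finFunctionFinEquiv.symm (finFunctionFinEquiv g)) j - x j| ≤
          1 / k then GRa.gpt k (finFunctionFinEquiv.symm (finFunctionFinEquiv g)) else 0) = _
      rw [if_pos h2, Equiv.symm_apply_apply]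
    rw [← h1]
    exact subset_convexHull ℝ _ ⟨_, rfl⟩
  have hKh : K ⊆ hull v := by
    intro x hx
    have hfl : ∀ j, ∃ m : ℕ, m + 1 < 2 * k + 1 ∧ ((m : ℝ) - k) / k ≤ x j ∧
        x j ≤ ((m : ℝ) + 1 - k) / k := by
      intro j
      have h1 := abs_le.1 (hle x hx j)
      have h2 : 0 ≤ k * (x j + 1) := mul_nonneg hk0.le (by linarith)
      by_cases h3 : x j = 1
      · refine ⟨2 * k - 1, by omega, ?_, ?_⟩
        · rw [h3, div_le_one hk0]
          have : ((2 * k - 1 : ℕ) : ℝ) = 2 * k - 1 := by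
            rw [Nat.cast_sub (by omega)]
            push_cast
            ring
          rw [this]
          linarith
        · rw [h3, one_le_div hk0]
          have : ((2 * k - 1 : ℕ) : ℝ) = 2 * k - 1 := by
            rw [Nat.cast_sub (by omega)]
            push_cast
            ring
          rw [this]
          linarith
      · have h4 : x j < 1 := lt_of_le_of_ne h1.2 h3
        have h5 : ⌊(k : ℝ) * (x j + 1)⌋₊ < 2 * k := by
          rw [Nat.floor_lt h2]
          push_cast
          nlinarith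
        have h6 := Nat.floor_le h2
        have h7 := Nat.lt_floor_add_one ((k : ℝ) * (x j + 1))
        refine ⟨⌊(k : ℝ) * (x j + 1)⌋₊, by omega, ?_, ?_⟩
        · rw [div_le_iff₀ hk0]
          nlinarith
        · rw [le_div_iff₀ hk0]
          nlinarith
    choose m hm1 hm2 hm3 using hfl
    have hcube : x ∈ convexHull ℝ (Set.pi Set.univ fun j =>
        ({((m j : ℝ) - k) / k, ((m j : ℝ) + 1 - k) / k} : Set ℝ)) := by
      rw [convexHull_pi]
      intro j _
      show x j ∈ convexHull ℝ ({((m j : ℝ) - k) / k, ((m j : ℝ) + 1 - k) / k} : Set ℝ)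
      rw [convexHull_pair, segment_eq_Icc ((hm2 j).trans (hm3 j))]
      exact ⟨hm2 j, hm3 j⟩
    refine convexHull_min ?_ (convex_convexHull ℝ _) hcube
    intro y hy
    have hy' : ∀ j, ∃ a : Fin (2 * k + 1), y j = ((a : ℝ) - k) / k ∧ |y j - x j| ≤ 1 / k := by
      intro j
      have hd : ((m j : ℝ) + 1 - k) / k - ((m j : ℝ) - k) / k = 1 / k := by ring
      rcases hy j (Set.mem_univ _) with h | h
      · refine ⟨⟨m j, by have := hm1 j; omega⟩, h, ?_⟩
        rw [h, abs_le]
        constructor <;> linarith [hm2 j, hm3 j, hd, div_pos one_pos hk0]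
      · have h : y j = ((m j : ℝ) + 1 - k) / k := h
        refine ⟨⟨m j + 1, hm1 j⟩, by rw [h]; push_cast; ring, ?_⟩
        rw [h, abs_le]
        constructor <;> linarith [hm2 j, hm3 j, hd, div_pos one_pos hk0]
    choose g hg1 hg2 using hy'
    have h1 : GRa.gpt k g = y := by
      funext j
      exact (hg1 j).symm
    rw [← h1]
    refine hvg g x hx fun j => ?_
    rw [h1]
    exact hg2 j
  set c : V := fun _ => 1 / 4 with hcdef
  set l : ℝ := 1 + 12 / k with hl
  have hl0 : 0 < l := by positivity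
  have hhK : hull v ⊆ AffineMap.homothety c l '' K := by
    refine convexHull_min ?_ (hconv.affine_image _)
    rintro _ ⟨i, rfl⟩
    obtain ⟨x, hx, hxi⟩ := hv i
    have hq : (c + (k / 12 : ℝ) • (v i - x) : V) ∈ K := by
      refine hball _ fun j => ?_
      have h1 : (c + (k / 12 : ℝ) • (v i - x) : V) j - 1 / 4 = k / 12 * (v i j - x j) := by
        simp [hcdef]
      rw [h1, abs_mul, abs_of_pos (by positivity)]
      calc k / 12 * |v i j - x j| ≤ k / 12 * (1 / k) :=
            mul_le_mul_of_nonneg_left (hxi j) (by positivity)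
        _ = 1 / 12 := by field_simp
    refine ⟨(1 / l) • x + (12 / k / l) • (c + (k / 12 : ℝ) • (v i - x)),
      hconv hx hq (by positivity) (by positivity) ?_, ?_⟩
    · rw [← add_div, ← hl, div_self hl0.ne']
    · rw [AffineMap.homothety_apply]
      funext j
      simp only [vsub_eq_sub, vadd_eq_add, Pi.add_apply, Pi.smul_apply, Pi.sub_apply, smul_eq_mul]
      have hl' : l ≠ 0 := hl0.ne'
      have hk' : (k : ℝ) ≠ 0 := hk0.ne'
      have h3 : (12 / k : ℝ) = l - 1 := by rw [hl]; ring
      have h4 : (k / 12 : ℝ) = 1 / (l - 1) := by rw [← h3]; field_simp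
      have h5 : l - 1 ≠ 0 := by rw [← h3]; positivity
      rw [h3, h4]
      field_simp
      ring
  refine ⟨v, hKh, ⟨c0, interior_mono hKh hc0⟩, ?_⟩
  have hvol : volume (AffineMap.homothety c l '' K) = ENNReal.ofReal (l ^ 3) * volume K := by
    rw [Measure.addHaar_image_homothety, Module.finrank_fin_fun, abs_of_nonneg (by positivity)]
  have hfin : volume K ≠ ⊤ := hc.measure_lt_top.ne
  have h1 : (volume (hull v)).toReal ≤ (volume (AffineMap.homothety c l '' K)).toReal := by
    refine ENNReal.toReal_mono ?_ (measure_mono hhK)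
    rw [hvol]
    exact ENNReal.mul_ne_top ENNReal.ofReal_ne_top hfin
  rw [hvol, ENNReal.toReal_mul, ENNReal.toReal_ofReal (by positivity)] at h1
  exact h1

end Pool.Agent.K4H47.AL
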