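import Pool.Agent.K4H47.AL.Spec2
import Pool.Agent.K4H47.AL.ALg

set_option autoImplicit false

namespace Pool.Agent.K4H47.AL

open MeasureTheory
open scoped ENNReal
open Pool.Agent.H349R2.Tet (V lat dt Ov)
open Pool.Agent.H581R2

/-- [LEX] compact semialgebraic sets contain points with algebraic coordinates -/
theorem lex : S_LEX := by
  intro κ _ S hS hc hn
  classical
  have hft := Fintype.ofFinite κ
  have key : ∀ s : Finset κ, ∃ T : Set (κ → ℝ), T ⊆ S ∧ SAP (fun z : κ → ℝ => z ∈ T) ∧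
      IsCompact T ∧ T.Nonempty ∧ ∀ i ∈ s, ∀ x ∈ T, IsAlgebraic ℚ (x i) := by
    intro s
    induction s using Finset.induction_on with
    | empty => exact ⟨S, subset_rfl, hS, hc, hn, by simp⟩
    | insert i s _ ih =>
      obtain ⟨T, hTS, hT, hTc, hTn, hTa⟩ := ih
      obtain ⟨x0, hx0, hmin⟩ := hTc.exists_isMinOn hTn
        (f := fun x : κ → ℝ => x i) (continuous_apply i).continuousOn
      let U : Set (κ → ℝ) := {x | x ∈ T ∧ ∀ y : κ → ℝ, y ∈ T → x i ≤ y i}
      have hU0 : x0 ∈ U := ⟨hx0, fun y hy => hmin hy⟩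
      have hUeq : U = T ∩ {x | x i ≤ x0 i} := by
        ext x
        constructor
        · rintro ⟨h1, h2⟩
          exact ⟨h1, h2 x0 hx0⟩
        · rintro ⟨h1, h2⟩
          exact ⟨h1, fun y hy => le_trans h2 (hmin hy)⟩
      have hUc : IsCompact U := by
        rw [hUeq]
        exact hTc.inter_right (isClosed_le (continuous_apply i) continuous_const)
      have hUS : SAP (fun z : κ → ℝ => z ∈ U) := by
        have h1 : SAP (fun z : κ ⊕ κ → ℝ => (fun k => z (Sum.inr k)) ∈ T →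
            z (Sum.inl i) ≤ z (Sum.inr i)) :=
          (hT.preimage (φ := fun (z : κ ⊕ κ → ℝ) k => z (Sum.inr k)) fun k => PF.coord _).imp
            (SAP.le (PF.coord _) (PF.coord _))
        exact SAP.congr (hT.and (fa h1)) fun v => Iff.rfl
      have hval : IsAlgebraic ℚ (x0 i) := by
        have h2 : SAP (fun t : Unit → ℝ => ∃ x : κ → ℝ, x ∈ U ∧ x i = t ()) :=
          ex (p := fun z : Unit ⊕ κ → ℝ => (fun k => z (Sum.inr k)) ∈ U ∧
            z (Sum.inr i) = z (Sum.inl ()))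
            ((hUS.preimage (φ := fun (z : Unit ⊕ κ → ℝ) k => z (Sum.inr k))
              fun k => PF.coord _).and (SAP.eq (PF.coord _) (PF.coord _)))
        refine alg.1 {t | ∃ x : κ → ℝ, x ∈ U ∧ x i = t} h2 ?_ _ ⟨x0, hU0, rfl⟩
        refine Set.Subsingleton.countable ?_
        rintro _ ⟨x, hx, rfl⟩ _ ⟨y, hy, rfl⟩
        exact le_antisymm (hx.2 y hy.1) (hy.2 x hx.1)
      refine ⟨U, fun x hx => hTS hx.1, hUS, hUc, ⟨x0, hU0⟩, ?_⟩
      intro j hj x hx
      rcases Finset.mem_insert.1 hj with rfl | hj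
      · have h3 : x j = x0 j := le_antisymm (hx.2 x0 hx0) (hU0.2 x hx.1)
        rw [h3]
        exact hval
      · exact hTa j hj x hx.1
  obtain ⟨T, hTS, -, -, ⟨x, hx⟩, ha⟩ := key Finset.univ
  exact ⟨x, hTS hx, fun i => ha i (Finset.mem_univ i) x hx⟩

end Pool.Agent.K4H47.AL
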