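import Pool.Agent.K4H47.AL.Spec2
import Pool.Agent.K4H47.AL.LO
import Pool.Agent.K4H47.AL.FL

/-!
# Lower semicontinuity of the densities on the normalised polytopes
-/

set_option autoImplicit false

namespace Pool.Agent.K4H47.AL

open MeasureTheory Filter Topology
open scoped ENNReal
open Pool.Agent.H349R2.Tet (V lat dt Ov)
open Pool.Agent.H581R2
open Pool.Agent.TH219.DL
open Pool.Agent.K4H47.MM

namespace LSCaux

/-- the homothety as an affine map -/
theorem homothety_eq (c : V) {s : ℝ} (hs : s ≠ 0) :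
    ∃ (L : V ≃ₗ[ℝ] V) (p : V), ∀ x, AffineMap.homothety c s x = L x + p := by
  refine ⟨LinearEquiv.smulOfNeZero ℝ V s hs, c - s • c, fun x => ?_⟩
  rw [AffineMap.homothety_apply, LinearEquiv.smulOfNeZero_apply]
  ext j
  simp only [vsub_eq_sub, vadd_eq_add, Pi.add_apply, Pi.smul_apply, Pi.sub_apply, smul_eq_mul]
  ring

theorem vol_homothety (K : Set V) (c : V) {s : ℝ} (hs : 0 < s) :
    (volume (AffineMap.homothety c s '' K)).toReal = s ^ 3 * (volume K).toReal := by
  rw [Measure.addHaar_image_homothety, ENNReal.toReal_mul]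
  have hfr : Module.finrank ℝ V = 3 := by
    show Module.finrank ℝ (Fin 3 → ℝ) = 3
    rw [Module.finrank_fin_fun]
  rw [hfr, abs_of_pos (by positivity), ENNReal.toReal_ofReal (by positivity)]

theorem closedBall_sub {M : ℕ} {w : Fin (M + 4) → V} (hw : Nm w) :
    Metric.closedBall (fun _ => 1 / 4 : V) (1 / 24) ⊆ hull w :=
  (Metric.closedBall_subset_ball (by norm_num)).trans (ball_sub_hull hw)

end LSCaux

open LSCaux in
theorem lsc {δ : Set V → ℝ≥0∞} {P : Set V → ℝ → Prop} (h : Dens δ P) (hm : Mono P) :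
    S_LSC P := by
  intro M w hw r hr hP
  have hb := hull_body (nm_int hw)
  have h1 : r < (δ (hull w)).toReal := (real_iff h hb hr).1 hP
  obtain ⟨r1, hr1, hr2⟩ := exists_between h1
  have hr10 : 0 ≤ r1 := hr.trans hr1.le
  have hP1 : P (hull w) r1 := (real_iff h hb hr10).2 hr2
  obtain ⟨θ, hθr, hθ⟩ : ∃ θ : ℝ, (1 + θ) ^ 6 * r < r1 ∧ 0 < θ := by
    have hc : Tendsto (fun θ : ℝ => (1 + θ) ^ 6 * r) (𝓝[>] 0) (𝓝 ((1 + 0) ^ 6 * r)) := by
      have hc1 : Continuous (fun θ : ℝ => (1 + θ) ^ 6 * r) := by fun_prop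
      exact (hc1.tendsto 0).mono_left nhdsWithin_le_nhds
    have h2 : ((1 : ℝ) + 0) ^ 6 * r < r1 := by simpa using hr1
    exact ((hc.eventually_lt_const h2).and self_mem_nhdsWithin).exists
  have hs : (0 : ℝ) < 1 + θ := by linarith
  refine ⟨θ * (1 / 24), by positivity, fun w' hw' hd => ?_⟩
  have hb' := hull_body (nm_int hw')
  have hn : ∀ i, ‖w' i - w i‖ ≤ θ * (1 / 24) := by
    intro i
    rw [pi_norm_le_iff_of_nonneg (by positivity)]
    intro j
    rw [Real.norm_eq_abs, Pi.sub_apply]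
    exact (hd i j).le
  have hn' : ∀ i, ‖w i - w' i‖ ≤ θ * (1 / 24) := by
    intro i
    rw [norm_sub_rev]
    exact hn i
  have ho1 := LOaux.outer (by norm_num) hθ (closedBall_sub hw) hn
  have ho2 := LOaux.outer (by norm_num) hθ (closedBall_sub hw') hn'
  set c : V := fun _ => 1 / 4 with hc
  have hfin : ∀ {n : ℕ} (v : Fin n → V), volume (AffineMap.homothety c (1 + θ) '' hull v) ≠ ∞ := by
    intro n v
    exact ((hull_compact v).image
      (AffineMap.homothety c (1 + θ)).continuous_of_finiteDimensional).measure_lt_top.ne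
  have hv1 : (volume (hull w)).toReal ≤ (1 + θ) ^ 3 * (volume (hull w')).toReal := by
    rw [← vol_homothety (hull w') c hs]
    exact ENNReal.toReal_mono (hfin w') (measure_mono ho2)
  have hv2 : (volume (AffineMap.homothety c (1 + θ) '' hull w)).toReal ≤
      (1 + θ) ^ 6 * (volume (hull w')).toReal := by
    rw [vol_homothety (hull w) c hs]
    calc (1 + θ) ^ 3 * (volume (hull w)).toReal
        ≤ (1 + θ) ^ 3 * ((1 + θ) ^ 3 * (volume (hull w')).toReal) := by gcongr
      _ = (1 + θ) ^ 6 * (volume (hull w')).toReal := by ring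
  obtain ⟨L, p, hLp⟩ := homothety_eq c hs.ne'
  have himg : AffineMap.homothety c (1 + θ) '' hull w = (fun x => L x + p) '' hull w :=
    Set.image_congr fun x _ => hLp x
  have hP2 : P (AffineMap.homothety c (1 + θ) '' hull w) r1 := by
    rw [himg]
    exact h.aff _ L p r1 hP1
  have hP3 := hm (hull w') _ ho1 ((1 + θ) ^ 6) (by positivity) hv2 r1 hP2
  have h3 := (real_iff h hb' (by positivity)).1 hP3
  refine (real_iff h hb' hr).2 (lt_of_le_of_lt ?_ h3)
  rw [le_div_iff₀ (by positivity)]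
  linarith

end Pool.Agent.K4H47.AL
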