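import Pool.Agent.K4H47.AL.Lim

/-!
# Local minimisers among the polytopes with at most `N` vertices
-/

set_option autoImplicit false

namespace Pool.Agent.K4H47.AL

open MeasureTheory
open scoped ENNReal
open Pool.Agent.H349R2.Tet (V lat dt Ov)
open Pool.Agent.H581R2
open Pool.Agent.TH219.DL
open Pool.Agent.K4H47.MM

/-- `K` has locally the least value of `δ` among the polytopes with at most `N` vertices -/
def LocMinN (δ : Set V → ℝ≥0∞) (N : ℕ) (K : Set V) : Prop :=
  ∃ ε : ℝ, 0 < ε ∧ ∀ v' : Fin N → V, (interior (hull v')).Nonempty →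
    volume (symmDiff (hull v') K) ≤ ENNReal.ofReal ε → δ K ≤ δ (hull v')

/-- the values of `δ` at its local minimisers among the polytopes with at most `N` vertices -/
def ValN (δ : Set V → ℝ≥0∞) (N : ℕ) : Set ℝ :=
  {t | ∃ v : Fin N → V, (interior (hull v)).Nonempty ∧ LocMinN δ N (hull v) ∧
    (δ (hull v)).toReal = t}

variable {δ : Set V → ℝ≥0∞} {P : Set V → ℝ → Prop}

theorem locMinN_of {K : Set V} (N : ℕ) (h : LocMin δ K) : LocMinN δ N K := by
  obtain ⟨ε, hε, hm⟩ := h
  exact ⟨ε, hε, fun v' hv' => hm _ (hull_body hv')⟩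

/-- local minimality in an affinely invariant class is affinely invariant -/
theorem locMinN_aff (h : Dens δ P) {N : ℕ} {K K' : Set V} (hK : Body K) (hK' : Body K')
    {L : V ≃ₗ[ℝ] V} {p : V} (hKK : K' = (fun x => L x + p) '' K) (hm : LocMinN δ N K) :
    LocMinN δ N K' := by
  obtain ⟨ε, hε, hmin⟩ := hm
  -- the affine bijection
  let A : V → V := fun x => L x + p
  let B : V → V := fun x => L.symm x + -(L.symm p)
  have hAB : ∀ x, A (B x) = x := by
    intro x
    simp [A, B]
  have hBA : ∀ x, B (A x) = x := by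
    intro x
    simp [A, B]
  have hBimg : ∀ S : Set V, B '' S = A ⁻¹' S := by
    intro S
    ext x
    constructor
    · rintro ⟨y, hy, rfl⟩
      show A (B y) ∈ S
      rwa [hAB]
    · intro hx
      exact ⟨A x, hx, hBA x⟩
  have hvol : ∀ S : Set V, volume (A ⁻¹' S) =
      ENNReal.ofReal |LinearMap.det ((L.symm : V ≃ₗ[ℝ] V) : V →ₗ[ℝ] V)| * volume S := by
    intro S
    rw [← hBimg]
    have h1 : B '' S = (fun x => x + -(L.symm p)) '' (((L.symm : V ≃ₗ[ℝ] V) : V →ₗ[ℝ] V) '' S) := by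
      rw [Set.image_image]
      rfl
    rw [h1]
    have h2 := Measure.addHaar_image_linearMap (μ := (volume : Measure V))
      ((L.symm : V ≃ₗ[ℝ] V) : V →ₗ[ℝ] V) S
    rw [← h2]
    simp only [Set.image_add_right, neg_neg]
    exact measure_preimage_add_right _ _ _
  set d : ℝ := |LinearMap.det ((L.symm : V ≃ₗ[ℝ] V) : V →ₗ[ℝ] V)| with hd
  have hd0 : 0 < d := abs_pos.2 (LinearEquiv.isUnit_det' L.symm).ne_zero
  refine ⟨ε / d, by positivity, fun v1 hv1 hv => ?_⟩
  have hK1 : Body (hull v1) := hull_body hv1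
  obtain ⟨K1, hK1e⟩ : ∃ K1, K1 = hull v1 := ⟨_, rfl⟩
  rw [← hK1e] at hK1 hv ⊢
  have hcont : Continuous A := by
    have : Continuous (fun x => (L x : V)) := L.toLinearMap.continuous_of_finiteDimensional
    exact this.add continuous_const
  have hcontB : Continuous B := by
    have : Continuous (fun x => (L.symm x : V)) :=
      L.symm.toLinearMap.continuous_of_finiteDimensional
    exact this.add continuous_const
  have hB1 : Body (A ⁻¹' K1) := by
    refine ⟨?_, ?_, ?_⟩
    · rw [← hBimg]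
      exact hK1.1.image hcontB
    · have : A ⁻¹' K1 = (AffineMap.mk' A (L : V →ₗ[ℝ] V) 0 (by intro x; simp [A])) ⁻¹' K1 := rfl
      rw [this]
      exact hK1.2.1.affine_preimage _
    · obtain ⟨x, hx⟩ := hK1.2.2
      refine ⟨B x, ?_⟩
      have h3 : A ⁻¹' (interior K1) ⊆ interior (A ⁻¹' K1) :=
        preimage_interior_subset_interior_preimage hcont
      apply h3
      show A (B x) ∈ interior K1
      rwa [hAB]
  have hK0 : K = A ⁻¹' K' := by
    rw [hKK]
    exact (Set.preimage_image_eq K (Function.LeftInverse.injective (g := B) hBA)).symm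
  have h4 : volume (symmDiff (A ⁻¹' K1) K) ≤ ENNReal.ofReal ε := by
    have h5 : symmDiff (A ⁻¹' K1) K = A ⁻¹' (symmDiff K1 K') := by
      rw [hK0]
      rfl
    rw [h5, hvol]
    calc _ ≤ ENNReal.ofReal d * ENNReal.ofReal (ε / d) := by gcongr
      _ = ENNReal.ofReal (d * (ε / d)) := (ENNReal.ofReal_mul hd0.le).symm
      _ = ENNReal.ofReal ε := by rw [mul_div_cancel₀ _ hd0.ne']
  have h9 : A ⁻¹' K1 = hull (fun i => B (v1 i)) := by
    rw [← hBimg, hK1e]
    unfold hull
    have h10 := ((AffineMap.mk' B (L.symm : V →ₗ[ℝ] V) 0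
      (by intro x; simp [B])) : V →ᵃ[ℝ] V).image_convexHull (Set.range v1)
    have h11 : B '' Set.range v1 = Set.range (fun i => B (v1 i)) := by
      rw [← Set.range_comp]
      rfl
    rw [← h11]
    exact h10
  have h6 := hmin _ (by rw [← h9]; exact hB1.2.2) (by rw [← h9]; exact h4)
  rw [← h9] at h6
  have h7 : δ K = δ K' := eq_of h hK hK' hKK
  have h8 : δ (A ⁻¹' K1) = δ K1 := by
    refine eq_of h hB1 hK1 (L := L) (p := p) ?_
    show K1 = A '' (A ⁻¹' K1)
    exact (Set.image_preimage_eq K1 (Function.RightInverse.surjective (g := B) hAB)).symm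
  rw [← h7, ← h8]
  exact h6

/-- the values at local minimisers with at most `M + 4` vertices lie in a countable semialgebraic
set -/
theorem alg3 (h : Dens δ P) (hN : S_NZ) (hL : S_LO) (hC : S_CN) (M : ℕ) :
    ∃ T : Set ℝ, SAP (fun z : Unit → ℝ => z () ∈ T) ∧ T.Countable ∧
      ∀ v : Fin (M + 4) → V, (interior (hull v)).Nonempty → LocMinN δ (M + 4) (hull v) →
        (δ (hull v)).toReal ∈ T := by
  let κ : Type := Fin (M + 4) × Fin 3
  let f : (κ → ℝ) → ℝ := fun x => (δ (hull (pts x))).toReal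
  let S : Set (κ → ℝ) := {x | Nm (pts x)}
  refine ⟨{t : ℝ | ∃ x ∈ S, f x = t ∧ ∃ ε : ℝ, 0 < ε ∧ ∀ y ∈ S,
      (∀ i, |y i - x i| < ε) → t ≤ f y}, ?_, hC κ S f, fun v hv hm => ?_⟩
  swap
  · obtain ⟨L, p, w, hw, hwe⟩ := hN M v hv
    have hwi := nm_int hw
    have hbw := hull_body hwi
    rw [eq_of h (hull_body hv) hbw hwe]
    obtain ⟨ε, hε, hmin⟩ := locMinN_aff h (hull_body hv) hbw hwe hm
    obtain ⟨η, hη, hlo⟩ := hL (M + 4) w hwi ε hε
    refine ⟨fun k => w k.1 k.2, hw, rfl, η, hη, fun y hy hxy => ?_⟩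
    have hby := hull_body (nm_int hy)
    exact ENNReal.toReal_mono (h.lt_top _ hby).ne
      (hmin _ (nm_int hy) (hlo (pts y) fun i j => hxy (i, j)))
  -- the predicates
  have h0 := h.sap M
  have fnn : ∀ x, 0 ≤ f x := fun x => ENNReal.toReal_nonneg
  -- `t ≤ f x`
  have hle : SAP (fun z : κ ⊕ Unit → ℝ => Nm (pts fun k => z (Sum.inl k)) →
      z (Sum.inr ()) ≤ f (fun k => z (Sum.inl k))) := by
    have h1 := h0.preimage (φ := fun (u : (κ ⊕ Unit) ⊕ Unit → ℝ) (k : κ ⊕ Unit) =>
      Sum.elim (fun a => u (Sum.inl (Sum.inl a))) (fun b => u (Sum.inr b)) k) (by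
        intro k
        cases k with
        | inl a => exact PF.coord _
        | inr b => exact PF.coord _)
    have h2 : SAP (fun u : (κ ⊕ Unit) ⊕ Unit → ℝ => (0 ≤ u (Sum.inr ()) ∧
        u (Sum.inr ()) < u (Sum.inl (Sum.inr ()))) ) :=
      (SAP.le PF.zero (PF.coord _)).and (SAP.lt (PF.coord _) (PF.coord _))
    refine ((nm_sap (M := M) (fun k => (Sum.inl k : κ ⊕ Unit))).imp (fa (h2.imp h1))).congr
      fun z => imp_congr_right fun hz => ?_
    have hbz := hull_body (nm_int hz)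
    constructor
    · intro hle x hx
      refine ⟨hz, hx.1, (real_iff h hbz hx.1).2 (lt_of_lt_of_le hx.2 hle)⟩
    · intro hall
      by_contra hcon
      push Not at hcon
      have h3 := hall (fun _ => f (fun k => z (Sum.inl k))) ⟨fnn _, hcon⟩
      exact lt_irrefl _ ((real_iff h hbz (fnn _)).1 h3.2.2)
  -- `f x ≤ t`
  have hge : SAP (fun z : κ ⊕ Unit → ℝ => Nm (pts fun k => z (Sum.inl k)) →
      f (fun k => z (Sum.inl k)) ≤ z (Sum.inr ())) := by
    refine ((nm_sap (M := M) (fun k => (Sum.inl k : κ ⊕ Unit))).imp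
      ((SAP.le PF.zero (PF.coord (Sum.inr ()))).and h0.not)).congr
      fun z => imp_congr_right fun hz => ?_
    have hbz := hull_body (nm_int hz)
    constructor
    · intro hle
      have h3 : (0 : ℝ) ≤ z (Sum.inr ()) := (fnn _).trans hle
      exact ⟨h3, fun hh => absurd ((real_iff h hbz h3).1 hh.2.2) (not_lt.2 hle)⟩
    · rintro ⟨h3, h4⟩
      by_contra hcon
      push Not at hcon
      exact h4 ⟨hz, h3, (real_iff h hbz h3).2 hcon⟩
  -- the inner universal statement, with variables `((t ⊕ x) ⊕ ε) ⊕ y`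
  let J : Type := (Unit ⊕ κ) ⊕ Unit
  have hin : SAP (fun u : J ⊕ κ → ℝ => Nm (pts fun k => u (Sum.inr k)) →
      ((∀ i ∈ (Finset.univ : Finset κ),
        u (Sum.inr i) - u (Sum.inl (Sum.inl (Sum.inr i))) < u (Sum.inl (Sum.inr ())) ∧
        u (Sum.inl (Sum.inl (Sum.inr i))) - u (Sum.inr i) < u (Sum.inl (Sum.inr ()))) →
      u (Sum.inl (Sum.inl (Sum.inl ()))) ≤ f (fun k => u (Sum.inr k)))) := by
    have h1 := hle.preimage (φ := fun (u : J ⊕ κ → ℝ) (k : κ ⊕ Unit) =>
      Sum.elim (fun a => u (Sum.inr a)) (fun _ => u (Sum.inl (Sum.inl (Sum.inl ())))) k) (by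
        intro k
        cases k with
        | inl a => exact PF.coord _
        | inr b => exact PF.coord _)
    have h2 : SAP (fun u : J ⊕ κ → ℝ => ∀ i ∈ (Finset.univ : Finset κ),
        u (Sum.inr i) - u (Sum.inl (Sum.inl (Sum.inr i))) < u (Sum.inl (Sum.inr ())) ∧
        u (Sum.inl (Sum.inl (Sum.inr i))) - u (Sum.inr i) < u (Sum.inl (Sum.inr ()))) :=
      SAP.forall_mem _ fun i _ => (SAP.lt ((PF.coord _).sub (PF.coord _)) (PF.coord _)).and
        (SAP.lt ((PF.coord _).sub (PF.coord _)) (PF.coord _))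
    refine (h2.imp h1).congr fun u => ?_
    constructor
    · intro h3 h4 h5
      exact h3 h5 h4
    · intro h3 h4 h5
      exact h3 h5 h4
  have hall := fa hin
  have heps := ex ((SAP.lt PF.zero (PF.coord (Sum.inr ()))).and hall)
  have heq : SAP (fun u : Unit ⊕ κ → ℝ => (Nm (pts fun k => u (Sum.inr k)) →
      u (Sum.inl ()) ≤ f (fun k => u (Sum.inr k))) ∧ (Nm (pts fun k => u (Sum.inr k)) →
      f (fun k => u (Sum.inr k)) ≤ u (Sum.inl ()))) := by
    exact (hle.preimage (φ := fun (u : Unit ⊕ κ → ℝ) (k : κ ⊕ Unit) => u k.swap)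
      fun k => PF.coord _).and (hge.preimage
      (φ := fun (u : Unit ⊕ κ → ℝ) (k : κ ⊕ Unit) => u k.swap) fun k => PF.coord _)
  refine (ex ((nm_sap (M := M) (fun k => (Sum.inr k : Unit ⊕ κ))).and (heq.and heps))).congr
    fun z => ?_
  constructor
  · rintro ⟨x, hx, hfx, e, he, hy⟩
    refine ⟨x, hx, ⟨fun _ => hfx.ge, fun _ => hfx.le⟩, fun _ => e, he, fun y hyn hyy => ?_⟩
    refine hy y hyn fun i => ?_
    have := hyy i (Finset.mem_univ _)
    exact abs_lt.2 ⟨by have := this.2; simp only [Sum.elim_inl, Sum.elim_inr] at this; linarith,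
      by have := this.1; simp only [Sum.elim_inl, Sum.elim_inr] at this; linarith⟩
  · rintro ⟨x, hx, ⟨h1, h2⟩, e, he, hy⟩
    refine ⟨x, hx, le_antisymm (h2 hx) (h1 hx), e (), he, fun y hyn hyy => ?_⟩
    refine hy y hyn fun i _ => ?_
    have := abs_lt.1 (hyy i)
    simp only [Sum.elim_inl, Sum.elim_inr]
    constructor <;> linarith [this.1, this.2]


theorem valN (h : Dens δ P) (hA : S_AL) (hN : S_NZ) (hL : S_LO) (hC : S_CN) (N : ℕ) :
    (ValN δ N).Finite ∧ ∀ t ∈ ValN δ N, IsAlgebraic ℚ t := by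
  by_cases hN4 : 4 ≤ N
  · obtain ⟨M, rfl⟩ : ∃ M, N = M + 4 := ⟨N - 4, by omega⟩
    obtain ⟨T, hT, hc, hmem⟩ := alg3 h hN hL hC M
    have hsub : ValN δ (M + 4) ⊆ T := by
      rintro t ⟨v, hv, hm, rfl⟩
      exact hmem v hv hm
    exact ⟨(count_fin hT hc).subset hsub, fun t ht => hA.1 T hT hc t (hsub ht)⟩
  · have hemp : ValN δ N = ∅ := by
      rw [Set.eq_empty_iff_forall_notMem]
      rintro t ⟨v, hv, -, -⟩
      have h5 : affineSpan ℝ (Set.range v) = ⊤ := by
        rw [← interior_convexHull_nonempty_iff_affineSpan_eq_top]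
        exact hv
      have h6 := finrank_vectorSpan_range_le ℝ v (n := N - 1)
      rcases Nat.eq_zero_or_pos N with h0 | h0
      · subst h0
        have h7 : Set.range v = ∅ := Set.range_eq_empty v
        unfold hull at hv
        rw [h7, convexHull_empty, interior_empty] at hv
        exact Set.not_nonempty_empty hv
      · have h7 := h6 (by simp; omega)
        have h8 : vectorSpan ℝ (Set.range v) = ⊤ := by
          rw [← direction_affineSpan, h5, AffineSubspace.direction_top]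
        rw [h8, finrank_top] at h7
        simp at h7
        omega
    rw [hemp]
    exact ⟨Set.finite_empty, fun t ht => absurd ht (Set.notMem_empty t)⟩

end Pool.Agent.K4H47.AL
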