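import Pool.Agent.K4H47.AL.Spec2
import Pool.Agent.K4H47.AL.NZ

/-!
# Normalisation of a convex body
-/

set_option autoImplicit false

namespace Pool.Agent.K4H47.AL

open MeasureTheory Filter Topology
open scoped ENNReal
open Pool.Agent.H349R2.Tet (V lat dt Ov)
open Pool.Agent.H581R2
open Pool.Agent.TH219.DL
open Pool.Agent.K4H47.MM

namespace NBP

open NZP

theorem exists_four' {K : Set V} (h : (interior K).Nonempty) :
    ∃ a : Fin 4 → V, (∀ i, a i ∈ K) ∧ dt (ed a id) ≠ 0 := by
  obtain ⟨x, hx⟩ := h
  obtain ⟨ε, hε, hb⟩ := Metric.mem_nhds_iff.1 (mem_interior_iff_mem_nhds.1 hx)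
  refine ⟨Fin.cons x (fun i => x + Pi.single i (ε / 2)), ?_, ?_⟩
  · intro i
    refine Fin.cases ?_ (fun j => ?_) i
    · exact hb (Metric.mem_ball_self hε)
    · apply hb
      rw [Fin.cons_succ, Metric.mem_ball, dist_eq_norm, add_sub_cancel_left, Pi.norm_single,
        Real.norm_eq_abs, abs_of_pos (by linarith)]
      linarith
  · have e : ed (Fin.cons x (fun i => x + Pi.single i (ε / 2)) : Fin 4 → V) id =
        fun i => Pi.single i (ε / 2) := by
      funext i
      simp [ed]
    rw [e]
    have e2 : dt (fun i : Fin 3 => (Pi.single i (ε / 2) : V)) = (ε / 2) ^ 3 := by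
      unfold dt
      rw [Matrix.det_fin_three]
      simp [Matrix.of_apply]
      ring
    rw [e2]
    positivity

theorem cont_dt : Continuous fun a : Fin 4 → V => |dt (ed a id)| := by
  unfold dt ed
  refine Continuous.abs (Continuous.matrix_det ?_)
  refine continuous_matrix fun i j => ?_
  simp only [Matrix.of_apply, id]
  fun_prop

end NBP

open NZP NBP in
theorem nbd : S_NB := by
  intro K hK
  obtain ⟨hc, hconv, hint⟩ := hK
  obtain ⟨a0, ha0, hd0⟩ := exists_four' hint
  have hcomp : IsCompact (Set.univ.pi fun _ : Fin 4 => K) := isCompact_univ_pi fun _ => hc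
  obtain ⟨a, haK, hmax⟩ := hcomp.exists_isMaxOn ⟨a0, fun i _ => ha0 i⟩ cont_dt.continuousOn
  have ha : ∀ i, a i ∈ K := fun i => haK i (Set.mem_univ _)
  have hmax' : ∀ b : Fin 4 → V, (∀ i, b i ∈ K) → |dt (ed b id)| ≤ |dt (ed a id)| :=
    fun b hb => hmax (fun i _ => hb i)
  have hD : dt (ed a id) ≠ 0 := by
    intro h
    have h1 := hmax' a0 ha0
    rw [h, abs_zero] at h1
    exact hd0 (abs_nonpos_iff.1 h1)
  obtain ⟨L, hL1, hL2⟩ := exists_map _ hD
  have hsucc : ∀ i : Fin 3, L (a i.succ) + -L (a 0) = Pi.single i 1 := by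
    intro i
    have h1 := hL1 i
    unfold ed at h1
    rw [map_sub] at h1
    rw [← sub_eq_add_neg]
    exact h1
  have hcont : Continuous fun x => L x + -L (a 0) := by
    have : Continuous (fun x => (L x : V)) := L.toLinearMap.continuous_of_finiteDimensional
    exact this.add continuous_const
  refine ⟨L, -L (a 0), ⟨?_, ?_, ?_⟩, ?_, ⟨_, ha (0 : Fin 3).succ, hsucc 0⟩,
    ⟨_, ha (1 : Fin 3).succ, hsucc 1⟩, ⟨_, ha (2 : Fin 3).succ, hsucc 2⟩, ?_⟩
  · exact hc.image hcont
  · have h1 : (fun x => L x + -L (a 0)) '' K = (fun x => x + -L (a 0)) '' (L.toLinearMap '' K) := by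
      rw [Set.image_image]
      rfl
    rw [h1]
    have h2 := (hconv.linear_image L.toLinearMap).translate (-L (a 0))
    have h3 : (fun x : V => x + -L (a 0)) = fun x => -L (a 0) + x := by
      funext x
      rw [add_comm]
    rw [h3]
    exact h2
  · let Φ : V ≃ₜ V := L.toContinuousLinearEquiv.toHomeomorph.trans (Homeomorph.addRight (-L (a 0)))
    have h1 : (fun x => L x + -L (a 0)) = Φ := by
      funext x
      rfl
    rw [h1, ← Φ.image_interior]
    exact hint.image _
  · exact ⟨a 0, ha 0, add_neg_cancel _⟩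
  · rintro _ ⟨x, hx, rfl⟩ j
    have h1 := hL2 (x - a 0) j
    have h2 : dt (Function.update (ed a id) j (x - a 0)) =
        dt (ed (Function.update a j.succ x) id) := by
      congr 1
      funext k
      have h0 : Function.update a j.succ x 0 = a 0 :=
        Function.update_of_ne (Fin.succ_ne_zero j).symm _ _
      by_cases hk : k = j
      · subst hk
        simp [ed, h0]
      · have hk' : k.succ ≠ j.succ := fun h => hk (Fin.succ_injective _ h)
        simp [ed, hk, h0]
    have h3 := hmax' (Function.update a j.succ x) (by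
      intro i
      by_cases hi : i = j.succ
      · rw [hi, Function.update_self]
        exact hx
      · rw [Function.update_of_ne hi]
        exact ha i)
    rw [h2, map_sub] at h1
    have h4 : |(L x - L (a 0)) j| * |dt (ed a id)| ≤ 1 * |dt (ed a id)| := by
      rw [← abs_mul, h1, one_mul]
      exact h3
    have h5 := le_of_mul_le_mul_right h4 (abs_pos.2 hD)
    show |(L x + -L (a 0)) j| ≤ 1
    rw [← sub_eq_add_neg]
    exact h5

end Pool.Agent.K4H47.AL
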