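import Pool.Agent.H581R2.SARun
import Pool.Agent.K4H47.MM.Main

/-!
# The least lattice packing density of polytopes with `N` vertices is algebraic: definitions
-/

set_option autoImplicit false

namespace Pool.Agent.K4H47.AL

open MeasureTheory
open scoped ENNReal
open Pool.Agent.H349R2.Tet (V lat dt Ov)
open Pool.Agent.H581R2
open Pool.Agent.TH219.DL
open Pool.Agent.K4H47.MM

/-! ### quantifiers over finitely many reals -/

theorem ex {α κ : Type} [Finite κ] {p : (α ⊕ κ → ℝ) → Prop} (hp : SAP p) :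
    SAP (fun v : α → ℝ => ∃ x : κ → ℝ, p (Sum.elim v x)) := by
  obtain ⟨n, ⟨e⟩⟩ := Finite.exists_equiv_fin κ
  have h1 : SAP (fun u : α ⊕ Fin n → ℝ => p (fun k => u (Sum.map id e k))) :=
    hp.preimage fun k => PF.coord _
  refine (SAP.exists_block n h1).congr fun v => ?_
  constructor
  · rintro ⟨x, hx⟩
    refine ⟨fun i => x (e.symm i), ?_⟩
    convert hx using 1
    funext k
    cases k with
    | inl a => rfl
    | inr i => simp
  · rintro ⟨x, hx⟩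
    refine ⟨fun i => x (e i), ?_⟩
    convert hx using 1
    funext k
    cases k with
    | inl a => rfl
    | inr i => simp

theorem fa {α κ : Type} [Finite κ] {p : (α ⊕ κ → ℝ) → Prop} (hp : SAP p) :
    SAP (fun v : α → ℝ => ∀ x : κ → ℝ, p (Sum.elim v x)) := by
  refine SAP.congr (ex hp.not).not fun v => ?_
  push Not
  rfl

/-! ### points, hulls, packings -/

/-- the points with coordinates `w` -/
def pts {n : ℕ} (w : Fin n × Fin 3 → ℝ) : Fin n → V := fun i j => w (i, j)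

/-- the convex hull of the points `v` -/
def hull {n : ℕ} (v : Fin n → V) : Set V := convexHull ℝ (Set.range v)

/-- the affine form with coefficients `c` -/
def af (c : Fin 4 → ℝ) (x : V) : ℝ := c 0 + c 1 * x 0 + c 2 * x 1 + c 3 * x 2

/-- some lattice packing of `K` has density larger than `r` -/
def PL (K : Set V) (r : ℝ) : Prop :=
  ∃ b : Fin 3 → V, dt b ≠ 0 ∧ (∀ u ∈ lat b, u ≠ 0 → ¬ Ov K u) ∧ r * |dt b| < (volume K).toReal

/-- some double lattice packing of `K` has density larger than `r` -/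
def PS (K : Set V) (r : ℝ) : Prop :=
  ∃ (v : V) (b : Fin 3 → V), dt b ≠ 0 ∧ (∀ u ∈ lat b, u ≠ 0 → ¬ Ov K u) ∧
    (∀ u ∈ lat b, ¬ Rv K (v + u)) ∧ r * |dt b| < 2 * (volume K).toReal

/-- normalised points: the first four are `0` and the unit vectors, all coordinates at most `1` -/
def Nm {M : ℕ} (w : Fin (M + 4) → V) : Prop :=
  w 0 = 0 ∧ w 1 = Pi.single 0 1 ∧ w 2 = Pi.single 1 1 ∧ w 3 = Pi.single 2 1 ∧
    ∀ i j, |w i j| ≤ 1

/-- `K` has locally the least value of `δ`, with respect to the volume of the symmetric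
difference -/
def LocMin (δ : Set V → ℝ≥0∞) (K : Set V) : Prop :=
  ∃ ε : ℝ, 0 < ε ∧ ∀ K' : Set V, Body K' → volume (symmDiff K' K) ≤ ENNReal.ofReal ε → δ K ≤ δ K'

/-- regions `R w` for which the volume of `tetrahedron ∩ R w` is a semialgebraic function -/
def Good (κ : Type) (R : (κ → ℝ) → Set V) : Prop :=
  SAP (fun z : ((Fin 4 × Fin 3) ⊕ κ) ⊕ Unit → ℝ =>
    (volume (hull (pts fun k => z (Sum.inl (Sum.inl k))) ∩ R fun k => z (Sum.inl (Sum.inr k)))).toReal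
      = z (Sum.inr ()))

/-! ### the pieces -/

/-- [V1] cutting a tetrahedron through an edge -/
def S_V1 : Prop := ∀ (a : Fin 4 → V) (i j : Fin 4) (e : V) (s : ℝ) (R : Set V), i ≠ j → 0 ≤ s →
  s ≤ 1 → e = (1 - s) • a i + s • a j →
  volume (hull a ∩ R) =
    volume (hull (Function.update a i e) ∩ R) + volume (hull (Function.update a j e) ∩ R)

/-- [V2] the volume of a tetrahedron -/
def S_V2 : Prop := ∀ a : Fin 4 → V,
  (volume (hull a)).toReal = |dt (fun i => a i.succ - a 0)| / 6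

/-- [V3] cutting by a half space -/
def S_V3 : Prop := ∀ (κ : Type) [Finite κ] (R : (κ → ℝ) → Set V), Good κ R →
  Good (κ ⊕ Fin 4) (fun w => R (fun k => w (Sum.inl k)) ∩ {x | 0 ≤ af (fun k => w (Sum.inr k)) x})

/-- [V4] removing a tetrahedron -/
def S_V4 : Prop := ∀ (κ : Type) [Finite κ] (R : (κ → ℝ) → Set V), Good κ R →
  Good (κ ⊕ (Fin 4 × Fin 3)) (fun w => R (fun k => w (Sum.inl k)) \
    hull (pts fun k => w (Sum.inr k)))

/-- [V5] the volume of the hull of `n` points is a semialgebraic function -/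
def S_V5 : Prop := ∀ n : ℕ, SAP (fun z : (Fin n × Fin 3) ⊕ Unit → ℝ =>
  (volume (hull (pts fun k => z (Sum.inl k)))).toReal = z (Sum.inr ()))

/-- [OV] overlaps are semialgebraic conditions -/
def S_OV : Prop := ∀ n : ℕ, SAP (fun z : (Fin n × Fin 3) ⊕ Fin 3 → ℝ =>
    Ov (hull (pts fun k => z (Sum.inl k))) fun k => z (Sum.inr k)) ∧
  SAP (fun z : (Fin n × Fin 3) ⊕ Fin 3 → ℝ =>
    Rv (hull (pts fun k => z (Sum.inl k))) fun k => z (Sum.inr k))

/-- [RB] lattices with bounded determinant and without short vectors have bounded bases -/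
def S_RB : Prop := ∀ r D : ℝ, 0 < r → ∃ C : ℕ, ∀ b : Fin 3 → V, dt b ≠ 0 →
  (∀ u ∈ lat b, u ≠ 0 → r ≤ ‖u‖) → |dt b| ≤ D →
  ∃ c : Fin 3 → V, dt c ≠ 0 ∧ lat c = lat b ∧ |dt c| = |dt b| ∧ (∀ i, ‖c i‖ ≤ C) ∧ 1 ≤ C * |dt c|

/-- [IX] coordinates of the short vectors -/
def S_IX : Prop := ∀ (C : ℕ) (L : ℝ), ∃ C' : ℕ, ∀ c : Fin 3 → V, (∀ i, ‖c i‖ ≤ C) →
  1 ≤ C * |dt c| → ∀ n : Fin 3 → ℤ, ‖∑ i, (n i : ℝ) • c i‖ ≤ L → ∀ i, |n i| ≤ C'

/-- [FL] lattice packings of normalised bodies: finitely many conditions -/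
def S_FL : Prop := ∀ M : ℕ, ∃ C C' : ℕ, ∀ w : Fin (M + 4) → V, Nm w → ∀ r : ℝ, 0 ≤ r →
  (PL (hull w) r ↔ ∃ b : Fin 3 → V, (∀ i j, |b i j| ≤ C) ∧ 1 ≤ C * |dt b| ∧
    (∀ n : Fin 3 → ℤ, n ≠ 0 → (∀ i, |n i| ≤ C') → ¬ Ov (hull w) (∑ i, (n i : ℝ) • b i)) ∧
    r * |dt b| < (volume (hull w)).toReal)

/-- [FS] double lattice packings of normalised bodies: finitely many conditions -/
def S_FS : Prop := ∀ M : ℕ, ∃ C C' : ℕ, ∀ w : Fin (M + 4) → V, Nm w → ∀ r : ℝ, 0 ≤ r →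
  (PS (hull w) r ↔ ∃ (v : V) (b : Fin 3 → V), (∀ j, |v j| ≤ C) ∧ (∀ i j, |b i j| ≤ C) ∧
    1 ≤ C * |dt b| ∧
    (∀ n : Fin 3 → ℤ, n ≠ 0 → (∀ i, |n i| ≤ C') → ¬ Ov (hull w) (∑ i, (n i : ℝ) • b i)) ∧
    (∀ n : Fin 3 → ℤ, (∀ i, |n i| ≤ C') → ¬ Rv (hull w) (v + ∑ i, (n i : ℝ) • b i)) ∧
    r * |dt b| < 2 * (volume (hull w)).toReal)

/-- [PL] the densities of normalised polytopes are semialgebraic functions -/
def S_PL : Prop := ∀ M : ℕ,
  SAP (fun z : (Fin (M + 4) × Fin 3) ⊕ Unit → ℝ => Nm (pts fun k => z (Sum.inl k)) ∧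
    0 ≤ z (Sum.inr ()) ∧ PL (hull (pts fun k => z (Sum.inl k))) (z (Sum.inr ()))) ∧
  SAP (fun z : (Fin (M + 4) × Fin 3) ⊕ Unit → ℝ => Nm (pts fun k => z (Sum.inl k)) ∧
    0 ≤ z (Sum.inr ()) ∧ PS (hull (pts fun k => z (Sum.inl k))) (z (Sum.inr ())))

/-- [DG] the densities in real terms -/
def S_DG : Prop := ∀ K : Set V, Body K → ∀ r : ℝ, 0 ≤ r →
  (ENNReal.ofReal r < dL K ↔ PL K r) ∧ (ENNReal.ofReal r < dLs K ↔ PS K r)

/-- [AF] affine invariance -/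
def S_AF : Prop := ∀ (K : Set V) (L : V ≃ₗ[ℝ] V) (p : V) (r : ℝ),
  (PL K r → PL ((fun x => L x + p) '' K) r) ∧ (PS K r → PS ((fun x => L x + p) '' K) r)

/-- [NZ] normalisation -/
def S_NZ : Prop := ∀ (M : ℕ) (v : Fin (M + 4) → V), (interior (hull v)).Nonempty →
  ∃ (L : V ≃ₗ[ℝ] V) (p : V) (w : Fin (M + 4) → V), Nm w ∧ hull w = (fun x => L x + p) '' hull v

/-- [LO] continuity of the hull -/
def S_LO : Prop := ∀ (n : ℕ) (v : Fin n → V), (interior (hull v)).Nonempty → ∀ ε : ℝ, 0 < ε →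
  ∃ δ : ℝ, 0 < δ ∧ ∀ v' : Fin n → V, (∀ i j, |v' i j - v i j| < δ) →
    volume (symmDiff (hull v') (hull v)) ≤ ENNReal.ofReal ε

/-- [CN] a function has countably many local minimum values -/
def S_CN : Prop := ∀ (κ : Type) [Finite κ] (S : Set (κ → ℝ)) (f : (κ → ℝ) → ℝ),
  {t : ℝ | ∃ x ∈ S, f x = t ∧ ∃ ε : ℝ, 0 < ε ∧ ∀ y ∈ S, (∀ i, |y i - x i| < ε) → t ≤ f y}.Countable

/-- [AL] elements of countable semialgebraic sets, and endpoints, are algebraic -/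
def S_AL : Prop :=
  (∀ S : Set ℝ, SAP (fun z : Unit → ℝ => z () ∈ S) → S.Countable → ∀ t ∈ S, IsAlgebraic ℚ t) ∧
  ∀ (S : Set ℝ) (x : ℝ), SAP (fun z : Unit → ℝ => z () ∈ S) → (∀ t, 0 ≤ t → t < x → t ∈ S) →
    (∀ t, x < t → t ∉ S) → 0 ≤ x → IsAlgebraic ℚ x

end Pool.Agent.K4H47.AL
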