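import Pool.Agent.K4H47.AL.Lim

/-!
# Further pieces: attainment at algebraic polytopes, rate of convergence
-/

set_option autoImplicit false

namespace Pool.Agent.K4H47.AL

open MeasureTheory Filter Topology
open scoped ENNReal
open Pool.Agent.H349R2.Tet (V lat dt Ov)
open Pool.Agent.H581R2
open Pool.Agent.TH219.DL
open Pool.Agent.K4H47.MM

/-- [LSC] lower semicontinuity on normalised points -/
def S_LSC (P : Set V → ℝ → Prop) : Prop := ∀ (M : ℕ) (w : Fin (M + 4) → V), Nm w → ∀ r : ℝ,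
  0 ≤ r → P (hull w) r → ∃ η : ℝ, 0 < η ∧ ∀ w' : Fin (M + 4) → V, Nm w' →
    (∀ i j, |w' i j - w i j| < η) → P (hull w') r

/-- the minimisers among the normalised points -/
def MinSet (δ : Set V → ℝ≥0∞) (M : ℕ) : Set (Fin (M + 4) × Fin 3 → ℝ) :=
  {x | Nm (pts x) ∧ ∀ y : Fin (M + 4) × Fin 3 → ℝ, Nm (pts y) → δ (hull (pts x)) ≤ δ (hull (pts y))}

/-- [LEX] compact semialgebraic sets contain points with algebraic coordinates -/
def S_LEX : Prop := ∀ (κ : Type) [Finite κ] (S : Set (κ → ℝ)), SAP (fun z : κ → ℝ => z ∈ S) →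
  IsCompact S → S.Nonempty → ∃ x ∈ S, ∀ i, IsAlgebraic ℚ (x i)

/-- normalised bodies -/
def NB (K : Set V) : Prop := Body K ∧ (0 : V) ∈ K ∧ (Pi.single 0 1 : V) ∈ K ∧
  (Pi.single 1 1 : V) ∈ K ∧ (Pi.single 2 1 : V) ∈ K ∧ ∀ x ∈ K, ∀ j, |x j| ≤ 1

/-- [NB] normalisation of bodies -/
def S_NB : Prop := ∀ K : Set V, Body K → ∃ (L : V ≃ₗ[ℝ] V) (p : V), NB ((fun x => L x + p) '' K)

/-- [GR] approximation of normalised bodies by hulls of grid points -/
def S_GR : Prop := ∀ K : Set V, NB K → ∀ k : ℕ, 0 < k → ∃ v : Fin ((2 * k + 1) ^ 3) → V,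
  K ⊆ hull v ∧ (interior (hull v)).Nonempty ∧
    (volume (hull v)).toReal ≤ (1 + 12 / (k : ℝ)) ^ 3 * (volume K).toReal

end Pool.Agent.K4H47.AL
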