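import Pool.Agent.K4H47.AL.All
import Pool.Agent.K4H47.AL.Loc
import Pool.Agent.K4H47.AL.Att
import Pool.Agent.K4H47.AL.LSC
import Pool.Agent.K4H47.AL.CPT
import Pool.Agent.K4H47.AL.LEX
import Pool.Agent.K4H47.AL.NBd
import Pool.Agent.K4H47.AL.GR

/-!
# The theorem for a general density
-/

set_option autoImplicit false

namespace Pool.Agent.K4H47.AL

open MeasureTheory Filter Topology
open scoped ENNReal
open Pool.Agent.H349R2.Tet (V lat dt Ov)
open Pool.Agent.H581R2
open Pool.Agent.TH219.DL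
open Pool.Agent.K4H47.MM

/-- the conclusions for a density `δ`; `D K` is the set of the densest packings of `K` -/
structure Thm (δ : Set V → ℝ≥0∞) (D : Set V → Set (Set (Bool × V))) (n : ℕ) : Prop where
  algebraic : ∀ N, IsAlgebraic ℚ (least δ N).toReal
  attained : ∀ N, 4 ≤ N → ∃ v : Fin N → V, (interior (hull v)).Nonempty ∧
    (∀ i j, IsAlgebraic ℚ (v i j)) ∧ δ (hull v) = least δ N
  antitone : Antitone (least δ)
  rate : ∀ k : ℕ, 0 < k → mn δ ≤ least δ ((2 * k + 1) ^ 3) ∧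
    least δ ((2 * k + 1) ^ 3) ≤ ENNReal.ofReal ((1 + 12 / (k : ℝ)) ^ 3) * mn δ
  values : ∀ N, (ValN δ N).Finite ∧ ∀ t ∈ ValN δ N, IsAlgebraic ℚ t
  densest : ∀ m : ℕ, (Val δ fun K => (D K).encard ≤ m).Finite ∧
    ∀ t ∈ Val δ fun K => (D K).encard ≤ m, IsAlgebraic ℚ t
  reduction : ∀ (m : ℕ) (K : Set V), Body K → δ K = mn δ → (D K).encard ≤ m →
    mn δ = least δ (n * m)
  minimum : (IsAlgebraic ℚ (mn δ).toReal ∧ ∃ (N : ℕ) (v : Fin N → V),
      (interior (hull v)).Nonempty ∧ (∀ i j, IsAlgebraic ℚ (v i j)) ∧ δ (hull v) = mn δ) ∨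
    ((∀ N, mn δ < least δ N) ∧ ∀ K, Body K → δ K = mn δ →
      (K.extremePoints ℝ).Infinite ∧ (D K).Infinite)

variable {δ : Set V → ℝ≥0∞} {P : Set V → ℝ → Prop}

theorem locMin_of_min {K : Set V} (h : δ K = mn δ) : LocMin δ K :=
  ⟨1, one_pos, fun K' hK' _ => by rw [h]; exact iInf_le_of_le K' (iInf_le _ hK')⟩

theorem hull_of_encard' {K : Set V} (hK : Body K) {N : ℕ} (hN : (K.extremePoints ℝ).encard ≤ N) :
    ∃ v : Fin N → V, K = hull v := by
  have hf : (K.extremePoints ℝ).Finite := by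
    rw [← Set.encard_lt_top_iff]
    exact hN.trans_lt (by simp)
  have hh := hull_of_finite hK hf
  have hne : (K.extremePoints ℝ).Nonempty := by
    by_contra hcon
    rw [Set.not_nonempty_iff_eq_empty] at hcon
    rw [hcon, convexHull_empty] at hh
    obtain ⟨x, hx⟩ := hK.2.2
    rw [hh] at hx
    exact absurd (interior_subset hx) (Set.notMem_empty x)
  obtain ⟨e, he⟩ := hne
  obtain ⟨n, f, hinj, hr⟩ := hf.fin_param
  have hn : n ≤ N := by
    have h1 : (Set.range f).encard = n := by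
      rw [← Set.image_univ, hinj.encard_image]
      simp
    rw [hr] at h1
    rw [h1] at hN
    exact_mod_cast hN
  let v : Fin N → V := fun i => if h : (i : ℕ) < n then f ⟨i, h⟩ else e
  refine ⟨v, ?_⟩
  have hrv : Set.range v = K.extremePoints ℝ := by
    rw [← hr]
    apply Set.Subset.antisymm
    · rintro _ ⟨i, rfl⟩
      by_cases h : (i : ℕ) < n
      · exact ⟨⟨i, h⟩, by simp [v, h]⟩
      · rw [hr]
        simpa [v, h] using he
    · rintro _ ⟨i, rfl⟩
      exact ⟨⟨i, by have := i.2; omega⟩, by simp [v]⟩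
  rw [hull, hrv]
  exact hh

theorem mn_le_least (N : ℕ) : mn δ ≤ least δ N :=
  le_iInf fun v => le_iInf fun hv => iInf_le_of_le (hull v) (iInf_le _ (hull_body hv))

theorem thm (h : Dens δ P) (hm : Mono P) {D : Set V → Set (Set (Bool × V))}
    (hc : Concl δ D) {T : Set V → Set (Bool × V) → V → Prop} {n : ℕ}
    (hS : ∀ K, Body K → CutMin δ K → Struct K (D K) (T K) n) : Thm δ D n := by
  have hatt : ∀ M : ℕ, ∃ v : Fin (M + 4) → V, (interior (hull v)).Nonempty ∧
      (∀ i j, IsAlgebraic ℚ (v i j)) ∧ δ (hull v) = least δ (M + 4) :=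
    fun M => attained h nz lex (cpt h (lsc h hm) M)
  refine ⟨hc.algebraic, fun N hN => ?_, least_anti,
    fun k hk => ⟨mn_le_least _, rate h hm nbd gr hk⟩, valN h alg nz lo cn, hc.densest,
    fun m K hK hmin hcard => ?_, ?_⟩
  · obtain ⟨M, rfl⟩ : ∃ M, N = M + 4 := ⟨N - 4, by omega⟩
    exact hatt M
  · have h1 := (hS K hK (cutMin_of_locMin (locMin_of_min hmin))).card
    have h2 : (K.extremePoints ℝ).encard ≤ ((n * m : ℕ) : ℕ∞) := by
      refine h1.trans ?_
      push_cast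
      exact mul_le_mul_right hcard _
    obtain ⟨v, hv⟩ := hull_of_encard' hK h2
    refine le_antisymm (mn_le_least _) ?_
    rw [← hmin, hv]
    exact iInf_le_of_le v (iInf_le _ (by rw [← hv]; exact hK.2.2))
  by_cases hex : ∃ N, least δ N = mn δ
  · left
    obtain ⟨N, hN⟩ := hex
    have h1 : least δ (N + 4) = mn δ :=
      le_antisymm ((least_anti (Nat.le_add_right N 4)).trans hN.le) (mn_le_least _)
    obtain ⟨v, hv, hal, hmin⟩ := hatt N
    exact ⟨h1 ▸ hc.algebraic (N + 4), N + 4, v, hv, hal, hmin.trans h1⟩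
  · right
    push Not at hex
    have hlt : ∀ N, mn δ < least δ N := fun N => lt_of_le_of_ne (mn_le_least N) (hex N).symm
    have hext : ∀ K, Body K → δ K = mn δ → (K.extremePoints ℝ).Infinite := by
      intro K hK hmin hf
      obtain ⟨m, hm⟩ := hf.exists_encard_eq_coe
      obtain ⟨v, hv⟩ := hull_of_encard hK hm.le
      have h2 : least δ (m + 4) ≤ δ (hull v) :=
        iInf_le_of_le v (iInf_le _ (by rw [← hv]; exact hK.2.2))
      rw [← hv, hmin] at h2
      exact absurd h2 (not_le.2 (hlt _))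
    exact ⟨hlt, fun K hK hmin => ⟨hext K hK hmin, fun hf =>
      hext K hK hmin ((hS K hK (cutMin_of_locMin (locMin_of_min hmin))).polytope hf).1⟩⟩

end Pool.Agent.K4H47.AL
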