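import Pool.Agent.K4H47.AL.Spec

/-!
# Cutting a tetrahedron through an edge
-/

set_option autoImplicit false

namespace Pool.Agent.K4H47.AL

open MeasureTheory
open scoped ENNReal
open Pool.Agent.H349R2.Tet (V)

/-- a point with barycentric coordinates `c` is in the part at `a j` -/
theorem v1_split (a : Fin 4 → V) (i j : Fin 4) (e : V) (s : ℝ) (hij : i ≠ j) (hs0 : 0 ≤ s)
    (hs1 : s < 1) (he : e = (1 - s) • a i + s • a j) (c : Fin 4 → ℝ) (hc : ∀ k, 0 ≤ c k)
    (hsum : ∑ k, c k = 1) (h : s * c i ≤ (1 - s) * c j) :
    ∑ k, c k • a k ∈ hull (Function.update a i e) := by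
  have hs : 0 < 1 - s := by linarith
  set t : ℝ := s * c i / (1 - s) with ht
  have ht0 : 0 ≤ t := div_nonneg (mul_nonneg hs0 (hc i)) hs.le
  have htj : t ≤ c j := by
    rw [ht, div_le_iff₀ hs]
    linarith
  have hts : (c i + t) * s = t := by
    rw [ht]
    field_simp
    ring
  have key : ∑ k, (c k + (if k = i then t else 0) - (if k = j then t else 0)) •
      (Function.update a i e) k = ∑ k, c k • a k := by
    have h1 : ∀ k, (c k + (if k = i then t else 0) - (if k = j then t else 0)) •
        (Function.update a i e) k = c k • a k + (if k = i then (t • a i + (c i + t) • (e - a i)) else 0)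
          - (if k = j then t • a j else 0) := by
      intro k
      by_cases hk : k = i
      · subst hk
        rw [Function.update_self, if_pos rfl, if_neg hij, if_pos rfl, if_neg hij]
        module
      · rw [Function.update_of_ne hk, if_neg hk, if_neg hk]
        by_cases hkj : k = j
        · subst hkj
          rw [if_pos rfl, if_pos rfl]
          module
        · rw [if_neg hkj, if_neg hkj]
          module
    rw [Finset.sum_congr rfl fun k _ => h1 k, Finset.sum_sub_distrib, Finset.sum_add_distrib,
      Finset.sum_ite_eq', Finset.sum_ite_eq', if_pos (Finset.mem_univ _), if_pos (Finset.mem_univ _)]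
    have h2 : (c i + t) • (e - a i) = t • (a j - a i) := by
      rw [he]
      have h3 : (1 - s) • a i + s • a j - a i = s • (a j - a i) := by module
      rw [h3, smul_smul, hts]
    rw [h2]
    module
  rw [← key]
  refine mem_convexHull_of_exists_fintype
    (fun k => c k + (if k = i then t else 0) - (if k = j then t else 0)) (Function.update a i e)
    ?_ ?_ (fun k => Set.mem_range_self k) rfl
  · intro k
    have h1 := hc k
    by_cases hk : k = i
    · subst hk
      simp only [if_true, if_neg hij]
      linarith
    · by_cases hkj : k = j
      · subst hkj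
        simp only [if_neg hk, if_true]
        linarith
      · simp only [if_neg hk, if_neg hkj]
        linarith
  · rw [Finset.sum_sub_distrib, Finset.sum_add_distrib, hsum, Finset.sum_ite_eq',
      Finset.sum_ite_eq', if_pos (Finset.mem_univ _), if_pos (Finset.mem_univ _)]
    ring

theorem v1_sub (a : Fin 4 → V) (i : Fin 4) (e : V) (he : e ∈ hull a) :
    hull (Function.update a i e) ⊆ hull a := by
  refine convexHull_min ?_ (convex_convexHull ℝ _)
  rintro _ ⟨k, rfl⟩
  by_cases hk : k = i
  · subst hk
    rw [Function.update_self]
    exact he
  · rw [Function.update_of_ne hk]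
    exact subset_convexHull ℝ _ (Set.mem_range_self k)

theorem v1_meas (a : Fin 4 → V) : MeasurableSet (hull a) :=
  (Set.Finite.isCompact_convexHull ℝ (Set.finite_range a)).isClosed.measurableSet

theorem v1 : S_V1 := by
  intro a i j e s R hij hs0 hs1 he
  have heh : e ∈ hull a := by
    rw [he]
    exact (convex_convexHull ℝ (Set.range a)) (subset_convexHull ℝ _ (Set.mem_range_self i))
      (subset_convexHull ℝ _ (Set.mem_range_self j)) (by linarith) hs0 (by ring)
  have h1 := v1_sub a i e heh
  have h2 := v1_sub a j e heh
  by_cases hind : AffineIndependent ℝ a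
  · -- the nondegenerate case
    have htop : affineSpan ℝ (Set.range a) = ⊤ := by
      rw [hind.affineSpan_eq_top_iff_card_eq_finrank_add_one]
      simp
    let b : AffineBasis (Fin 4) ℝ V := ⟨a, hind, htop⟩
    have hb : ∀ k, b k = a k := fun k => rfl
    have hhull : hull a = {x | ∀ k, 0 ≤ b.coord k x} := b.convexHull_eq_nonneg_coord
    let f : V →ᵃ[ℝ] ℝ := (1 - s) • b.coord j - s • b.coord i
    have hf : ∀ x, f x = (1 - s) * b.coord j x - s * b.coord i x := fun x => rfl
    have hcoord : ∀ k l, b.coord k (a l) = if k = l then 1 else 0 := by
      intro k l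
      rw [← hb l]
      exact b.coord_apply k l
    have hfa : ∀ k, f (a k) = (if j = k then 1 - s else 0) - (if i = k then s else 0) := by
      intro k
      rw [hf, hcoord, hcoord]
      split_ifs <;> ring
    have hfe : f e = 0 := by
      have hle : e = AffineMap.lineMap (a i) (a j) s := by
        rw [he, AffineMap.lineMap_apply_module]
      rw [hle, AffineMap.apply_lineMap, hfa, hfa, AffineMap.lineMap_apply_module]
      rw [if_neg hij.symm, if_pos rfl, if_pos rfl, if_neg hij]
      simp only [smul_eq_mul]
      ring
    have hpos : hull (Function.update a i e) ⊆ {x | 0 ≤ f x} := by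
      refine convexHull_min ?_ ((convex_Ici (0 : ℝ)).affine_preimage f)
      rintro _ ⟨k, rfl⟩
      by_cases hk : k = i
      · subst hk
        rw [Function.update_self]
        exact hfe.ge
      · rw [Function.update_of_ne hk]
        change 0 ≤ f (a k)
        rw [hfa, if_neg (show ¬ (i = k) from fun h => hk h.symm)]
        split_ifs <;> linarith
    have hneg : hull (Function.update a j e) ⊆ {x | f x ≤ 0} := by
      refine convexHull_min ?_ ((convex_Iic (0 : ℝ)).affine_preimage f)
      rintro _ ⟨k, rfl⟩
      by_cases hk : k = j
      · subst hk
        rw [Function.update_self]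
        exact hfe.le
      · rw [Function.update_of_ne hk]
        change f (a k) ≤ 0
        rw [hfa, if_neg (show ¬ (j = k) from fun h => hk h.symm)]
        split_ifs <;> linarith
    have hcov : hull a ⊆ hull (Function.update a i e) ∪ hull (Function.update a j e) := by
      intro x hx
      rw [hhull] at hx
      have hx' : ∀ k, 0 ≤ b.coord k x := hx
      have hxs : ∑ k, b.coord k x = 1 := b.sum_coord_apply_eq_one x
      have hxe : ∑ k, b.coord k x • a k = x := b.linear_combination_coord_eq_self x
      rw [← hxe]
      by_cases hc : s < 1 ∧ s * b.coord i x ≤ (1 - s) * b.coord j x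
      · exact Or.inl (v1_split a i j e s hij hs0 hc.1 he (fun k => b.coord k x) hx' hxs hc.2)
      · right
        have hs : 0 < s := by
          rcases hs0.eq_or_lt with h | h
          · exfalso
            apply hc
            rw [← h]
            refine ⟨one_pos, ?_⟩
            have := hx' j
            linarith
          · exact h
        refine v1_split a j i e (1 - s) hij.symm (by linarith) (by linarith)
          (by rw [he]; module) (fun k => b.coord k x) hx' hxs ?_
        rcases hs1.eq_or_lt with h | h
        · rw [h]
          have := hx' i
          simp only [sub_self, zero_mul, sub_zero, one_mul]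
          exact this
        · have h3 : (1 - s) * b.coord j x < s * b.coord i x := by
            by_contra h'
            exact hc ⟨h, not_lt.1 h'⟩
          have h4 : 1 - (1 - s) = s := by ring
          rw [h4]
          exact h3.le
    have hnull : volume (hull (Function.update a i e) ∩ hull (Function.update a j e)) = 0 := by
      let P : AffineSubspace ℝ V := AffineSubspace.mk' e (LinearMap.ker f.linear)
      have hP : P ≠ ⊤ := by
        intro h
        have h3 : a j ∈ P := by rw [h]; trivial
        have h4 : a i ∈ P := by rw [h]; trivial
        rw [AffineSubspace.mem_mk', LinearMap.mem_ker, AffineMap.linearMap_vsub, hfe] at h3 h4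
        rw [hfa, if_pos rfl, if_neg hij] at h3
        rw [hfa, if_neg hij.symm, if_pos rfl] at h4
        simp only [vsub_eq_sub] at h3 h4
        linarith
      refine measure_mono_null ?_ (Measure.addHaar_affineSubspace volume P hP)
      intro x hx
      have h3 : f x = 0 := le_antisymm (hneg hx.2) (hpos hx.1)
      change x ∈ P
      rw [AffineSubspace.mem_mk', LinearMap.mem_ker, AffineMap.linearMap_vsub, hfe, h3]
      simp
    rw [← measure_inter_add_sdiff (hull a ∩ R) (v1_meas (Function.update a i e))]
    congr 1
    · congr 1
      ext x
      constructor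
      · rintro ⟨⟨-, h3⟩, h4⟩
        exact ⟨h4, h3⟩
      · rintro ⟨h4, h3⟩
        exact ⟨⟨h1 h4, h3⟩, h4⟩
    · apply le_antisymm
      · apply measure_mono
        rintro x ⟨⟨h3, h4⟩, h5⟩
        rcases hcov h3 with h6 | h6
        · exact absurd h6 h5
        · exact ⟨h6, h4⟩
      · refine (measure_mono (t := (hull a ∩ R) \ hull (Function.update a i e) ∪
          (hull (Function.update a i e) ∩ hull (Function.update a j e))) ?_).trans
          ((measure_union_le _ _).trans ?_)
        · rintro x ⟨h3, h4⟩
          by_cases h5 : x ∈ hull (Function.update a i e)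
          · exact Or.inr ⟨h5, h3⟩
          · exact Or.inl ⟨⟨h2 h3, h4⟩, h5⟩
        · rw [hnull, add_zero]
  · -- the degenerate case
    have hne : affineSpan ℝ (Set.range a) ≠ ⊤ := by
      intro h
      apply hind
      rw [affineIndependent_iff_finrank_vectorSpan_eq ℝ a (n := 3) (by simp)]
      rw [AffineSubspace.affineSpan_eq_top_iff_vectorSpan_eq_top_of_nonempty ℝ V V
        (Set.range_nonempty a)] at h
      rw [h]
      simp
    have h0 : volume (hull a) = 0 :=
      measure_mono_null (convexHull_subset_affineSpan (Set.range a))
        (Measure.addHaar_affineSubspace volume _ hne)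
    rw [measure_mono_null Set.inter_subset_left h0,
      measure_mono_null (Set.inter_subset_left.trans h1) h0,
      measure_mono_null (Set.inter_subset_left.trans h2) h0, add_zero]

end Pool.Agent.K4H47.AL
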