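import Pool.Agent.K4H47.AL.Spec

/-!
# Cutting a tetrahedron by a half space: geometry
-/

set_option autoImplicit false

namespace Pool.Agent.K4H47.AL

open MeasureTheory
open scoped ENNReal
open Pool.Agent.H349R2.Tet (V lat dt Ov)

theorem v3_af_comb (c : Fin 4 → ℝ) (x y : V) (s t : ℝ) (h : s + t = 1) :
    af c (s • x + t • y) = s * af c x + t * af c y := by
  unfold af
  simp only [Pi.add_apply, Pi.smul_apply, smul_eq_mul]
  have : t = 1 - s := by linarith
  subst this
  ring

theorem v3_convex_ge (c : Fin 4 → ℝ) : Convex ℝ {x : V | 0 ≤ af c x} := by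
  intro x hx y hy s t hs ht hst
  have hx' : 0 ≤ af c x := hx
  have hy' : 0 ≤ af c y := hy
  change 0 ≤ af c (s • x + t • y)
  rw [v3_af_comb c x y s t hst]
  positivity

theorem v3_convex_le (c : Fin 4 → ℝ) : Convex ℝ {x : V | af c x ≤ 0} := by
  intro x hx y hy s t hs ht hst
  have hx' : af c x ≤ 0 := hx
  have hy' : af c y ≤ 0 := hy
  change af c (s • x + t • y) ≤ 0
  rw [v3_af_comb c x y s t hst]
  nlinarith [mul_nonneg hs (neg_nonneg.2 hx'), mul_nonneg ht (neg_nonneg.2 hy')]

/-- (g0) all vertices in the half space -/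
theorem v3_g0 (a : Fin 4 → V) (c : Fin 4 → ℝ) (h : ∀ i, 0 ≤ af c (a i)) :
    hull a ⊆ {x | 0 ≤ af c x} := by
  refine convexHull_min ?_ (v3_convex_ge c)
  rintro _ ⟨i, rfl⟩
  exact h i

theorem v3_vol0 (a : Fin 4 → V) (c : Fin 4 → ℝ) (R : Set V) (h : ∀ i, 0 ≤ af c (a i)) :
    volume (hull a ∩ (R ∩ {x | 0 ≤ af c x})) = volume (hull a ∩ R) := by
  congr 1
  ext x
  constructor
  · rintro ⟨h1, h2, -⟩
    exact ⟨h1, h2⟩
  · rintro ⟨h1, h2⟩
    exact ⟨h1, h2, v3_g0 a c h h1⟩

/-- the linear part of `af c` -/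
def v3_lin (c : Fin 4 → ℝ) : V →ₗ[ℝ] ℝ where
  toFun x := c 1 * x 0 + c 2 * x 1 + c 3 * x 2
  map_add' x y := by simp only [Pi.add_apply]; ring
  map_smul' s x := by simp only [Pi.smul_apply, smul_eq_mul, RingHom.id_apply]; ring

/-- the plane `af c = 0` is a null set unless it is the whole space -/
theorem v3_null (c : Fin 4 → ℝ) (q : V) (hq : af c q ≠ 0) : volume {x : V | af c x = 0} = 0 := by
  by_cases h : ∃ p : V, af c p = 0
  · obtain ⟨p, hp⟩ := h
    have hd : ∀ x : V, v3_lin c (x - p) = af c x := by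
      intro x
      have e : af c x = af c x - af c p := by rw [hp, sub_zero]
      rw [e]
      change c 1 * (x - p) 0 + c 2 * (x - p) 1 + c 3 * (x - p) 2 = _
      unfold af
      simp only [Pi.sub_apply]
      ring
    have e : {x : V | af c x = 0} = (AffineSubspace.mk' p (LinearMap.ker (v3_lin c)) : Set V) := by
      ext x
      rw [SetLike.mem_coe, AffineSubspace.mem_mk', LinearMap.mem_ker, vsub_eq_sub, hd]
      rfl
    rw [e]
    apply Measure.addHaar_affineSubspace
    intro ht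
    have h1 : q ∈ AffineSubspace.mk' p (LinearMap.ker (v3_lin c)) := by
      rw [ht]; exact AffineSubspace.mem_top ℝ V q
    rw [AffineSubspace.mem_mk', LinearMap.mem_ker, vsub_eq_sub, hd] at h1
    exact hq h1
  · have e : {x : V | af c x = 0} = ∅ := by
      ext x
      simp only [Set.mem_ofPred_eq, Set.mem_empty_iff_false, iff_false]
      exact fun hx => h ⟨x, hx⟩
    rw [e, measure_empty]

/-- (g1) all vertices on the other side, one of them strictly -/
theorem v3_vol1 (a : Fin 4 → V) (c : Fin 4 → ℝ) (R : Set V) (h : ∀ i, af c (a i) ≤ 0)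
    (h' : ∃ i, af c (a i) < 0) : volume (hull a ∩ (R ∩ {x | 0 ≤ af c x})) = 0 := by
  obtain ⟨i, hi⟩ := h'
  refine measure_mono_null ?_ (v3_null c (a i) hi.ne)
  rintro x ⟨h1, -, h2⟩
  have h3 : hull a ⊆ {x | af c x ≤ 0} := by
    refine convexHull_min ?_ (v3_convex_le c)
    rintro _ ⟨j, rfl⟩
    exact h j
  exact le_antisymm (h3 h1) h2

/-- (g3) the three cases -/
theorem v3_cases (a : Fin 4 → V) (c : Fin 4 → ℝ) : (∀ i, 0 ≤ af c (a i)) ∨
    ((∀ i, af c (a i) ≤ 0) ∧ ∃ i, af c (a i) < 0) ∨ ∃ i j, 0 < af c (a i) ∧ af c (a j) < 0 := by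
  by_cases h1 : ∃ i, af c (a i) < 0
  · obtain ⟨j, hj⟩ := h1
    by_cases h2 : ∃ i, 0 < af c (a i)
    · obtain ⟨i, hi⟩ := h2
      exact Or.inr (Or.inr ⟨i, j, hi, hj⟩)
    · exact Or.inr (Or.inl ⟨fun i => not_lt.1 fun h => h2 ⟨i, h⟩, j, hj⟩)
  · exact Or.inl fun i => not_lt.1 fun h => h1 ⟨i, h⟩

/-- (g2) the cutting point exists -/
theorem v3_ex (x y : V) (u v : ℝ) (hu : 0 < u) (hv : v < 0) : ∃ e : V, (u - v) • e = u • y - v • x := by
  refine ⟨(u - v)⁻¹ • (u • y - v • x), ?_⟩
  rw [smul_smul, mul_inv_cancel₀ (by linarith), one_smul]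

/-- (g2) the cutting point is on the edge and in the plane -/
theorem v3_edge (a : Fin 4 → V) (c : Fin 4 → ℝ) (i j : Fin 4) (e : V) (hi : 0 < af c (a i))
    (hj : af c (a j) < 0)
    (he : (af c (a i) - af c (a j)) • e = af c (a i) • a j - af c (a j) • a i) :
    i ≠ j ∧ (∃ s : ℝ, 0 ≤ s ∧ s ≤ 1 ∧ e = (1 - s) • a i + s • a j) ∧ af c e = 0 := by
  set u := af c (a i) with hu
  set v := af c (a j) with hv
  have hd : 0 < u - v := by linarith
  have hij : i ≠ j := by
    rintro rfl
    rw [← hu] at hv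
    linarith
  have hs : e = (1 - u / (u - v)) • a i + (u / (u - v)) • a j := by
    have h1 : e = (u - v)⁻¹ • (u • a j - v • a i) := by
      rw [← he, smul_smul, inv_mul_cancel₀ hd.ne', one_smul]
    have h2 : 1 - u / (u - v) = (u - v)⁻¹ * (-v) := by
      field_simp
      ring
    rw [h1, h2, div_eq_inv_mul, smul_sub, smul_smul, smul_smul, mul_neg, neg_smul]
    abel
  refine ⟨hij, ⟨u / (u - v), by positivity, ?_, hs⟩, ?_⟩
  · rw [div_le_one hd]
    linarith
  · rw [hs, v3_af_comb c _ _ _ _ (by ring), ← hu, ← hv]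
    field_simp
    ring

/-- the number of vertices off the plane -/
noncomputable def v3_nz (c : Fin 4 → ℝ) (a : Fin 4 → V) : ℕ :=
  open Classical in (Finset.univ.filter fun k => af c (a k) ≠ 0).card

theorem v3_nz_update (a : Fin 4 → V) (c : Fin 4 → ℝ) (i : Fin 4) (e : V) (hi : af c (a i) ≠ 0)
    (he : af c e = 0) : v3_nz c (Function.update a i e) + 1 = v3_nz c a := by
  classical
  unfold v3_nz
  have h1 : (Finset.univ.filter fun k => af c (a k) ≠ 0) =
      insert i (Finset.univ.filter fun k => af c (Function.update a i e k) ≠ 0) := by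
    ext k
    simp only [Finset.mem_filter, Finset.mem_univ, true_and, Finset.mem_insert]
    rcases eq_or_ne k i with rfl | hk
    · simp [hi]
    · rw [Function.update_of_ne hk]
      simp [hk]
  have h2 : i ∉ (Finset.univ.filter fun k => af c (Function.update a i e k) ≠ 0) := by
    simp [he]
  rw [h1, Finset.card_insert_of_notMem h2]

/-- the step: cutting through the point `e` of an edge that crosses the plane -/
theorem v3_step (h1 : S_V1) (a : Fin 4 → V) (c : Fin 4 → ℝ) (R : Set V) (i j : Fin 4) (e : V)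
    (hi : 0 < af c (a i)) (hj : af c (a j) < 0)
    (he : (af c (a i) - af c (a j)) • e = af c (a i) • a j - af c (a j) • a i) :
    volume (hull a ∩ (R ∩ {x | 0 ≤ af c x})) =
      volume (hull (Function.update a i e) ∩ (R ∩ {x | 0 ≤ af c x})) +
        volume (hull (Function.update a j e) ∩ (R ∩ {x | 0 ≤ af c x})) ∧
    v3_nz c (Function.update a i e) + 1 = v3_nz c a ∧
    v3_nz c (Function.update a j e) + 1 = v3_nz c a := by
  obtain ⟨hij, ⟨s, hs0, hs1, hes⟩, hae⟩ := v3_edge a c i j e hi hj he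
  exact ⟨h1 a i j e s _ hij hs0 hs1 hes, v3_nz_update a c i e hi.ne' hae,
    v3_nz_update a c j e hj.ne hae⟩

/-- volumes of parts of a hull are finite -/
theorem v3_fin {n : ℕ} (a : Fin n → V) (R : Set V) : volume (hull a ∩ R) ≠ ⊤ := by
  have h1 : IsCompact (hull a) := (Set.finite_range a).isCompact_convexHull (𝕜 := ℝ)
  exact (lt_of_le_of_lt (measure_mono Set.inter_subset_left) h1.measure_lt_top).ne

end Pool.Agent.K4H47.AL
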