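import Pool.Agent.K4H47.AL.V3g

/-!
# Cutting a tetrahedron by a half space: the volume is semialgebraic
-/

set_option autoImplicit false

namespace Pool.Agent.K4H47.AL

open MeasureTheory
open scoped ENNReal
open Pool.Agent.H349R2.Tet (V lat dt Ov)
open Pool.Agent.H581R2

section V3

variable {κ : Type}

/-- the variables: the tetrahedron, the parameters of the region, the half space; the volume -/
abbrev V3J (κ : Type) : Type := ((Fin 4 × Fin 3) ⊕ (κ ⊕ Fin 4)) ⊕ Unit

/-- the tetrahedron -/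
def v3A (z : V3J κ → ℝ) : Fin 4 → V := pts fun k => z (Sum.inl (Sum.inl k))

/-- the parameters of the region -/
def v3W (z : V3J κ → ℝ) : κ → ℝ := fun k => z (Sum.inl (Sum.inr (Sum.inl k)))

/-- the half space -/
def v3C (z : V3J κ → ℝ) : Fin 4 → ℝ := fun k => z (Sum.inl (Sum.inr (Sum.inr k)))

/-- the volume of the part -/
noncomputable def v3F (R : (κ → ℝ) → Set V) (z : V3J κ → ℝ) : ℝ :=
  (volume (hull (v3A z) ∩ (R (v3W z) ∩ {x | 0 ≤ af (v3C z) x}))).toReal

/-- the volume without the half space -/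
noncomputable def v3G (R : (κ → ℝ) → Set V) (z : V3J κ → ℝ) : ℝ :=
  (volume (hull (v3A z) ∩ R (v3W z))).toReal

/-- the predicate of the induction -/
def v3P (R : (κ → ℝ) → Set V) (m : ℕ) (z : V3J κ → ℝ) : Prop :=
  v3_nz (v3C z) (v3A z) ≤ m ∧ v3F R z = z (Sum.inr ())

/-- replace a vertex and the volume -/
def v3U (i : Fin 4) (e : V) (t : ℝ) (z : V3J κ → ℝ) : V3J κ → ℝ :=
  Sum.elim (Sum.elim (fun k => if k.1 = i then e k.2 else z (Sum.inl (Sum.inl k)))
    (fun k => z (Sum.inl (Sum.inr k)))) (fun _ => t)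

theorem v3A_U (i : Fin 4) (e : V) (t : ℝ) (z : V3J κ → ℝ) :
    v3A (v3U i e t z) = Function.update (v3A z) i e := by
  funext k l
  rcases eq_or_ne k i with rfl | hk
  · simp [v3A, v3U, pts]
  · rw [Function.update_of_ne hk]
    simp [v3A, v3U, pts, hk]

theorem v3_PF_af (i : Fin 4) : PF (fun z : V3J κ → ℝ => af (v3C z) (v3A z i)) :=
  (((PF.coord (Sum.inl (Sum.inr (Sum.inr 0)))).add
    ((PF.coord (Sum.inl (Sum.inr (Sum.inr 1)))).mul (PF.coord (Sum.inl (Sum.inl (i, 0)))))).add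
    ((PF.coord (Sum.inl (Sum.inr (Sum.inr 2)))).mul (PF.coord (Sum.inl (Sum.inl (i, 1)))))).add
    ((PF.coord (Sum.inl (Sum.inr (Sum.inr 3)))).mul (PF.coord (Sum.inl (Sum.inl (i, 2)))))

theorem v3_nz_le_iff (c : Fin 4 → ℝ) (a : Fin 4 → V) (m : ℕ) :
    v3_nz c a ≤ m ↔ ∃ s : Finset (Fin 4), s.card ≤ m ∧ ∀ i ∈ sᶜ, af c (a i) = 0 := by
  classical
  constructor
  · intro h
    refine ⟨Finset.univ.filter fun k => af c (a k) ≠ 0, ?_, ?_⟩
    · unfold v3_nz at h
      convert h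
    · intro i hi
      simpa using hi
  · rintro ⟨s, hs, h⟩
    refine le_trans ?_ hs
    unfold v3_nz
    apply Finset.card_le_card
    intro k hk
    by_contra hks
    have h1 := h k (by simpa using hks)
    simp [h1] at hk

theorem v3_SAP_nz (m : ℕ) : SAP (fun z : V3J κ → ℝ => v3_nz (v3C z) (v3A z) ≤ m) :=
  (SAP.exists_fin (p := fun (s : Finset (Fin 4)) (z : V3J κ → ℝ) =>
    s.card ≤ m ∧ ∀ i ∈ sᶜ, af (v3C z) (v3A z i) = 0) fun s =>
      (SAP.const _).and (SAP.forall_mem _ fun i _ => SAP.eq_zero (v3_PF_af i))).congr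
    fun _ => v3_nz_le_iff _ _ _

theorem v3_SAP_G (R : (κ → ℝ) → Set V) (hG : Good κ R) :
    SAP (fun z : V3J κ → ℝ => v3G R z = z (Sum.inr ())) :=
  hG.preimage (φ := fun z : V3J κ → ℝ => Sum.elim (Sum.elim (fun k => z (Sum.inl (Sum.inl k)))
    (fun k => z (Sum.inl (Sum.inr (Sum.inl k))))) (fun _ => z (Sum.inr ()))) (by
      rintro ((k | k) | k)
      · exact PF.coord _
      · exact PF.coord _
      · exact PF.coord _)

theorem v3_PF_U (i : Fin 4) (s : Fin 5) (k : V3J κ) :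
    PF (fun u : V3J κ ⊕ Fin 5 → ℝ => v3U i (fun l : Fin 3 => u (Sum.inr (Fin.castLE (by omega) l)))
      (u (Sum.inr s)) (fun k => u (Sum.inl k)) k) := by
  rcases k with (k | k) | k
  · by_cases h : k.1 = i
    · have : (fun u : V3J κ ⊕ Fin 5 → ℝ => v3U i
          (fun l : Fin 3 => u (Sum.inr (Fin.castLE (by omega) l)))
          (u (Sum.inr s)) (fun k => u (Sum.inl k)) (Sum.inl (Sum.inl k))) =
          fun u => u (Sum.inr (Fin.castLE (by omega) k.2)) := by
        funext u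
        simp [v3U, h]
      rw [this]
      exact PF.coord _
    · have : (fun u : V3J κ ⊕ Fin 5 → ℝ => v3U i
          (fun l : Fin 3 => u (Sum.inr (Fin.castLE (by omega) l)))
          (u (Sum.inr s)) (fun k => u (Sum.inl k)) (Sum.inl (Sum.inl k))) =
          fun u => u (Sum.inl (Sum.inl (Sum.inl k))) := by
        funext u
        simp [v3U, h]
      rw [this]
      exact PF.coord _
  · exact PF.coord (Sum.inl (Sum.inl (Sum.inr k)))
  · exact PF.coord (Sum.inr s)

/-- the condition on the cutting point and the two volumes -/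
def v3Q (R : (κ → ℝ) → Set V) (m : ℕ) (i j : Fin 4) (u : V3J κ ⊕ Fin 5 → ℝ) : Prop :=
  (∀ l ∈ (Finset.univ : Finset (Fin 3)),
    (af (v3C fun k => u (Sum.inl k)) (v3A (fun k => u (Sum.inl k)) i) -
      af (v3C fun k => u (Sum.inl k)) (v3A (fun k => u (Sum.inl k)) j)) *
        u (Sum.inr (Fin.castLE (by omega) l)) =
      af (v3C fun k => u (Sum.inl k)) (v3A (fun k => u (Sum.inl k)) i) *
        v3A (fun k => u (Sum.inl k)) j l -
      af (v3C fun k => u (Sum.inl k)) (v3A (fun k => u (Sum.inl k)) j) *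
        v3A (fun k => u (Sum.inl k)) i l) ∧
  v3P R m (v3U i (fun l : Fin 3 => u (Sum.inr (Fin.castLE (by omega) l))) (u (Sum.inr 3))
    (fun k => u (Sum.inl k))) ∧
  v3P R m (v3U j (fun l : Fin 3 => u (Sum.inr (Fin.castLE (by omega) l))) (u (Sum.inr 4))
    (fun k => u (Sum.inl k))) ∧
  u (Sum.inl (Sum.inr ())) = u (Sum.inr 3) + u (Sum.inr 4)

theorem v3_SAP_Q (R : (κ → ℝ) → Set V) (m : ℕ) (i j : Fin 4) (h : SAP (v3P R m)) :
    SAP (v3Q R m i j) := by
  have hf : ∀ i, PF (fun u : V3J κ ⊕ Fin 5 → ℝ =>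
      af (v3C fun k => u (Sum.inl k)) (v3A (fun k => u (Sum.inl k)) i)) := fun i =>
    (v3_PF_af (κ := κ) i).comp (φ := fun u : V3J κ ⊕ Fin 5 → ℝ => fun k => u (Sum.inl k))
      fun k => PF.coord _
  refine SAP.and ?_ (SAP.and ?_ (SAP.and ?_ ?_))
  · refine SAP.forall_mem _ fun l _ => ?_
    exact SAP.eq (((hf i).sub (hf j)).mul (PF.coord _))
      (((hf i).mul (PF.coord (Sum.inl (Sum.inl (Sum.inl (j, l)))))).sub
        ((hf j).mul (PF.coord (Sum.inl (Sum.inl (Sum.inl (i, l)))))))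
  · exact h.preimage (φ := fun u : V3J κ ⊕ Fin 5 → ℝ => v3U i
      (fun l : Fin 3 => u (Sum.inr (Fin.castLE (by omega) l))) (u (Sum.inr 3))
      (fun k => u (Sum.inl k))) fun k => v3_PF_U i 3 k
  · exact h.preimage (φ := fun u : V3J κ ⊕ Fin 5 → ℝ => v3U j
      (fun l : Fin 3 => u (Sum.inr (Fin.castLE (by omega) l))) (u (Sum.inr 4))
      (fun k => u (Sum.inl k))) fun k => v3_PF_U j 4 k
  · exact SAP.eq (PF.coord _) ((PF.coord _).add (PF.coord _))

theorem v3_base (R : (κ → ℝ) → Set V) (hG : Good κ R) : SAP (v3P R 0) := by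
  refine ((v3_SAP_nz 0).and (v3_SAP_G R hG)).congr fun z => ?_
  unfold v3P
  refine and_congr_right fun h => ?_
  have h1 : ∀ i, af (v3C z) (v3A z i) = 0 := by
    obtain ⟨s, hs, h2⟩ := (v3_nz_le_iff _ _ _).1 h
    have h3 : s = ∅ := Finset.card_eq_zero.1 (Nat.le_zero.1 hs)
    subst h3
    intro i
    exact h2 i (by simp)
  have h2 : v3F R z = v3G R z := by
    unfold v3F v3G
    rw [v3_vol0 _ _ _ fun i => (h1 i).ge]
  rw [h2]

theorem v3_succ (h1 : S_V1) (R : (κ → ℝ) → Set V) (hG : Good κ R) (m : ℕ) (h : SAP (v3P R m)) :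
    SAP (v3P R (m + 1)) := by
  have hQ : ∀ i j, SAP (fun z : V3J κ → ℝ => ∃ x : Fin 5 → ℝ, v3Q R m i j (Sum.elim z x)) :=
    fun i j => SAP.exists_block 5 (v3_SAP_Q R m i j h)
  refine SAP.congr ((v3_SAP_nz (m + 1)).and
    ((((SAP.forall_mem (Finset.univ : Finset (Fin 4)) fun i _ =>
        SAP.le PF.zero (v3_PF_af i)).and (v3_SAP_G R hG)).or
      (((SAP.forall_mem (Finset.univ : Finset (Fin 4)) fun i _ =>
        SAP.le (v3_PF_af i) PF.zero).and (SAP.exists_fin fun i : Fin 4 =>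
          SAP.lt (v3_PF_af i) PF.zero)).and (SAP.eq_zero (PF.coord (Sum.inr ()))))).or
      (SAP.exists_fin fun i : Fin 4 => SAP.exists_fin fun j : Fin 4 =>
        ((SAP.lt PF.zero (v3_PF_af i)).and (SAP.lt (v3_PF_af j) PF.zero)).and (hQ i j)))) fun z => ?_
  unfold v3P
  refine and_congr_right fun hnz => ?_
  constructor
  · intro hF
    rcases v3_cases (v3A z) (v3C z) with hc | ⟨hc, hc'⟩ | ⟨i, j, hi, hj⟩
    · left; left
      refine ⟨fun i _ => hc i, ?_⟩
      rw [← hF]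
      unfold v3F v3G
      rw [v3_vol0 _ _ _ hc]
    · left; right
      refine ⟨⟨fun i _ => hc i, hc'⟩, ?_⟩
      rw [← hF]
      unfold v3F
      rw [v3_vol1 _ _ _ hc hc', ENNReal.toReal_zero]
    · right
      obtain ⟨e, he⟩ := v3_ex (v3A z i) (v3A z j) _ _ hi hj
      obtain ⟨hs, hn1, hn2⟩ := v3_step h1 (v3A z) (v3C z) (R (v3W z)) i j e hi hj he
      refine ⟨i, j, ⟨hi, hj⟩, ![e 0, e 1, e 2,
        v3F R (v3U i e 0 z), v3F R (v3U j e 0 z)], ?_, ?_, ?_, ?_⟩
      · intro l _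
        have h2 := congrFun he l
        simp only [Pi.smul_apply, Pi.sub_apply, smul_eq_mul] at h2
        fin_cases l
        · exact h2
        · exact h2
        · exact h2
      · have e1 : (fun l : Fin 3 => (Sum.elim z ![e 0, e 1, e 2, v3F R (v3U i e 0 z),
            v3F R (v3U j e 0 z)] : V3J κ ⊕ Fin 5 → ℝ) (Sum.inr (Fin.castLE (by omega) l))) = e := by
          funext l
          fin_cases l <;> rfl
        rw [e1]
        refine ⟨?_, rfl⟩
        have e2 := v3A_U i e (v3F R (v3U i e 0 z)) z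
        change v3_nz (v3C z) (v3A (v3U i e (v3F R (v3U i e 0 z)) z)) ≤ m
        rw [e2]
        omega
      · have e1 : (fun l : Fin 3 => (Sum.elim z ![e 0, e 1, e 2, v3F R (v3U i e 0 z),
            v3F R (v3U j e 0 z)] : V3J κ ⊕ Fin 5 → ℝ) (Sum.inr (Fin.castLE (by omega) l))) = e := by
          funext l
          fin_cases l <;> rfl
        rw [e1]
        refine ⟨?_, rfl⟩
        have e2 := v3A_U j e (v3F R (v3U j e 0 z)) z
        change v3_nz (v3C z) (v3A (v3U j e (v3F R (v3U j e 0 z)) z)) ≤ m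
        rw [e2]
        omega
      · change z (Sum.inr ()) = v3F R (v3U i e 0 z) + v3F R (v3U j e 0 z)
        rw [← hF]
        unfold v3F
        rw [v3A_U, v3A_U]
        change (volume (hull (v3A z) ∩ (R (v3W z) ∩ {x | 0 ≤ af (v3C z) x}))).toReal =
          (volume (hull (Function.update (v3A z) i e) ∩
            (R (v3W z) ∩ {x | 0 ≤ af (v3C z) x}))).toReal +
          (volume (hull (Function.update (v3A z) j e) ∩
            (R (v3W z) ∩ {x | 0 ≤ af (v3C z) x}))).toReal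
        rw [hs, ENNReal.toReal_add (v3_fin _ _) (v3_fin _ _)]
  · rintro ((⟨hc, hg⟩ | ⟨⟨hc, hc'⟩, ht⟩) | ⟨i, j, ⟨hi, hj⟩, x, hx1, ⟨-, hx2⟩, ⟨-, hx3⟩, hx4⟩)
    · rw [← hg]
      unfold v3F v3G
      rw [v3_vol0 _ _ _ fun i => hc i (Finset.mem_univ i)]
    · rw [ht]
      unfold v3F
      rw [v3_vol1 _ _ _ (fun i => hc i (Finset.mem_univ i)) hc', ENNReal.toReal_zero]
    · set e : V := fun l : Fin 3 => x (Fin.castLE (by omega) l) with hedef
      have he : (af (v3C z) (v3A z i) - af (v3C z) (v3A z j)) • e =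
          af (v3C z) (v3A z i) • v3A z j - af (v3C z) (v3A z j) • v3A z i := by
        funext l
        exact hx1 l (Finset.mem_univ l)
      obtain ⟨hs, -, -⟩ := v3_step h1 (v3A z) (v3C z) (R (v3W z)) i j e hi hj he
      have a1 : (volume (hull (Function.update (v3A z) i e) ∩
          (R (v3W z) ∩ {x | 0 ≤ af (v3C z) x}))).toReal = x 3 := by
        rw [← v3A_U i e (x 3) z]
        exact hx2
      have a2 : (volume (hull (Function.update (v3A z) j e) ∩
          (R (v3W z) ∩ {x | 0 ≤ af (v3C z) x}))).toReal = x 4 := by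
        rw [← v3A_U j e (x 4) z]
        exact hx3
      have a3 : z (Sum.inr ()) = x 3 + x 4 := hx4
      rw [a3]
      unfold v3F
      rw [hs, ENNReal.toReal_add (v3_fin _ _) (v3_fin _ _), a1, a2]

theorem v3_all (h1 : S_V1) (R : (κ → ℝ) → Set V) (hG : Good κ R) (m : ℕ) : SAP (v3P R m) := by
  induction m with
  | zero => exact v3_base R hG
  | succ m ih => exact v3_succ h1 R hG m ih

end V3

theorem v3_nz_le (c : Fin 4 → ℝ) (a : Fin 4 → V) : v3_nz c a ≤ 4 :=
  (v3_nz_le_iff c a 4).2 ⟨Finset.univ, by simp, by simp⟩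

/-- [V3] cutting by a half space -/
theorem v3s (h1 : S_V1) : S_V3 := by
  intro κ _ R hG
  refine (v3_all h1 R hG 4).congr fun z => ?_
  exact ⟨fun h => ⟨v3_nz_le _ _, h⟩, fun h => h.2⟩

end Pool.Agent.K4H47.AL
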